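import Pool.Agent.V7H38.OG.Tree

/-!
# Certificates for graphs on ten vertices
-/

set_option autoImplicit false

namespace Pool.Agent.V7H38.OG

open T

def ta0 : T := (.b 1 8 (.b 1 9 (.g 70) (.b 2 3 (.g 70) (.b 2 7 (.g 70) (.b 3 9 (.g 74) (.b 1 2 (.g
  74) (.b 1 3 (.g 70) (.b 2 6 (.g 74) (.c 7)))))))) (.b 1 9 (.b 2 3 (.g 70) (.b 2 7 (.g 70) (.b 3
  8 (.g 74) (.b 1 2 (.g 74) (.b 1 3 (.g 70) (.b 2 6 (.g 74) (.c 7))))))) (.b 1 2 (.b 3 7 (.g 74)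
  (.b 3 8 (.g 74) (.b 3 9 (.g 74) (.b 1 3 (.g 76) (.b 2 3 (.g 74) (.c 7)))))) (.b 1 6 (.b 1 3 (.g
  76) (.c 3)) (.c 3)))))

def ta1 : T := (.b 1 2 (.b 3 9 (.g 394) (.b 3 8 (.g 586) (.b 1 3 (.g 396) (.b 2 3 (.g 394) (.b 3 7
  (.b 1 9 (.g 74) (.b 2 9 (.g 76) (.c 521))) (.c 9)))))) (.b 1 3 (.b 2 9 (.g 390) (.b 2 8 (.g 582)
  (.b 2 3 (.g 390) (.b 2 7 (.b 1 9 (.g 70) (.b 3 9 (.g 76) (.c 517))) (.c 5))))) (.b 2 9 (.b 3 8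
  (.g 390) (.b 2 3 (.g 390) (.b 3 7 (.g 390) (.b 3 6 (.b 1 8 (.g 70) (.b 2 8 (.g 70) (.c 265)))
  (.c 9))))) (.b 4 9 (.b 4 5 (.g 401) (.b 3 9 (.b 1 7 (.g 396) (.c 515)) (.c 515))) (.c 515)))))

def ta2 : T := (.b 1 2 (.b 3 9 (.g 394) (.b 3 7 (.g 586) (.b 1 3 (.g 396) (.b 2 3 (.g 394) (.b 3 8
  (.b 1 9 (.g 74) (.b 2 9 (.g 76) (.c 521))) (.c 9)))))) (.b 1 3 (.b 2 9 (.g 390) (.b 2 7 (.g 582)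
  (.b 2 3 (.g 390) (.b 2 8 (.b 1 9 (.g 70) (.b 3 9 (.g 76) (.c 517))) (.c 5))))) (.b 2 9 (.b 3 7
  (.g 390) (.b 2 3 (.g 390) (.b 3 8 (.g 390) (.b 3 6 (.b 1 7 (.g 70) (.b 2 7 (.g 70) (.c 137)))
  (.c 9))))) (.b 4 9 (.b 4 5 (.g 401) (.b 3 9 (.b 1 8 (.g 396) (.c 515)) (.c 515))) (.c 515)))))

def ta3 : T := (.b 1 2 (.b 3 9 (.b 3 7 (.g 74) (.b 3 8 (.g 74) (.b 1 7 (.g 74) (.c 384)))) (.b 1 3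
  (.b 2 9 (.g 76) (.b 1 9 (.b 1 7 (.p 1) (.c 641)) (.q 9))) (.b 2 9 (.b 2 7 (.g 76) (.c 643)) (.c
  515)))) (.b 1 3 (.b 2 3 (.b 1 7 (.g 70) (.b 2 8 (.g 70) (.c 133))) (.b 1 7 (.b 1 8 (.g 70) (.c
  139)) (.c 133))) (.b 2 6 (.b 3 7 (.b 3 8 (.g 74) (.c 141)) (.c 131)) (.c 141))))

def ta4 : T := (.b 4 8 (.b 5 9 (.g 112) (.b 4 5 (.g 81) (.b 1 9 (.b 2 3 (.g 86) (.b 1 2 (.g 90)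
  (.c 517))) (.b 2 3 (.b 2 9 (.g 86) (.q 9)) (.c 517))))) (.b 5 8 (.b 5 9 (.g 112) (.b 4 5 (.g
  401) (.b 1 2 (.b 3 9 (.b 3 7 (.g 74) (.b 1 7 (.g 74) (.b 2 7 (.g 76) (.q 7)))) (.b 1 9 (.b 2 3
  (.g 74) (.c 517)) (.q 9))) (.b 1 3 (.b 2 3 (.b 1 9 (.g 70) (.c 517)) (.c 517)) (.c 515)))))
  ta3))

def ta5 : T := (.b 4 7 (.b 4 8 (.g 81) (.b 5 9 (.g 112) (.b 5 8 (.g 112) (.b 4 5 (.g 81) (.b 1 9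
  (.b 2 3 (.g 86) (.b 1 2 (.g 90) (.c 517))) (.b 2 3 (.b 2 9 (.g 86) (.q 9)) (.c 517))))))) (.b 5
  7 (.b 5 8 (.g 112) (.b 5 9 (.g 112) (.b 4 8 (.g 112) (.b 4 5 (.g 401) (.b 1 2 (.b 3 9 (.b 3 8
  (.g 74) (.b 1 8 (.g 74) (.b 2 8 (.g 76) (.q 8)))) (.b 1 9 (.b 2 3 (.g 74) (.c 517)) (.q 9))) (.b
  1 3 (.b 2 3 (.b 1 9 (.g 70) (.c 517)) (.c 517)) (.c 515))))))) ta4))

def ta6 : T := (.b 8 9 ta2 (.b 4 9 ta5 (.b 5 9 (.b 1 9 (.b 2 3 (.b 1 7 (.g 70) (.b 1 8 (.g 70) (.b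
  2 7 (.g 70) (.b 3 7 (.g 74) (.b 5 7 (.g 102) (.c 641)))))) (.b 1 2 (.b 3 9 (.g 74) (.c 517)) (.c
  517))) (.b 2 9 (.b 1 3 (.b 2 7 (.g 70) (.b 2 8 (.g 70) (.b 3 9 (.g 76) (.q 9)))) (.c 521)) (.q
  9))) (.b 1 9 (.b 2 3 (.b 2 9 (.g 70) (.q 9)) (.c 517)) (.q 9)))))

def ta7 : T := (.b 1 9 (.b 1 6 (.g 134) (.b 1 8 (.g 134) (.b 2 3 (.g 134) (.b 2 6 (.g 134) (.b 1 3
  (.g 134) (.b 3 7 (.g 134) (.c 73))))))) (.b 1 6 (.b 1 8 (.g 134) (.b 2 3 (.g 134) (.b 2 8 (.g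
  134) (.b 3 9 (.g 138) (.b 1 3 (.g 134) (.c 265)))))) (.b 1 8 (.b 2 3 (.g 134) (.b 2 6 (.g 134)
  (.b 3 9 (.g 138) (.b 1 3 (.g 134) (.c 73))))) (.b 2 3 (.b 2 9 (.g 134) (.b 1 2 (.g 138) (.b 1 3
  (.g 134) (.c 3)))) (.b 1 7 (.b 1 2 (.g 140) (.c 11)) (.c 7))))))

def ta8 : T := (.b 1 3 (.b 2 8 (.g 646) (.b 2 9 (.g 326) (.b 2 3 (.g 326) (.b 2 6 (.b 1 9 (.g 134)
  (.b 3 9 (.g 140) (.c 517))) (.c 5))))) (.b 2 3 (.b 1 8 (.g 646) (.b 1 9 (.g 326) (.b 1 6 (.b 2 9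
  (.g 134) (.b 3 9 (.g 138) (.c 515))) (.c 3)))) (.b 4 8 (.b 5 9 (.g 353) (.b 4 9 (.b 4 5 (.g 81)
  (.b 5 7 (.g 112) (.b 5 6 (.g 81) (.c 35)))) (.c 515))) (.b 5 8 (.b 4 9 (.g 337) (.b 5 9 (.b 4 5
  (.g 97) (.b 4 6 (.g 97) (.c 19))) (.c 515))) (.c 259)))))

def ta9 : T := (.b 1 3 (.b 2 6 (.g 646) (.b 2 9 (.g 326) (.b 2 3 (.g 326) (.b 2 7 (.b 1 6 (.g 262)
  (.b 3 6 (.g 268) (.c 69))) (.c 5))))) (.b 2 3 (.b 1 6 (.g 646) (.b 1 9 (.g 326) (.b 1 7 (.b 2 6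
  (.g 262) (.b 3 6 (.g 266) (.c 67))) (.c 3)))) (.b 4 6 (.b 5 9 (.g 353) (.b 4 9 (.b 4 5 (.g 145)
  (.b 5 7 (.g 145) (.b 5 8 (.g 176) (.c 35)))) (.c 515))) (.b 5 6 (.b 4 9 (.g 337) (.b 5 9 (.b 4 5
  (.g 161) (.b 4 7 (.g 161) (.c 19))) (.c 515))) (.c 67)))))

def ta10 : T := (.b 3 9 (.b 3 6 (.g 138) (.b 3 8 (.g 138) (.b 1 6 (.g 138) (.b 2 6 (.g 140) (.b 1
  8 (.g 138) (.b 2 8 (.g 140) (.c 321))))))) (.b 1 9 (.b 3 6 (.g 138) (.b 3 8 (.g 138) (.b 2 3 (.g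
  138) (.b 3 7 (.b 1 6 (.g 134) (.b 2 6 (.g 74) (.b 4 6 (.b 4 9 (.g 146) (.c 517)) (.q 6)))) (.c
  9))))) (.b 4 9 (.b 5 9 (.b 4 6 (.g 176) (.b 5 6 (.g 176) (.b 3 6 (.b 2 9 (.g 140) (.q 9)) (.c
  577)))) (.q 9)) (.q 9))))

def ta11 : T := (.b 8 9 (.b 1 2 (.b 3 6 (.g 650) (.b 3 9 (.g 330) (.b 1 3 (.g 332) (.b 2 3 (.g
  330) (.b 3 7 (.b 1 6 (.g 266) (.b 2 6 (.g 268) (.c 73))) (.c 9)))))) ta9) (.b 1 2 ta10 (.b 4 9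
  (.b 5 9 (.b 4 6 (.g 176) (.b 5 6 (.g 176) (.b 3 6 (.b 1 3 (.b 2 9 (.g 140) (.b 3 9 (.g 140) (.c
  515))) (.c 67)) (.c 67)))) (.b 3 9 (.b 1 3 (.b 2 9 (.g 140) (.c 515)) (.c 515)) (.c 515))) (.b 5
  9 (.b 3 9 (.b 1 3 (.b 2 9 (.g 140) (.c 515)) (.c 515)) (.c 515)) (.c 515)))))

def ta12 : T := (.b 1 2 (.b 3 8 (.g 650) (.b 3 7 (.g 330) (.b 1 3 (.g 332) (.b 2 3 (.g 330) (.b 3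
  9 (.b 1 8 (.g 74) (.b 2 8 (.g 76) (.c 265))) (.c 9)))))) (.b 1 3 (.b 2 8 (.g 646) (.b 2 7 (.g
  326) (.b 2 3 (.g 326) (.b 2 9 (.b 1 8 (.g 70) (.b 3 8 (.g 76) (.c 261))) (.c 5))))) (.b 2 8 (.b
  3 7 (.g 330) (.b 2 3 (.g 330) (.b 3 9 (.g 646) (.b 3 6 (.b 1 7 (.g 70) (.b 2 7 (.g 70) (.c
  137))) (.c 9))))) (.b 4 8 (.b 4 5 (.g 353) (.b 3 8 (.b 1 9 (.g 652) (.c 259)) (.c 259))) (.c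
  259)))))

def ta13 : T := (.b 1 3 (.b 2 6 (.g 390) (.b 2 8 (.g 582) (.b 2 3 (.g 390) (.b 2 7 (.b 1 6 (.g
  332) (.b 3 6 (.g 326) (.c 69))) (.c 5))))) (.b 2 3 (.b 1 6 (.g 390) (.b 1 8 (.g 582) (.b 1 7 (.b
  2 6 (.g 330) (.b 3 6 (.g 326) (.c 67))) (.c 3)))) (.b 4 6 (.b 5 8 (.g 401) (.b 4 8 (.b 4 5 (.g
  145) (.b 5 7 (.g 145) (.b 5 9 (.g 176) (.c 35)))) (.c 259))) (.b 5 6 (.b 4 8 (.g 417) (.b 5 8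
  (.b 4 5 (.g 161) (.b 4 7 (.g 161) (.c 19))) (.c 259))) (.c 67)))))

def ta14 : T := (.b 1 3 (.b 2 7 (.g 332) (.b 2 6 (.g 396) (.b 3 7 (.g 332) (.b 4 6 (.b 5 7 (.b 4 7
  (.b 5 6 (.g 304) (.c 192)) (.c 192)) (.c 192)) (.c 192))))) (.b 1 7 (.b 2 6 (.g 330) (.b 2 3 (.g
  330) (.b 4 6 (.b 5 6 (.b 4 7 (.b 5 7 (.g 304) (.c 135)) (.c 135)) (.c 67)) (.c 67)))) (.b 2 3
  (.b 1 6 (.g 394) (.b 3 7 (.g 330) (.b 4 6 (.b 5 7 (.b 4 7 (.b 5 6 (.g 304) (.c 67)) (.c 131))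
  (.c 131)) (.c 67)))) (.c 137))))

def ta15 : T := (.b 2 3 (.b 2 6 (.b 3 7 (.g 330) (.b 1 7 (.g 330) (.b 4 7 (.b 5 7 (.b 4 6 (.b 5 6
  (.g 304) (.c 67)) (.c 67)) (.c 131)) (.c 131)))) (.b 3 6 (.b 1 7 (.g 326) (.c 67)) (.c 67))) (.b
  4 6 (.b 5 7 (.b 4 5 (.g 353) (.b 4 8 (.g 353) (.b 5 8 (.g 401) (.c 259)))) (.b 4 7 (.b 1 6 (.b 1
  7 (.b 4 8 (.g 531) (.b 1 8 (.g 531) (.c 261))) (.c 133)) (.c 131)) (.c 131))) (.b 5 6 (.b 1 7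
  (.b 2 6 (.b 2 7 (.b 1 6 (.g 262) (.c 69)) (.c 69)) (.c 67)) (.c 67)) (.c 67))))

def ta16 : T := (.b 1 2 (.b 3 6 (.b 3 8 (.g 650) (.b 3 9 (.g 394) (.b 1 8 (.g 396) (.b 1 9 (.g
  394) (.b 2 8 (.g 394) (.c 768)))))) ta14) (.b 1 3 (.b 2 3 (.b 1 6 (.g 390) (.b 2 7 (.g 326) (.b
  1 7 (.g 326) (.b 2 6 (.g 390) (.b 4 6 (.b 5 7 (.b 4 7 (.b 5 6 (.g 304) (.c 67)) (.c 131)) (.c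
  131)) (.c 67)))))) (.b 1 6 (.b 3 7 (.g 332) (.b 2 7 (.g 332) (.b 4 7 (.b 5 7 (.b 4 6 (.b 5 6 (.g
  304) (.c 69)) (.c 69)) (.c 131)) (.c 131)))) (.b 3 6 (.b 2 7 (.g 326) (.c 69)) (.c 69)))) ta15))

def ta17 : T := (.b 6 9 (.g 112) (.b 7 9 (.g 176) (.b 1 2 (.b 1 3 (.b 2 3 (.b 1 9 (.b 1 6 (.p 1)
  (.b 1 7 (.p 1) (.c 192))) (.b 2 9 (.b 2 6 (.p 2) (.b 2 7 (.p 2) (.c 192))) (.q 9))) (.b 1 6 (.b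
  1 9 (.p 1) (.c 517)) (.c 69))) (.b 2 3 (.b 2 6 (.b 2 9 (.p 2) (.c 515)) (.c 67)) (.c 71))) (.b 1
  3 (.b 2 3 (.b 3 6 (.b 3 9 (.p 3) (.c 515)) (.c 67)) (.c 69)) (.c 67)))))

def ta18 : T := (.b 6 9 (.g 112) (.b 7 9 (.g 176) (.b 1 2 (.b 1 3 (.b 2 3 (.b 1 9 (.b 1 6 (.p 1)
  (.b 1 7 (.p 1) (.c 192))) (.b 2 9 (.b 2 6 (.p 2) (.b 2 7 (.p 2) (.c 192))) (.q 9))) (.b 1 6 (.b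
  1 9 (.p 1) (.c 517)) (.c 69))) (.b 2 3 (.b 2 6 (.b 2 9 (.p 2) (.c 515)) (.c 67)) (.c 71))) (.b 1
  3 (.b 2 3 (.b 3 6 (.b 3 9 (.p 3) (.c 515)) (.c 67)) (.c 69)) (.c 67)))))

def ta19 : T := (.b 1 2 (.b 3 8 (.b 3 6 (.g 138) (.b 3 7 (.g 74) (.b 1 9 (.g 74) (.c 194)))) (.b 1
  3 (.b 2 8 (.g 76) (.b 1 8 (.b 1 6 (.p 1) (.c 321)) (.q 8))) (.b 2 8 (.b 2 3 (.b 2 6 (.p 2) (.c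
  323)) (.c 25)) (.c 60)))) (.b 1 3 (.b 2 3 (.b 1 8 (.g 70) (.b 3 8 (.b 3 6 (.p 3) (.c 325)) (.c
  58))) (.b 1 8 (.b 1 6 (.g 134) (.c 69)) (.c 27))) (.b 2 3 (.b 2 8 (.b 2 6 (.g 134) (.c 67)) (.c
  29)) (.b 1 8 (.b 2 6 (.b 3 7 (.g 74) (.c 73)) (.c 67)) (.c 19)))))

def ta20 : T := (.b 6 9 (.b 4 7 (.g 112) (.b 5 7 (.g 112) (.b 7 9 (.b 4 6 (.g 176) (.b 5 6 (.g
  176) ta19)) (.b 1 2 (.b 1 3 (.b 2 7 (.g 76) (.b 3 7 (.g 76) (.q 7))) (.b 2 3 (.b 2 7 (.g 325)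
  (.c 131)) (.c 135))) (.b 1 3 (.b 2 3 (.b 3 7 (.g 329) (.c 131)) (.c 133)) (.c 131)))))) (.b 7 9
  (.b 4 6 (.g 176) (.b 5 6 (.g 176) (.b 1 2 (.b 1 3 (.b 2 6 (.g 140) (.b 3 6 (.g 140) (.q 6))) (.b
  2 3 (.b 2 6 (.g 389) (.c 67)) (.c 71))) (.b 1 3 (.b 2 3 (.b 3 6 (.g 393) (.c 67)) (.c 69)) (.c
  67))))) (.b 1 9 (.b 2 3 (.b 2 9 (.b 1 8 (.g 70) (.b 2 8 (.g 70) (.b 1 3 (.g 70) (.c 265)))) (.q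
  9)) (.c 517)) (.q 9))))

def ta21 : T := (.b 1 9 (.b 1 6 (.g 134) (.b 1 7 (.g 70) (.b 6 9 (.g 70) (.b 7 9 (.g 134) (.b 2 9
  (.g 70) (.b 3 9 (.g 74) (.b 4 9 (.g 86) (.q 9)))))))) (.b 6 9 (.b 1 7 (.g 70) (.b 2 7 (.g 70)
  (.b 3 7 (.g 74) (.b 4 7 (.g 86) (.c 385))))) (.b 7 9 (.b 1 6 (.g 134) (.b 2 6 (.g 134) (.b 3 6
  (.g 138) (.b 4 6 (.g 150) (.q 6))))) (.b 2 9 (.b 1 6 (.g 134) (.b 1 7 (.g 70) (.b 1 3 (.g 70)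
  (.b 2 8 (.g 70) (.c 7))))) (.b 4 9 (.b 3 9 (.g 90) (.q 9)) (.q 9))))))

def ta22 : T := (.b 5 8 (.b 4 9 (.b 5 9 (.g 112) (.b 4 6 (.g 176) (.b 4 7 (.g 112) (.b 5 6 (.g
  176) ta17)))) (.b 5 9 (.b 5 6 (.g 176) (.b 5 7 (.g 112) (.b 4 6 (.g 176) ta18))) ta20)) (.b 1 8
  (.b 2 3 ta21 (.b 1 2 (.b 3 8 (.b 3 9 (.g 74) (.b 6 9 (.g 74) (.b 7 9 (.g 138) (.b 1 9 (.g 74)
  (.c 517))))) (.c 261)) (.c 261))) (.b 2 8 (.b 2 3 (.b 1 3 (.b 6 9 (.g 70) (.b 7 9 (.g 134) (.b 1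
  9 (.g 70) (.b 2 9 (.g 70) (.b 4 9 (.b 3 9 (.g 92) (.q 9)) (.q 9)))))) (.c 265)) (.c 261)) (.q
  8))))

def ta23 : T := (.b 1 9 (.b 1 6 (.g 134) (.b 1 7 (.g 70) (.b 6 9 (.g 70) (.b 7 9 (.g 134) (.b 2 9
  (.g 70) (.b 3 9 (.g 74) (.b 5 9 (.g 102) (.q 9)))))))) (.b 6 9 (.b 1 7 (.g 70) (.b 2 7 (.g 70)
  (.b 3 7 (.g 74) (.b 5 7 (.g 102) (.c 385))))) (.b 7 9 (.b 1 6 (.g 134) (.b 2 6 (.g 134) (.b 3 6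
  (.g 138) (.b 5 6 (.g 166) (.q 6))))) (.b 2 9 (.b 1 6 (.g 134) (.b 1 7 (.g 70) (.b 1 3 (.g 70)
  (.b 2 8 (.g 70) (.c 7))))) (.b 5 9 (.b 3 9 (.g 106) (.q 9)) (.q 9))))))

def ta24 : T := (.b 5 8 (.b 1 8 (.b 2 3 ta23 (.b 1 2 (.b 3 8 (.b 3 9 (.g 74) (.b 6 9 (.g 74) (.b 7
  9 (.g 138) (.b 1 9 (.g 74) (.c 517))))) (.c 261)) (.c 261))) (.b 2 8 (.b 2 3 (.b 1 3 (.b 6 9 (.g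
  70) (.b 7 9 (.g 134) (.b 1 9 (.g 70) (.b 2 9 (.g 70) (.b 5 9 (.b 3 9 (.g 108) (.q 9)) (.q
  9)))))) (.c 265)) (.c 261)) (.q 8))) (.b 1 8 (.b 2 3 (.b 2 8 (.b 1 3 (.g 70) (.c 259)) (.q 8))
  (.c 261)) (.q 8)))

def ta25 : T := (.b 7 8 (.b 7 9 ta7 (.b 6 9 (.b 8 9 (.b 1 2 (.g 330) (.b 1 3 (.g 326) (.b 2 3 (.g
  326) (.b 4 5 (.g 337) (.b 1 6 (.g 332) (.b 1 8 (.g 332) (.b 1 7 (.g 652) (.c 3)))))))) (.b 1 2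
  (.b 3 8 (.g 650) (.b 3 9 (.g 330) (.b 1 3 (.g 332) (.b 2 3 (.g 330) (.b 3 6 (.b 1 9 (.g 138) (.b
  2 9 (.g 140) (.c 521))) (.c 9)))))) ta8)) ta11)) (.b 8 9 (.b 6 9 ta12 (.b 7 9 (.b 1 2 (.b 3 6
  (.g 394) (.b 3 8 (.g 586) (.b 1 3 (.g 396) (.b 2 3 (.g 394) (.b 3 7 (.b 1 6 (.g 332) (.b 2 6 (.g
  330) (.c 73))) (.c 9)))))) ta13) ta16)) (.b 4 8 ta22 ta24)))

def ta26 : T := (.b 6 8 (.b 6 9 (.b 1 7 (.b 1 8 (.g 70) (.b 1 9 (.g 70) (.b 2 3 (.g 70) (.b 2 8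
  (.g 70) (.b 3 9 (.g 74) (.b 1 2 (.g 74) (.b 1 3 (.g 70) (.b 2 6 (.g 74) (.c 7))))))))) ta0) (.b
  7 9 (.b 8 9 (.b 1 2 (.g 394) (.b 1 3 (.g 390) (.b 2 3 (.g 390) (.b 4 5 (.g 401) (.b 1 7 (.g 396)
  (.b 1 8 (.g 396) (.b 1 6 (.g 588) (.c 3)))))))) ta1) ta6)) ta25)

def ta27 : T := (.b 1 9 (.b 1 6 (.g 262) (.b 1 7 (.g 262) (.b 2 3 (.g 262) (.b 2 6 (.g 262) (.b 1
  3 (.g 262) (.b 3 8 (.g 262) (.c 73))))))) (.b 1 6 (.b 1 7 (.g 262) (.b 2 3 (.g 262) (.b 2 7 (.g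
  262) (.b 3 9 (.g 266) (.b 1 3 (.g 262) (.c 137)))))) (.b 1 7 (.b 2 3 (.g 262) (.b 2 6 (.g 262)
  (.b 3 9 (.g 266) (.b 1 3 (.g 262) (.c 73))))) (.b 2 3 (.b 2 9 (.g 262) (.b 1 2 (.g 266) (.b 1 3
  (.g 262) (.c 3)))) (.b 1 8 (.b 1 2 (.g 268) (.c 11)) (.c 7))))))

def ta28 : T := (.b 1 3 (.b 2 7 (.g 774) (.b 2 9 (.g 198) (.b 2 3 (.g 198) (.b 2 6 (.b 1 9 (.g
  198) (.b 3 9 (.g 202) (.c 517))) (.c 5))))) (.b 2 3 (.b 1 7 (.g 774) (.b 1 9 (.g 198) (.b 1 6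
  (.b 2 9 (.g 198) (.b 3 9 (.g 202) (.c 515))) (.c 3)))) (.b 4 7 (.b 5 9 (.g 225) (.b 4 9 (.b 4 5
  (.g 81) (.b 5 8 (.g 112) (.b 5 6 (.g 81) (.c 35)))) (.c 515))) (.b 5 7 (.b 4 9 (.g 209) (.b 5 9
  (.b 4 5 (.g 97) (.b 4 6 (.g 97) (.c 19))) (.c 515))) (.c 131)))))

def ta29 : T := (.b 1 3 (.b 2 6 (.g 774) (.b 2 9 (.g 198) (.b 2 3 (.g 198) (.b 2 7 (.b 1 9 (.g
  198) (.b 3 9 (.g 202) (.c 517))) (.c 5))))) (.b 2 3 (.b 1 6 (.g 774) (.b 1 9 (.g 198) (.b 1 7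
  (.b 2 9 (.g 198) (.b 3 9 (.g 202) (.c 515))) (.c 3)))) (.b 4 6 (.b 5 9 (.g 225) (.b 4 9 (.b 4 5
  (.g 145) (.b 5 8 (.g 176) (.b 5 7 (.g 145) (.c 35)))) (.c 515))) (.b 5 6 (.b 4 9 (.g 209) (.b 5
  9 (.b 4 5 (.g 161) (.b 4 7 (.g 161) (.c 19))) (.c 515))) (.c 67)))))

def ta30 : T := (.b 3 9 (.b 3 6 (.g 266) (.b 3 7 (.g 266) (.b 1 6 (.g 204) (.b 2 6 (.g 202) (.b 1
  7 (.g 204) (.b 2 7 (.g 202) (.c 193))))))) (.b 1 9 (.b 3 6 (.g 266) (.b 3 7 (.g 266) (.b 2 3 (.g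
  202) (.b 3 8 (.b 1 6 (.g 138) (.b 2 6 (.g 74) (.b 4 6 (.b 4 9 (.g 154) (.c 517)) (.q 6)))) (.c
  9))))) (.b 4 9 (.b 5 9 (.b 4 6 (.g 304) (.b 5 6 (.g 304) (.b 3 6 (.b 2 9 (.g 268) (.q 9)) (.c
  577)))) (.q 9)) (.q 9))))

def ta31 : T := (.b 7 9 (.b 1 2 (.b 3 6 (.g 778) (.b 3 9 (.g 202) (.b 1 3 (.g 204) (.b 2 3 (.g
  202) (.b 3 7 (.b 1 9 (.g 198) (.b 2 9 (.g 198) (.c 521))) (.c 9)))))) ta29) (.b 1 2 ta30 (.b 4 9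
  (.b 5 9 (.b 4 6 (.g 304) (.b 5 6 (.g 304) (.b 3 6 (.b 1 3 (.b 2 9 (.g 198) (.b 3 9 (.g 268) (.c
  515))) (.c 67)) (.c 67)))) (.b 3 9 (.b 1 3 (.b 2 9 (.g 204) (.c 515)) (.c 515)) (.c 515))) (.b 5
  9 (.b 3 9 (.b 1 3 (.b 2 9 (.g 204) (.c 515)) (.c 515)) (.c 515)) (.c 515)))))

def ta32 : T := (.b 1 2 (.b 3 7 (.g 778) (.b 3 8 (.g 202) (.b 1 3 (.g 204) (.b 2 3 (.g 202) (.b 3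
  9 (.b 1 7 (.g 74) (.b 2 7 (.g 76) (.c 137))) (.c 9)))))) (.b 1 3 (.b 2 7 (.g 774) (.b 2 8 (.g
  198) (.b 2 3 (.g 198) (.b 2 9 (.b 1 7 (.g 70) (.b 3 7 (.g 76) (.c 133))) (.c 5))))) (.b 2 7 (.b
  3 8 (.g 202) (.b 2 3 (.g 202) (.b 3 9 (.g 774) (.b 3 6 (.b 1 8 (.g 70) (.b 2 8 (.g 70) (.c
  265))) (.c 9))))) (.b 4 7 (.b 4 5 (.g 225) (.b 3 7 (.b 1 9 (.g 780) (.c 131)) (.c 131))) (.c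
  131)))))

def ta33 : T := (.b 1 3 (.b 2 6 (.g 390) (.b 2 7 (.g 582) (.b 2 3 (.g 390) (.b 2 8 (.b 1 6 (.g
  204) (.b 3 6 (.g 198) (.c 69))) (.c 5))))) (.b 2 3 (.b 1 6 (.g 390) (.b 1 7 (.g 582) (.b 1 8 (.b
  2 6 (.g 202) (.b 3 6 (.g 198) (.c 67))) (.c 3)))) (.b 4 6 (.b 5 7 (.g 401) (.b 4 7 (.b 4 5 (.g
  273) (.b 5 8 (.g 225) (.b 5 9 (.g 225) (.c 35)))) (.c 131))) (.b 5 6 (.b 4 7 (.g 417) (.b 5 7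
  (.b 4 5 (.g 289) (.b 4 8 (.g 209) (.c 19))) (.c 131))) (.c 67)))))

def ta34 : T := (.b 1 3 (.b 2 8 (.g 204) (.b 2 6 (.g 396) (.b 3 8 (.g 204) (.b 4 6 (.b 5 8 (.b 4 8
  (.b 5 6 (.g 176) (.c 320)) (.c 320)) (.c 320)) (.c 320))))) (.b 1 8 (.b 2 6 (.g 202) (.b 2 3 (.g
  202) (.b 4 6 (.b 5 6 (.b 4 8 (.b 5 8 (.g 176) (.c 263)) (.c 263)) (.c 67)) (.c 67)))) (.b 2 3
  (.b 1 6 (.g 394) (.b 3 8 (.g 202) (.b 4 6 (.b 5 8 (.b 4 8 (.b 5 6 (.g 176) (.c 67)) (.c 259))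
  (.c 259)) (.c 67)))) (.c 265))))

def ta35 : T := (.b 2 3 (.b 2 6 (.b 3 8 (.g 202) (.b 1 8 (.g 202) (.b 4 8 (.b 5 8 (.b 4 6 (.b 5 6
  (.g 176) (.c 67)) (.c 67)) (.c 259)) (.c 259)))) (.b 3 6 (.b 1 8 (.g 198) (.c 67)) (.c 67))) (.b
  4 6 (.b 5 8 (.b 4 5 (.g 225) (.b 4 7 (.g 225) (.b 5 7 (.g 401) (.c 131)))) (.b 4 8 (.b 1 6 (.b 1
  8 (.b 4 7 (.g 531) (.b 1 7 (.g 531) (.c 133))) (.c 261)) (.c 259)) (.c 259))) (.b 5 6 (.b 1 8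
  (.b 2 6 (.b 2 8 (.b 1 6 (.g 134) (.c 69)) (.c 69)) (.c 67)) (.c 67)) (.c 67))))

def ta36 : T := (.b 1 2 (.b 3 6 (.b 3 7 (.g 778) (.b 3 9 (.g 394) (.b 1 7 (.g 396) (.b 1 9 (.g
  394) (.b 2 7 (.g 394) (.c 640)))))) ta34) (.b 1 3 (.b 2 3 (.b 1 6 (.g 390) (.b 2 8 (.g 198) (.b
  1 8 (.g 198) (.b 2 6 (.g 390) (.b 4 6 (.b 5 8 (.b 4 8 (.b 5 6 (.g 176) (.c 67)) (.c 259)) (.c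
  259)) (.c 67)))))) (.b 1 6 (.b 3 8 (.g 204) (.b 2 8 (.g 204) (.b 4 8 (.b 5 8 (.b 4 6 (.b 5 6 (.g
  176) (.c 69)) (.c 69)) (.c 259)) (.c 259)))) (.b 3 6 (.b 2 8 (.g 198) (.c 69)) (.c 69)))) ta35))

def ta37 : T := (.b 6 9 (.g 112) (.b 8 9 (.g 304) (.b 1 2 (.b 1 3 (.b 2 3 (.b 1 9 (.b 1 6 (.p 1)
  (.b 1 8 (.p 1) (.c 320))) (.b 2 9 (.b 2 6 (.p 2) (.b 2 8 (.p 2) (.c 320))) (.q 9))) (.b 1 6 (.b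
  1 9 (.p 1) (.c 517)) (.c 69))) (.b 2 3 (.b 2 6 (.b 2 9 (.p 2) (.c 515)) (.c 67)) (.c 71))) (.b 1
  3 (.b 2 3 (.b 3 6 (.b 3 9 (.p 3) (.c 515)) (.c 67)) (.c 69)) (.c 67)))))

def ta38 : T := (.b 6 9 (.g 112) (.b 8 9 (.g 304) (.b 1 2 (.b 1 3 (.b 2 3 (.b 1 9 (.b 1 6 (.p 1)
  (.b 1 8 (.p 1) (.c 320))) (.b 2 9 (.b 2 6 (.p 2) (.b 2 8 (.p 2) (.c 320))) (.q 9))) (.b 1 6 (.b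
  1 9 (.p 1) (.c 517)) (.c 69))) (.b 2 3 (.b 2 6 (.b 2 9 (.p 2) (.c 515)) (.c 67)) (.c 71))) (.b 1
  3 (.b 2 3 (.b 3 6 (.b 3 9 (.p 3) (.c 515)) (.c 67)) (.c 69)) (.c 67)))))

def ta39 : T := (.b 1 2 (.b 3 7 (.b 3 6 (.g 266) (.b 3 8 (.g 74) (.b 1 9 (.g 74) (.c 322)))) (.b 1
  3 (.b 2 7 (.g 76) (.b 1 7 (.b 1 6 (.p 1) (.c 193)) (.q 7))) (.b 2 7 (.b 2 3 (.b 2 6 (.p 2) (.c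
  195)) (.c 25)) (.c 60)))) (.b 1 3 (.b 2 3 (.b 1 7 (.g 70) (.b 3 7 (.b 3 6 (.p 3) (.c 197)) (.c
  58))) (.b 1 7 (.b 1 6 (.g 262) (.c 69)) (.c 27))) (.b 2 3 (.b 2 7 (.b 2 6 (.g 262) (.c 67)) (.c
  29)) (.b 1 7 (.b 2 6 (.b 3 8 (.g 74) (.c 73)) (.c 67)) (.c 19)))))

def ta40 : T := (.b 6 9 (.b 4 8 (.g 112) (.b 5 8 (.g 112) (.b 8 9 (.b 4 6 (.g 304) (.b 5 6 (.g
  304) ta39)) (.b 1 2 (.b 1 3 (.b 2 8 (.g 76) (.b 3 8 (.g 76) (.q 8))) (.b 2 3 (.b 2 8 (.g 197)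
  (.c 259)) (.c 263))) (.b 1 3 (.b 2 3 (.b 3 8 (.g 201) (.c 259)) (.c 261)) (.c 259)))))) (.b 8 9
  (.b 4 6 (.g 304) (.b 5 6 (.g 304) (.b 1 2 (.b 1 3 (.b 2 6 (.g 268) (.b 3 6 (.g 268) (.q 6))) (.b
  2 3 (.b 2 6 (.g 389) (.c 67)) (.c 71))) (.b 1 3 (.b 2 3 (.b 3 6 (.g 393) (.c 67)) (.c 69)) (.c
  67))))) (.b 1 9 (.b 2 3 (.b 2 9 (.b 1 7 (.g 70) (.b 2 7 (.g 70) (.b 1 3 (.g 70) (.c 137)))) (.q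
  9)) (.c 517)) (.q 9))))

def ta41 : T := (.b 1 9 (.b 1 6 (.g 262) (.b 1 8 (.g 70) (.b 6 9 (.g 70) (.b 8 9 (.g 262) (.b 2 9
  (.g 70) (.b 3 9 (.g 74) (.b 4 9 (.g 86) (.q 9)))))))) (.b 6 9 (.b 1 8 (.g 70) (.b 2 8 (.g 70)
  (.b 3 8 (.g 74) (.b 4 8 (.g 86) (.c 385))))) (.b 8 9 (.b 1 6 (.g 262) (.b 2 6 (.g 262) (.b 3 6
  (.g 266) (.b 4 6 (.g 278) (.q 6))))) (.b 2 9 (.b 1 6 (.g 262) (.b 1 8 (.g 70) (.b 1 3 (.g 70)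
  (.b 2 7 (.g 70) (.c 7))))) (.b 4 9 (.b 3 9 (.g 90) (.q 9)) (.q 9))))))

def ta42 : T := (.b 5 7 (.b 4 9 (.b 5 9 (.g 112) (.b 4 6 (.g 304) (.b 4 8 (.g 112) (.b 5 6 (.g
  304) ta37)))) (.b 5 9 (.b 5 6 (.g 304) (.b 5 8 (.g 112) (.b 4 6 (.g 304) ta38))) ta40)) (.b 1 7
  (.b 2 3 ta41 (.b 1 2 (.b 3 7 (.b 3 9 (.g 74) (.b 6 9 (.g 74) (.b 8 9 (.g 266) (.b 1 9 (.g 74)
  (.c 517))))) (.c 133)) (.c 133))) (.b 2 7 (.b 2 3 (.b 1 3 (.b 6 9 (.g 70) (.b 8 9 (.g 262) (.b 1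
  9 (.g 70) (.b 2 9 (.g 70) (.b 4 9 (.b 3 9 (.g 92) (.q 9)) (.q 9)))))) (.c 137)) (.c 133)) (.q
  7))))

def ta43 : T := (.b 1 9 (.b 1 6 (.g 262) (.b 1 8 (.g 70) (.b 6 9 (.g 70) (.b 8 9 (.g 262) (.b 2 9
  (.g 70) (.b 3 9 (.g 74) (.b 5 9 (.g 102) (.q 9)))))))) (.b 6 9 (.b 1 8 (.g 70) (.b 2 8 (.g 70)
  (.b 3 8 (.g 74) (.b 5 8 (.g 102) (.c 385))))) (.b 8 9 (.b 1 6 (.g 262) (.b 2 6 (.g 262) (.b 3 6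
  (.g 266) (.b 5 6 (.g 294) (.q 6))))) (.b 2 9 (.b 1 6 (.g 262) (.b 1 8 (.g 70) (.b 1 3 (.g 70)
  (.b 2 7 (.g 70) (.c 7))))) (.b 5 9 (.b 3 9 (.g 106) (.q 9)) (.q 9))))))

def ta44 : T := (.b 5 7 (.b 1 7 (.b 2 3 ta43 (.b 1 2 (.b 3 7 (.b 3 9 (.g 74) (.b 6 9 (.g 74) (.b 8
  9 (.g 266) (.b 1 9 (.g 74) (.c 517))))) (.c 133)) (.c 133))) (.b 2 7 (.b 2 3 (.b 1 3 (.b 6 9 (.g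
  70) (.b 8 9 (.g 262) (.b 1 9 (.g 70) (.b 2 9 (.g 70) (.b 5 9 (.b 3 9 (.g 108) (.q 9)) (.q
  9)))))) (.c 137)) (.c 133)) (.q 7))) (.b 1 7 (.b 2 3 (.b 2 7 (.b 1 3 (.g 70) (.c 131)) (.q 7))
  (.c 133)) (.q 7)))

def ta45 : T := (.b 7 8 (.b 8 9 ta27 (.b 6 9 (.b 7 9 (.b 1 2 (.g 202) (.b 1 3 (.g 198) (.b 2 3 (.g
  198) (.b 4 5 (.g 209) (.b 1 6 (.g 204) (.b 1 7 (.g 204) (.b 1 8 (.g 780) (.c 3)))))))) (.b 1 2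
  (.b 3 7 (.g 778) (.b 3 9 (.g 202) (.b 1 3 (.g 204) (.b 2 3 (.g 202) (.b 3 6 (.b 1 9 (.g 198) (.b
  2 9 (.g 198) (.c 521))) (.c 9)))))) ta28)) ta31)) (.b 7 9 (.b 6 9 ta32 (.b 8 9 (.b 1 2 (.b 3 6
  (.g 394) (.b 3 7 (.g 586) (.b 1 3 (.g 396) (.b 2 3 (.g 394) (.b 3 8 (.b 1 6 (.g 204) (.b 2 6 (.g
  202) (.c 73))) (.c 9)))))) ta33) ta36)) (.b 4 7 ta42 ta44)))

def ta46 : T := (.b 2 6 (.b 2 7 (.g 518) (.b 2 8 (.g 518) (.b 1 3 (.g 518) (.b 2 3 (.g 518) (.c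
  7))))) (.b 4 6 (.b 4 7 (.g 529) (.b 4 8 (.g 529) (.b 4 5 (.g 529) (.b 1 3 (.b 2 7 (.g 518) (.b 2
  8 (.g 518) (.b 2 3 (.g 518) (.b 3 9 (.g 518) (.c 27))))) (.b 2 3 (.b 3 9 (.g 518) (.c 29)) (.c
  23)))))) (.b 5 6 (.b 5 7 (.g 545) (.b 5 8 (.g 545) (.b 1 3 (.b 2 7 (.g 518) (.b 3 6 (.g 524) (.q
  6))) (.c 73)))) (.q 6))))

def ta47 : T := (.b 1 3 (.b 2 6 (.g 774) (.b 2 8 (.g 198) (.b 2 3 (.g 198) (.b 2 7 (.b 1 8 (.g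
  198) (.b 3 8 (.g 202) (.c 261))) (.c 5))))) (.b 2 3 (.b 1 6 (.g 774) (.b 1 8 (.g 198) (.b 1 7
  (.b 2 8 (.g 198) (.b 3 8 (.g 202) (.c 259))) (.c 3)))) (.b 4 6 (.b 5 8 (.g 225) (.b 4 8 (.b 4 5
  (.g 145) (.b 5 9 (.g 176) (.b 5 7 (.g 145) (.c 35)))) (.c 259))) (.b 5 6 (.b 4 8 (.g 209) (.b 5
  8 (.b 4 5 (.g 161) (.b 4 7 (.g 161) (.c 19))) (.c 259))) (.c 67)))))

def ta48 : T := (.b 3 8 (.b 3 6 (.g 522) (.b 3 7 (.g 522) (.b 1 6 (.g 204) (.b 2 6 (.g 202) (.b 1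
  7 (.g 204) (.b 2 7 (.g 202) (.c 193))))))) (.b 1 8 (.b 3 6 (.g 522) (.b 3 7 (.g 522) (.b 2 3 (.g
  202) (.b 3 9 (.b 1 6 (.g 138) (.b 2 6 (.g 74) (.b 4 6 (.b 4 8 (.g 154) (.c 261)) (.q 6)))) (.c
  9))))) (.b 4 8 (.b 5 8 (.b 4 6 (.g 560) (.b 5 6 (.g 560) (.b 3 6 (.b 2 8 (.g 524) (.q 8)) (.c
  321)))) (.q 8)) (.q 8))))

def ta49 : T := (.b 7 8 (.b 1 2 (.b 3 6 (.g 778) (.b 3 8 (.g 202) (.b 1 3 (.g 204) (.b 2 3 (.g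
  202) (.b 3 7 (.b 1 8 (.g 198) (.b 2 8 (.g 198) (.c 265))) (.c 9)))))) ta47) (.b 1 2 ta48 (.b 4 8
  (.b 5 8 (.b 4 6 (.g 560) (.b 5 6 (.g 560) (.b 3 6 (.b 1 3 (.b 2 8 (.g 198) (.b 3 8 (.g 524) (.c
  259))) (.c 67)) (.c 67)))) (.b 3 8 (.b 1 3 (.b 2 8 (.g 204) (.c 259)) (.c 259)) (.c 259))) (.b 5
  8 (.b 3 8 (.b 1 3 (.b 2 8 (.g 204) (.c 259)) (.c 259)) (.c 259)) (.c 259)))))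

def ta50 : T := (.b 1 3 (.b 2 6 (.g 646) (.b 2 7 (.g 326) (.b 2 3 (.g 326) (.b 2 8 (.b 1 7 (.g
  204) (.b 3 7 (.g 198) (.c 133))) (.c 5))))) (.b 2 3 (.b 1 6 (.g 646) (.b 1 7 (.g 326) (.b 1 8
  (.b 2 7 (.g 202) (.b 3 7 (.g 198) (.c 131))) (.c 3)))) (.b 4 6 (.b 5 7 (.g 353) (.b 4 7 (.b 4 5
  (.g 273) (.b 5 9 (.g 225) (.b 5 8 (.g 225) (.c 35)))) (.c 131))) (.b 5 6 (.b 4 7 (.g 337) (.b 5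
  7 (.b 4 5 (.g 289) (.b 4 8 (.g 209) (.c 19))) (.c 131))) (.c 67)))))

def ta51 : T := (.b 1 3 (.b 2 9 (.g 204) (.b 2 6 (.g 652) (.b 3 9 (.g 204) (.b 4 6 (.b 5 9 (.b 4 9
  (.b 5 6 (.g 176) (.c 576)) (.c 576)) (.c 576)) (.c 576))))) (.b 1 9 (.b 2 6 (.g 202) (.b 2 3 (.g
  202) (.b 4 6 (.b 5 6 (.b 4 9 (.b 5 9 (.g 176) (.c 519)) (.c 519)) (.c 67)) (.c 67)))) (.b 2 3
  (.b 1 6 (.g 650) (.b 3 9 (.g 202) (.b 4 6 (.b 5 9 (.b 4 9 (.b 5 6 (.g 176) (.c 67)) (.c 515))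
  (.c 515)) (.c 67)))) (.c 521))))

def ta52 : T := (.b 2 3 (.b 2 6 (.b 3 9 (.g 202) (.b 1 9 (.g 202) (.b 4 9 (.b 5 9 (.b 4 6 (.b 5 6
  (.g 176) (.c 67)) (.c 67)) (.c 515)) (.c 515)))) (.b 3 6 (.b 1 9 (.g 198) (.c 67)) (.c 67))) (.b
  4 6 (.b 5 9 (.b 4 5 (.g 225) (.b 4 7 (.g 225) (.b 5 7 (.g 353) (.c 131)))) (.b 4 9 (.b 1 6 (.b 1
  9 (.b 4 7 (.g 275) (.b 1 7 (.g 275) (.c 133))) (.c 517)) (.c 515)) (.c 515))) (.b 5 6 (.b 1 9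
  (.b 2 6 (.b 2 9 (.b 1 6 (.g 134) (.c 69)) (.c 69)) (.c 67)) (.c 67)) (.c 67))))

def ta53 : T := (.b 1 2 (.b 3 6 (.b 3 7 (.g 778) (.b 3 8 (.g 650) (.b 1 7 (.g 652) (.b 1 8 (.g
  650) (.b 2 7 (.g 650) (.c 384)))))) ta51) (.b 1 3 (.b 2 3 (.b 1 6 (.g 646) (.b 2 9 (.g 198) (.b
  1 9 (.g 198) (.b 2 6 (.g 646) (.b 4 6 (.b 5 9 (.b 4 9 (.b 5 6 (.g 176) (.c 67)) (.c 515)) (.c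
  515)) (.c 67)))))) (.b 1 6 (.b 3 9 (.g 204) (.b 2 9 (.g 204) (.b 4 9 (.b 5 9 (.b 4 6 (.b 5 6 (.g
  176) (.c 69)) (.c 69)) (.c 515)) (.c 515)))) (.b 3 6 (.b 2 9 (.g 198) (.c 69)) (.c 69)))) ta52))

def ta54 : T := (.b 3 8 (.b 3 9 (.g 74) (.b 3 6 (.g 522) (.b 1 7 (.g 74) (.b 2 7 (.g 76) (.b 1 3
  (.g 76) (.c 137)))))) (.b 8 9 (.b 3 6 (.g 522) (.b 1 6 (.g 332) (.b 2 6 (.g 330) (.b 1 8 (.g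
  332) (.b 2 8 (.g 330) (.c 321)))))) (.b 1 8 (.b 1 7 (.g 74) (.b 2 3 (.g 74) (.b 2 7 (.g 332) (.c
  137)))) (.b 2 8 (.b 2 7 (.g 76) (.b 1 3 (.g 76) (.b 4 8 (.b 5 8 (.b 4 7 (.g 92) (.c 131)) (.q
  8)) (.q 8)))) (.q 8)))))

def ta55 : T := (.b 5 8 (.b 5 6 (.g 560) (.b 5 9 (.g 112) (.b 4 6 (.g 560) (.b 1 3 (.b 2 3 (.b 1 8
  (.b 1 6 (.p 1) (.b 1 9 (.p 1) (.c 576))) (.b 2 8 (.b 2 6 (.p 2) (.b 1 6 (.g 518) (.q 6))) (.q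
  8))) (.b 1 6 (.b 1 8 (.p 1) (.c 261)) (.c 69))) (.b 2 3 (.b 2 6 (.b 2 8 (.p 2) (.c 259)) (.c
  67)) (.c 71)))))) (.b 3 8 (.b 1 8 (.b 1 7 (.g 74) (.b 2 3 (.g 74) (.c 133))) (.q 8)) (.q 8)))

def ta56 : T := (.b 8 9 (.b 4 6 (.g 560) (.b 5 6 (.g 560) (.b 3 6 (.b 3 8 (.g 522) (.b 1 7 (.g
  522) (.b 2 7 (.g 524) (.q 7)))) (.b 1 6 (.b 1 7 (.g 522) (.c 193)) (.q 6))))) (.b 4 8 (.b 5 8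
  (.g 112) (.b 4 6 (.g 560) (.b 4 9 (.g 112) (.b 5 6 (.g 560) (.b 1 3 (.b 2 3 (.b 1 8 (.b 1 6 (.p
  1) (.b 1 9 (.p 1) (.c 576))) (.b 2 8 (.b 2 6 (.p 2) (.b 1 6 (.g 518) (.q 6))) (.q 8))) (.b 1 6
  (.b 1 8 (.p 1) (.c 261)) (.c 69))) (.b 2 3 (.b 2 6 (.b 2 8 (.p 2) (.c 259)) (.c 67)) (.c
  71))))))) ta55))

def ta57 : T := (.b 4 8 (.b 5 8 (.g 112) (.b 8 9 (.g 560) (.b 4 6 (.g 560) (.b 5 6 (.g 560) (.b 1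
  3 (.b 2 3 (.b 3 8 (.b 3 6 (.p 3) (.c 67)) (.c 259)) (.c 69)) (.c 67)))))) (.b 5 8 (.b 8 9 (.g
  560) (.b 5 6 (.g 560) (.b 4 6 (.g 560) (.b 1 3 (.b 2 3 (.b 3 8 (.b 3 6 (.p 3) (.c 67)) (.c 259))
  (.c 69)) (.c 67))))) (.b 8 9 (.b 3 8 (.b 1 3 (.b 2 7 (.g 326) (.b 3 7 (.g 524) (.c 131))) (.c
  259)) (.c 259)) (.c 259))))

def ta58 : T := (.b 1 2 (.b 3 7 ta54 (.b 4 7 (.b 5 7 ta56 (.b 1 7 (.b 2 3 (.b 8 9 (.g 330) (.b 3 8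
  (.g 74) (.b 1 8 (.g 74) (.b 4 8 (.b 2 8 (.g 86) (.q 8)) (.q 8))))) (.c 133)) (.q 7))) (.b 5 7
  (.b 1 7 (.b 2 3 (.b 8 9 (.g 330) (.b 3 8 (.g 74) (.b 1 8 (.g 74) (.b 5 8 (.b 2 8 (.g 102) (.q
  8)) (.q 8))))) (.c 133)) (.q 7)) (.q 7)))) (.b 4 7 (.b 5 7 ta57 (.b 3 7 (.b 1 3 (.b 2 7 (.b 2 8
  (.g 76) (.b 8 9 (.g 332) (.b 3 8 (.g 76) (.c 259)))) (.c 131)) (.c 131)) (.c 131))) (.b 5 7 (.b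
  3 7 (.b 1 3 (.b 2 7 (.b 2 8 (.g 76) (.b 8 9 (.g 332) (.b 3 8 (.g 76) (.c 259)))) (.c 131)) (.c
  131)) (.c 131)) (.c 131))))

def ta59 : T := (.b 5 9 (.g 48) (.b 1 2 (.b 3 7 (.b 3 8 (.b 3 6 (.g 26) (.b 3 9 (.g 26) (.b 1 9
  (.g 26) (.q 9)))) (.b 7 8 (.b 1 8 (.b 1 6 (.g 26) (.b 1 9 (.g 26) (.b 3 9 (.g 26) (.q 9)))) (.q
  8)) (.q 8))) (.b 1 3 (.b 2 3 (.b 1 8 (.b 1 9 (.p 1) (.c 521)) (.c 265)) (.c 265)) (.c 265))) (.b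
  1 3 (.b 2 3 (.b 3 7 (.b 3 8 (.p 3) (.c 259)) (.c 267)) (.c 261)) (.c 259))))

def ta60 : T := (.b 7 8 (.g 304) (.b 7 9 (.g 560) (.b 1 2 (.b 1 3 (.b 2 3 (.b 1 7 (.b 1 8 (.p 1)
  (.b 1 9 (.p 1) (.c 768))) (.b 2 7 (.b 2 8 (.p 2) (.b 2 9 (.p 2) (.c 768))) (.q 7))) (.b 1 8 (.b
  1 7 (.p 1) (.c 133)) (.c 261))) (.b 2 3 (.b 2 8 (.b 2 7 (.p 2) (.c 131)) (.c 259)) (.c 135)))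
  (.b 1 3 (.b 2 3 (.b 3 8 (.b 3 7 (.p 3) (.c 131)) (.c 259)) (.c 133)) (.c 131)))))

def ta61 : T := (.b 7 8 (.b 4 9 (.g 304) (.b 5 9 (.g 304) (.b 1 2 (.b 1 3 (.b 2 3 (.b 7 9 (.b 1 8
  (.g 134) (.b 2 8 (.g 134) (.q 8))) (.b 1 9 (.b 2 9 (.g 134) (.q 9)) (.q 9))) (.b 1 7 (.b 1 9 (.p
  1) (.c 517)) (.c 263))) (.b 2 3 (.b 2 7 (.b 2 9 (.p 2) (.c 515)) (.c 263)) (.c 263))) (.b 1 3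
  (.b 2 3 (.b 3 7 (.b 3 9 (.p 3) (.c 515)) (.c 267)) (.c 261)) (.c 259))))) (.b 1 2 (.b 3 8 (.b 1
  8 (.b 2 3 (.b 1 7 (.g 10) (.b 3 7 (.g 10) (.b 7 9 (.g 138) (.q 7)))) (.c 261)) (.q 8)) (.q 8))
  (.c 259)))

def ta62 : T := (.b 4 8 (.b 5 8 (.g 48) (.b 4 9 (.p 4) (.b 5 9 (.g 48) (.b 7 9 (.g 560) (.b 8 9
  (.g 560) (.b 1 2 (.b 3 9 (.b 1 9 (.g 26) (.q 9)) (.q 9)) (.c 515))))))) (.b 8 9 (.b 4 9 (.g 304)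
  (.b 5 8 (.g 560) ta60)) (.b 5 8 (.b 4 9 (.g 48) (.b 5 9 (.g 48) (.b 7 9 (.g 560) (.b 1 2 (.b 1 3
  (.b 1 9 (.b 1 7 (.p 1) (.b 2 3 (.b 7 8 (.g 162) (.b 2 9 (.b 2 7 (.p 2) (.q 7)) (.q 9))) (.c
  517))) (.q 9)) (.c 515)) (.c 515))))) ta61)))

def ta63 : T := (.b 7 8 (.g 304) (.b 7 9 (.g 560) (.b 1 2 (.b 1 3 (.b 2 3 (.b 1 7 (.b 1 8 (.p 1)
  (.b 1 9 (.p 1) (.c 768))) (.b 2 7 (.b 2 8 (.p 2) (.b 2 9 (.p 2) (.c 768))) (.q 7))) (.b 1 8 (.b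
  1 7 (.p 1) (.c 133)) (.c 261))) (.b 2 3 (.b 2 8 (.b 2 7 (.p 2) (.c 131)) (.c 259)) (.c 135)))
  (.b 1 3 (.b 2 3 (.b 3 8 (.b 3 7 (.p 3) (.c 131)) (.c 259)) (.c 133)) (.c 131)))))

def ta64 : T := (.b 7 8 (.b 5 9 (.g 304) (.b 4 9 (.g 304) (.b 1 2 (.b 1 3 (.b 2 3 (.b 7 9 (.b 1 8
  (.g 134) (.b 2 8 (.g 134) (.q 8))) (.b 1 9 (.b 2 9 (.g 134) (.q 9)) (.q 9))) (.b 1 7 (.b 1 9 (.p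
  1) (.c 517)) (.c 263))) (.b 2 3 (.b 2 7 (.b 2 9 (.p 2) (.c 515)) (.c 263)) (.c 263))) (.b 1 3
  (.b 2 3 (.b 3 7 (.b 3 9 (.p 3) (.c 515)) (.c 267)) (.c 261)) (.c 259))))) (.b 1 2 (.b 3 8 (.b 1
  8 (.b 2 3 (.b 1 7 (.g 10) (.b 3 7 (.g 10) (.b 7 9 (.g 138) (.q 7)))) (.c 261)) (.q 8)) (.q 8))
  (.c 259)))

def ta65 : T := (.b 5 8 (.b 4 8 (.g 48) (.b 5 9 (.p 5) (.b 4 9 (.g 48) (.b 7 9 (.g 560) (.b 8 9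
  (.g 560) (.b 1 2 (.b 3 9 (.b 1 9 (.g 42) (.q 9)) (.q 9)) (.c 515))))))) (.b 8 9 (.b 5 9 (.g 304)
  (.b 4 8 (.g 560) ta63)) (.b 4 8 (.b 5 9 (.g 48) (.b 4 9 (.g 48) (.b 7 9 (.g 560) (.b 1 2 (.b 1 3
  (.b 1 9 (.b 1 7 (.p 1) (.b 2 3 (.b 7 8 (.g 146) (.b 2 9 (.b 2 7 (.p 2) (.q 7)) (.q 9))) (.c
  517))) (.q 9)) (.c 515)) (.c 515))))) ta64)))

def ta66 : T := (.b 1 2 (.b 1 3 (.b 2 6 (.g 140) (.b 3 6 (.g 140) (.b 1 6 (.b 1 8 (.p 1) (.c 321))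
  (.q 6)))) (.b 2 3 (.b 2 8 (.g 197) (.b 1 8 (.g 138) (.c 265))) (.b 1 8 (.b 1 9 (.g 138) (.c
  135)) (.c 135)))) (.b 1 3 (.b 2 3 (.b 3 8 (.g 201) (.b 1 8 (.g 134) (.c 261))) (.b 1 8 (.b 1 9
  (.g 134) (.c 139)) (.c 139))) (.b 2 3 (.b 2 8 (.b 2 9 (.g 134) (.c 141)) (.c 141)) (.b 8 9 (.b 1
  6 (.b 2 7 (.b 3 8 (.g 138) (.c 137)) (.c 131)) (.c 19)) (.c 259)))))

def ta67 : T := (.b 8 9 (.g 304) (.b 4 8 (.g 176) (.b 1 2 (.b 1 3 (.b 2 3 (.b 1 9 (.b 1 7 (.p 1)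
  (.b 1 8 (.p 1) (.c 384))) (.b 2 9 (.b 2 7 (.p 2) (.b 2 8 (.p 2) (.c 384))) (.q 9))) (.b 1 7 (.b
  1 9 (.p 1) (.c 517)) (.c 133))) (.b 2 3 (.b 2 7 (.b 2 9 (.p 2) (.c 515)) (.c 131)) (.c 135)))
  (.b 1 3 (.b 2 3 (.b 3 7 (.b 3 9 (.p 3) (.c 515)) (.c 131)) (.c 133)) (.c 131)))))

def ta68 : T := (.b 8 9 (.g 304) (.b 5 8 (.g 176) (.b 1 2 (.b 1 3 (.b 2 3 (.b 1 9 (.b 1 7 (.p 1)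
  (.b 1 8 (.p 1) (.c 384))) (.b 2 9 (.b 2 7 (.p 2) (.b 2 8 (.p 2) (.c 384))) (.q 9))) (.b 1 7 (.b
  1 9 (.p 1) (.c 517)) (.c 133))) (.b 2 3 (.b 2 7 (.b 2 9 (.p 2) (.c 515)) (.c 131)) (.c 135)))
  (.b 1 3 (.b 2 3 (.b 3 7 (.b 3 9 (.p 3) (.c 515)) (.c 131)) (.c 133)) (.c 131)))))

def ta69 : T := (.b 4 9 (.b 5 9 (.g 176) ta67) (.b 5 9 ta68 (.b 1 2 (.b 1 3 (.b 8 9 (.b 2 7 (.g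
  268) (.b 3 7 (.g 268) (.q 7))) (.b 2 3 (.b 1 9 (.b 2 9 (.g 134) (.q 9)) (.q 9)) (.c 517))) (.b 2
  3 (.b 1 8 (.b 8 9 (.b 3 7 (.g 266) (.c 131)) (.c 515)) (.c 131)) (.c 135))) (.b 1 3 (.b 2 3 (.b
  1 8 (.b 8 9 (.b 2 7 (.g 262) (.c 131)) (.c 515)) (.c 131)) (.c 133)) (.c 131)))))

def ta70 : T := (.b 8 9 (.g 560) (.b 4 9 (.g 176) (.b 1 2 (.b 1 3 (.b 2 3 (.b 1 8 (.b 1 7 (.p 1)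
  (.b 1 9 (.p 1) (.c 640))) (.b 2 8 (.b 2 7 (.p 2) (.b 2 9 (.p 2) (.c 640))) (.q 8))) (.b 1 7 (.b
  1 8 (.p 1) (.c 261)) (.c 133))) (.b 2 3 (.b 2 7 (.b 2 8 (.p 2) (.c 259)) (.c 131)) (.c 135)))
  (.b 1 3 (.b 2 3 (.b 3 7 (.b 3 8 (.p 3) (.c 259)) (.c 131)) (.c 133)) (.c 131)))))

def ta71 : T := (.b 8 9 (.g 560) (.b 5 9 (.g 176) (.b 1 2 (.b 1 3 (.b 2 3 (.b 1 8 (.b 1 7 (.p 1)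
  (.b 1 9 (.p 1) (.c 640))) (.b 2 8 (.b 2 7 (.p 2) (.b 2 9 (.p 2) (.c 640))) (.q 8))) (.b 1 7 (.b
  1 8 (.p 1) (.c 261)) (.c 133))) (.b 2 3 (.b 2 7 (.b 2 8 (.p 2) (.c 259)) (.c 131)) (.c 135)))
  (.b 1 3 (.b 2 3 (.b 3 7 (.b 3 8 (.p 3) (.c 259)) (.c 131)) (.c 133)) (.c 131)))))

def ta72 : T := (.b 4 8 (.b 5 8 (.g 176) ta70) (.b 5 8 ta71 (.b 1 2 (.b 1 3 (.b 8 9 (.b 2 7 (.g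
  524) (.b 3 7 (.g 524) (.q 7))) (.b 2 3 (.b 1 8 (.b 2 8 (.g 134) (.q 8)) (.q 8)) (.c 261))) (.b 2
  3 (.b 1 9 (.b 8 9 (.b 3 7 (.g 266) (.c 131)) (.c 259)) (.c 131)) (.c 135))) (.b 1 3 (.b 2 3 (.b
  1 9 (.b 8 9 (.b 2 7 (.g 262) (.c 131)) (.c 259)) (.c 131)) (.c 133)) (.c 131)))))

def ta73 : T := (.b 4 7 (.b 5 7 (.b 4 8 (.g 48) (.b 5 8 (.g 48) (.b 8 9 (.g 304) (.b 4 9 (.g 48)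
  ta59)))) ta62) (.b 5 7 ta65 (.b 7 8 (.b 7 9 (.b 4 8 (.g 176) (.b 5 8 (.g 176) (.b 4 9 (.g 176)
  (.b 5 9 (.g 176) ta66)))) ta69) (.b 7 9 ta72 (.b 1 7 (.b 2 3 (.b 2 7 (.b 1 3 (.b 8 9 (.g 262)
  (.b 1 6 (.g 6) (.b 2 6 (.g 6) (.b 3 7 (.b 3 6 (.p 3) (.q 6)) (.q 7))))) (.c 131)) (.q 7)) (.c
  133)) (.q 7))))))

def ta74 : T := (.b 2 6 (.b 1 3 (.b 7 8 (.g 134) (.b 7 9 (.g 134) (.b 8 9 (.g 262) (.b 1 7 (.g 6)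
  (.b 2 7 (.g 6) (.b 1 8 (.g 6) (.b 2 8 (.g 6) (.b 4 7 (.b 4 8 (.b 3 7 (.g 26) (.q 7)) (.q 8)) (.q
  7))))))))) (.b 1 2 (.b 3 6 (.b 7 8 (.g 138) (.b 7 9 (.g 138) (.b 8 9 (.g 266) (.b 1 7 (.g 10)
  (.b 3 7 (.g 10) (.b 2 7 (.p 2) (.q 7))))))) (.c 67)) (.c 67))) (.b 3 6 (.b 1 2 (.b 7 8 (.g 138)
  (.b 7 9 (.g 138) (.b 8 9 (.g 266) (.b 1 7 (.g 10) (.b 3 7 (.g 10) (.b 2 7 (.b 4 7 (.b 1 8 (.g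
  10) (.b 3 8 (.g 10) (.b 2 8 (.p 2) (.q 8)))) (.q 7)) (.q 7))))))) (.c 67)) (.q 6)))

def ta75 : T := (.b 1 6 (.b 2 3 ta74 (.b 1 2 (.b 3 6 (.b 1 3 (.b 2 6 (.b 7 8 (.g 140) (.b 7 9 (.g
  140) (.b 8 9 (.g 268) (.b 2 7 (.g 12) (.b 3 7 (.g 12) (.b 1 7 (.p 1) (.q 7))))))) (.c 73)) (.c
  71)) (.c 69)) (.c 69))) (.b 2 6 (.b 2 3 (.b 3 6 (.b 1 2 (.b 1 3 (.b 7 8 (.g 140) (.b 7 9 (.g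
  140) (.b 8 9 (.g 268) (.b 2 7 (.p 2) (.b 3 7 (.p 3) (.b 1 7 (.b 2 8 (.p 2) (.b 3 8 (.p 3) (.b 1
  8 (.p 1) (.q 8)))) (.q 7))))))) (.c 73)) (.c 69)) (.q 6)) (.c 69)) (.q 6)))

def ta76 : T := (.b 2 6 (.b 1 3 (.b 7 8 (.g 134) (.b 7 9 (.g 134) (.b 8 9 (.g 262) (.b 1 7 (.g 6)
  (.b 2 7 (.g 6) (.b 1 8 (.g 6) (.b 2 8 (.g 6) (.b 5 7 (.b 5 8 (.b 3 7 (.g 42) (.q 7)) (.q 8)) (.q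
  7))))))))) (.b 1 2 (.b 3 6 (.b 7 8 (.g 138) (.b 7 9 (.g 138) (.b 8 9 (.g 266) (.b 1 7 (.g 10)
  (.b 3 7 (.g 10) (.b 2 7 (.p 2) (.q 7))))))) (.c 67)) (.c 67))) (.b 3 6 (.b 1 2 (.b 7 8 (.g 138)
  (.b 7 9 (.g 138) (.b 8 9 (.g 266) (.b 1 7 (.g 10) (.b 3 7 (.g 10) (.b 2 7 (.b 5 7 (.b 1 8 (.g
  10) (.b 3 8 (.g 10) (.b 2 8 (.p 2) (.q 8)))) (.q 7)) (.q 7))))))) (.c 67)) (.q 6)))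

def ta77 : T := (.b 1 6 (.b 2 3 ta76 (.b 1 2 (.b 3 6 (.b 1 3 (.b 2 6 (.b 7 8 (.g 140) (.b 7 9 (.g
  140) (.b 8 9 (.g 268) (.b 2 7 (.g 12) (.b 3 7 (.g 12) (.b 1 7 (.p 1) (.q 7))))))) (.c 73)) (.c
  71)) (.c 69)) (.c 69))) (.b 2 6 (.b 2 3 (.b 3 6 (.b 1 2 (.b 1 3 (.b 7 8 (.g 140) (.b 7 9 (.g
  140) (.b 8 9 (.g 268) (.b 2 7 (.p 2) (.b 3 7 (.p 3) (.b 1 7 (.b 2 8 (.p 2) (.b 3 8 (.p 3) (.b 1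
  8 (.p 1) (.q 8)))) (.q 7))))))) (.c 73)) (.c 69)) (.q 6)) (.c 69)) (.q 6)))

def ta78 : T := (.b 6 9 (.b 7 9 (.b 8 9 (.b 1 6 (.b 1 7 (.g 518) (.b 1 8 (.g 518) (.b 2 3 (.g 518)
  (.b 2 7 (.g 518) (.b 3 8 (.g 522) (.b 1 2 (.g 522) (.c 261))))))) ta46) ta49) (.b 7 8 (.b 8 9
  (.b 1 2 (.b 3 6 (.g 650) (.b 3 7 (.g 330) (.b 1 3 (.g 332) (.b 2 3 (.g 330) (.b 3 8 (.b 1 7 (.g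
  204) (.b 2 7 (.g 202) (.c 137))) (.c 9)))))) ta50) ta53) ta58)) (.b 4 6 (.b 5 6 ta73 ta75) (.b 5
  6 ta77 (.b 1 6 (.b 2 6 (.b 1 3 (.b 2 3 (.b 1 7 (.g 6) (.b 3 6 (.b 1 2 (.b 8 9 (.g 262) (.b 7 8
  (.g 134) (.b 7 9 (.g 134) (.b 2 7 (.p 2) (.b 3 7 (.p 3) (.q 7)))))) (.c 67)) (.q 6))) (.c 69))
  (.c 67)) (.q 6)) (.q 6)))))

def taR : T := (.b 6 7 ta26 (.b 6 8 ta45 ta78))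

def Pta : ℕ := 15778044523365390

def Qta : ℕ := 1239150146850664125510452208

theorem run_ta : run 6 taR Pta Qta = true := by decide +kernel

def tbR : T := (.b 1 7 (.g 6) (.b 1 8 (.g 6) (.b 1 9 (.g 6) (.b 2 7 (.g 6) (.b 2 8 (.g 6) (.b 2 9
  (.g 6) (.b 1 2 (.b 7 8 (.g 134) (.b 7 9 (.g 134) (.b 3 7 (.b 4 7 (.b 5 7 (.b 8 9 (.g 262) (.b 6
  8 (.b 6 9 (.g 194) (.c 513)) (.c 257))) (.c 129)) (.c 129)) (.c 129)))) (.c 3))))))))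

def Ptb : ℕ := 6924291030721356806

def Qtb : ℕ := 1239150146850664126584194040

theorem run_tb : run 7 tbR Ptb Qtb = true := by decide +kernel

def tc0 : T := (.b 2 3 (.b 4 9 (.b 5 9 (.b 6 9 (.g 514) (.b 7 9 (.g 514) (.b 8 9 (.g 514) (.c
  513)))) (.b 6 9 (.b 7 9 (.g 514) (.b 8 9 (.g 514) (.c 513))) (.b 7 9 (.b 8 9 (.g 514) (.c 513))
  (.c 513)))) (.b 5 9 (.b 6 9 (.b 7 9 (.g 514) (.b 8 9 (.g 514) (.c 513))) (.b 7 9 (.b 8 9 (.g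
  514) (.c 513)) (.c 513))) (.b 6 9 (.b 7 9 (.b 8 9 (.g 514) (.c 513)) (.c 513)) (.c 513)))) (.b 2
  4 (.b 2 5 (.b 2 6 (.b 2 7 (.g 6) (.b 2 8 (.g 6) (.c 7))) (.b 2 7 (.b 2 8 (.g 6) (.c 7)) (.c 7)))
  (.b 2 6 (.b 2 7 (.b 2 8 (.g 6) (.c 7)) (.c 7)) (.c 7))) (.b 2 5 (.b 2 6 (.b 2 7 (.b 2 8 (.g 6)
  (.c 7)) (.c 7)) (.c 7)) (.c 7))))

def tc1 : T := (.b 2 3 (.b 4 8 (.b 5 8 (.b 6 8 (.g 258) (.b 7 8 (.g 258) (.b 8 9 (.g 258) (.c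
  257)))) (.b 6 8 (.b 7 8 (.g 258) (.b 8 9 (.g 258) (.c 257))) (.b 7 8 (.b 8 9 (.g 258) (.c 257))
  (.c 257)))) (.b 5 8 (.b 6 8 (.b 7 8 (.g 258) (.b 8 9 (.g 258) (.c 257))) (.b 7 8 (.b 8 9 (.g
  258) (.c 257)) (.c 257))) (.b 6 8 (.b 7 8 (.b 8 9 (.g 258) (.c 257)) (.c 257)) (.c 257)))) (.b 2
  4 (.b 2 5 (.b 2 6 (.b 2 7 (.g 6) (.b 2 9 (.g 6) (.c 7))) (.b 2 7 (.b 2 9 (.g 6) (.c 7)) (.c 7)))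
  (.b 2 6 (.b 2 7 (.b 2 9 (.g 6) (.c 7)) (.c 7)) (.c 7))) (.b 2 5 (.b 2 6 (.b 2 7 (.b 2 9 (.g 6)
  (.c 7)) (.c 7)) (.c 7)) (.c 7))))

def tc2 : T := (.b 2 4 (.b 2 5 (.b 2 6 (.b 2 7 (.g 6) (.b 8 9 (.g 262) (.b 2 8 (.g 6) (.b 7 8 (.g
  262) (.c 257))))) (.b 2 7 (.b 8 9 (.g 262) (.b 2 8 (.g 6) (.b 6 8 (.g 262) (.c 257)))) (.c 7)))
  (.b 2 6 (.b 2 7 (.b 8 9 (.g 262) (.b 2 8 (.g 6) (.b 5 8 (.g 262) (.c 257)))) (.c 7)) (.c 7)))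
  (.b 2 5 (.b 2 6 (.b 2 7 (.b 8 9 (.g 262) (.b 2 8 (.g 6) (.b 4 8 (.g 262) (.c 257)))) (.c 7)) (.c
  7)) (.c 7)))

def tcR : T := (.b 1 8 (.b 1 9 (.p 1) tc0) (.b 1 9 tc1 (.b 2 3 tc2 (.b 2 4 (.b 2 5 (.b 2 6 (.b 2 7
  (.b 8 9 (.g 262) (.b 2 8 (.g 6) (.b 3 8 (.g 262) (.c 257)))) (.c 7)) (.c 7)) (.c 7)) (.c 7)))))

def Ptc : ℕ := 2363491338445023081474

def Qtc : ℕ := 1239150146850664126585242620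

theorem run_tc : run 8 tcR Ptc Qtc = true := by decide +kernel

end Pool.Agent.V7H38.OG
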