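import Pool.Agent.V7H38.OG.Sixteen
import Pool.Agent.V7H38.OG.Cert

/-!
# Ten vertices
-/

set_option autoImplicit false
set_option linter.unusedSectionVars false
set_option linter.unusedVariables false

namespace Pool.Agent.V7H38.OG

variable {V : Type} [DecidableEq V] [Fintype V]

/-- the set of a mask -/
def ms (e : V ≃ Fin 10) (S : ℕ) : Finset V := Finset.univ.filter (fun v => S.testBit (e v) = true)

lemma cnm_eq (H : SimpleGraph V) (e : V ≃ Fin 10) (S : ℕ) (v : V) :
    cnm (fun i j => H.Adj (e.symm i) (e.symm j)) S (e v) = cn H (ms e S) v := by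
  classical
  unfold cnm cn ms
  rw [Finset.filter_filter, Finset.card_filter, ← Equiv.sum_comp e]
  refine Finset.sum_congr rfl (fun w _ => ?_)
  simp only [Equiv.symm_apply_apply]

lemma wm_eq (H : SimpleGraph V) (e : V ≃ Fin 10) (S : ℕ) :
    wm (fun i j => H.Adj (e.symm i) (e.symm j)) S = wt H (ms e S) := by
  classical
  unfold wm wt
  rw [← Equiv.sum_comp e]
  have h1 : ∀ v, (if S.testBit (e v) = true then 0 else
      2 - cnm (fun i j => H.Adj (e.symm i) (e.symm j)) S (e v)) =
      (if v ∈ ms e S then 0 else 2 - cn H (ms e S) v) := by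
    intro v
    rw [cnm_eq]
    simp [ms]
  rw [Finset.sum_congr rfl (fun v _ => h1 v)]
  rw [← Finset.sum_filter_add_sum_filter_not Finset.univ (fun v => v ∈ ms e S)
      (fun v => if v ∈ ms e S then 0 else (2 - cn H (ms e S) v))]
  have e1 : ∑ v ∈ Finset.univ.filter (fun v => v ∈ ms e S),
      (if v ∈ ms e S then 0 else (2 - cn H (ms e S) v)) = 0 := by
    refine Finset.sum_eq_zero (fun v hv => ?_)
    rw [Finset.mem_filter] at hv
    rw [if_pos hv.2]
  rw [e1, zero_add]
  refine Finset.sum_congr ?_ (fun v hv => ?_)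
  · ext v
    simp
  · rw [Finset.mem_sdiff] at hv
    rw [if_neg hv.2]

lemma ms_card (e : V ≃ Fin 10) (S : ℕ) : (ms e S).card = pc S := by
  rw [pc_eq, ms, Finset.card_filter, ← Equiv.sum_comp e]

lemma exists_equiv (hn : Fintype.card V = 10) (x : V) (N W : Finset V) (hxN : x ∉ N)
    (hxW : x ∉ W) (hNW : Disjoint N W) (g : Fin 10 → Fin 4)
    (g0 : (Finset.univ.filter (fun i => g i = 0)).card = 1)
    (g1 : (Finset.univ.filter (fun i => g i = 1)).card = N.card)
    (g2 : (Finset.univ.filter (fun i => g i = 2)).card = W.card) :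
    ∃ e : V ≃ Fin 10, (∀ i, g i = 0 → e.symm i = x) ∧ (∀ i, g i = 1 → e.symm i ∈ N) ∧
      (∀ i, g i = 2 → e.symm i ∈ W) ∧ (∀ i, e.symm i ∈ N → g i = 1) ∧ (∀ i, e.symm i = x → g i = 0) := by
  classical
  let f : V → Fin 4 := fun v => if v = x then 0 else if v ∈ N then 1 else if v ∈ W then 2 else 3
  have f0 : ∀ v, f v = 0 ↔ v = x := by
    intro v
    by_cases a : v = x
    · simp [f, a]
    · by_cases b : v ∈ N
      · simp [f, a, b]
      · by_cases c : v ∈ W <;> simp [f, a, b, c]
  have f1 : ∀ v, f v = 1 ↔ v ∈ N := by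
    intro v
    by_cases a : v = x
    · simp [f, a, hxN]
    · by_cases b : v ∈ N
      · simp [f, a, b]
      · by_cases c : v ∈ W <;> simp [f, a, b, c]
  have f2 : ∀ v, f v = 2 ↔ v ∈ W := by
    intro v
    by_cases a : v = x
    · simp [f, a, hxW]
    · by_cases b : v ∈ N
      · have c : v ∉ W := Finset.disjoint_left.1 hNW b
        simp [f, a, b, c]
      · by_cases c : v ∈ W <;> simp [f, a, b, c]
  have c0 : (Finset.univ.filter (fun v => f v = 0)).card = 1 := by
    rw [Finset.card_eq_one]
    exact ⟨x, by ext v; simp [f0]⟩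
  have c1 : (Finset.univ.filter (fun v => f v = 1)).card = N.card := by
    congr 1
    ext v
    simp [f1]
  have c2 : (Finset.univ.filter (fun v => f v = 2)).card = W.card := by
    congr 1
    ext v
    simp [f2]
  have s1 := Finset.card_eq_sum_card_fiberwise (f := f) (s := Finset.univ) (t := Finset.univ)
    (fun v _ => Finset.mem_univ _)
  have s2 := Finset.card_eq_sum_card_fiberwise (f := g) (s := Finset.univ) (t := Finset.univ)
    (fun v _ => Finset.mem_univ _)
  rw [Finset.card_univ, hn] at s1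
  rw [Finset.card_univ, Fintype.card_fin] at s2
  simp only [Fin.sum_univ_four] at s1 s2
  have key : ∀ c : Fin 4, Fintype.card {a // f a = c} = Fintype.card {b // g b = c} := by
    intro c
    rw [Fintype.card_subtype, Fintype.card_subtype]
    have hc : c = 0 ∨ c = 1 ∨ c = 2 ∨ c = 3 := by
      revert c
      decide
    rcases hc with rfl | rfl | rfl | rfl
    · rw [c0, g0]
    · rw [c1, g1]
    · rw [c2, g2]
    · omega
  let e := Equiv.ofFiberEquiv (f := f) (g := g) (fun c => Fintype.equivOfCardEq (key c))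
  have he : ∀ v, g (e v) = f v := fun v => Equiv.ofFiberEquiv_map _ v
  have he' : ∀ i, f (e.symm i) = g i := by
    intro i
    rw [← he, Equiv.apply_symm_apply]
  refine ⟨e, ?_, ?_, ?_, ?_, ?_⟩
  · intro i hi
    rw [← f0, he', hi]
  · intro i hi
    rw [← f1, he', hi]
  · intro i hi
    rw [← f2, he', hi]
  · intro i hi
    rw [← he', f1]
    exact hi
  · intro i hi
    rw [← he', f0]
    exact hi

/-- the end of the argument for a given certificate -/
lemma Bad.ten_cert {G : SimpleGraph V} (h : Bad G) (h1 : ∀ v, 1 ≤ dg G v)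
    (h2 : ∀ v, 1 ≤ dg Gᶜ v) (hn : Fintype.card V = 10) (x : V) (N W : Finset V)
    (hN : ∀ v, v ∈ N ↔ G.Adj x v) (hxW : x ∉ W) (hNW : Disjoint N W)
    (hW : ∀ v ∈ W, ∀ a ∈ N, G.Adj a v) (m : ℕ) (hm : ∀ v, dg G v ≤ m) (hm' : ∀ v, dg Gᶜ v ≤ m)
    (g : Fin 10 → Fin 4)
    (g0 : (Finset.univ.filter (fun i => g i = 0)).card = 1)
    (g1 : (Finset.univ.filter (fun i => g i = 1)).card = N.card)
    (g2 : (Finset.univ.filter (fun i => g i = 2)).card = W.card) (t : T) (P Q : ℕ)
    (ht : run m t P Q = true)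
    (hP : ∀ i j : Fin 10, P.testBit (10 * (i : ℕ) + (j : ℕ)) = true → (g i = 0 ∧ g j = 1) ∨
      (g i = 1 ∧ g j = 0) ∨ (g i = 1 ∧ g j = 2) ∨ (g i = 2 ∧ g j = 1))
    (hQ : ∀ i j : Fin 10, Q.testBit (10 * (i : ℕ) + (j : ℕ)) = true →
      (g i = 0 ∧ g j ≠ 0 ∧ g j ≠ 1) ∨ (g j = 0 ∧ g i ≠ 0 ∧ g i ≠ 1)) : False := by
  have hxN : x ∉ N := fun hx => ((hN x).1 hx).ne rfl
  obtain ⟨e, e0, e1, e2, e3, e4⟩ := exists_equiv hn x N W hxN hxW hNW g g0 g1 g2
  have hall : ms e 1023 = Finset.univ := by
    rw [Finset.eq_univ_iff_forall]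
    intro v
    unfold ms
    rw [Finset.mem_filter]
    refine ⟨Finset.mem_univ _, ?_⟩
    have : ∀ j : Fin 10, Nat.testBit 1023 j = true := by decide
    exact this (e v)
  have key := run_sound (fun i j => G.Adj (e.symm i) (e.symm j))
    (fun i j => Gᶜ.Adj (e.symm i) (e.symm j)) (fun i j h => h.symm) (fun i j h => h.symm)
    (fun i j hij => by
      rw [SimpleGraph.compl_adj]
      by_cases h : G.Adj (e.symm i) (e.symm j)
      · exact Or.inl h
      · exact Or.inr ⟨fun h' => hij (e.symm.injective h'), h⟩) m t P Q ht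
    (by
      intro i j hij
      rcases hP i j hij with ⟨a, b⟩ | ⟨a, b⟩ | ⟨a, b⟩ | ⟨a, b⟩
      · show G.Adj (e.symm i) (e.symm j)
        rw [e0 i a]
        exact (hN _).1 (e1 j b)
      · show G.Adj (e.symm i) (e.symm j)
        rw [e0 j b]
        exact ((hN _).1 (e1 i a)).symm
      · exact hW _ (e2 j b) _ (e1 i a)
      · exact (hW _ (e2 i a) _ (e1 j b)).symm)
    (by
      intro i j hij
      rcases hQ i j hij with ⟨a, b, c⟩ | ⟨a, b, c⟩
      · show Gᶜ.Adj (e.symm i) (e.symm j)
        rw [e0 i a, SimpleGraph.compl_adj]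
        refine ⟨fun h => b (e4 j h.symm), fun h => c (e3 j ((hN _).2 h))⟩
      · show Gᶜ.Adj (e.symm i) (e.symm j)
        rw [e0 j a, SimpleGraph.compl_adj]
        refine ⟨fun h => b (e4 i h), fun h => c (e3 i ((hN _).2 h.symm))⟩)
  rcases key with ⟨S, hS⟩ | ⟨S, hS⟩ | ⟨i, hi⟩ | ⟨i, hi⟩
  · rw [wm_eq, ← ms_card e S] at hS
    have := h.cost h2 (ms e S)
    omega
  · rw [wm_eq, ← ms_card e S] at hS
    have := h.compl.cost (by rw [compl_compl]; exact h1) (ms e S)
    omega
  · have a := cnm_eq G e 1023 (e.symm i)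
    rw [Equiv.apply_symm_apply, hall] at a
    rw [a] at hi
    have b := hm (e.symm i)
    unfold dg at b
    omega
  · have a := cnm_eq Gᶜ e 1023 (e.symm i)
    rw [Equiv.apply_symm_apply, hall] at a
    rw [a] at hi
    have b := hm' (e.symm i)
    unfold dg at b
    omega

lemma Bad.ten_aux {G : SimpleGraph V} (h : Bad G) (h1 : ∀ v, 1 ≤ dg G v)
    (h2 : ∀ v, 1 ≤ dg Gᶜ v) (hn : Fintype.card V = 10) (x : V) (hx : dg G x ≤ 3)
    (hm : ∀ v, dg G x ≤ dg G v) (hm' : ∀ v, dg G x ≤ dg Gᶜ v) : False := by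
  classical
  have hsum : ∀ v, dg G v + dg Gᶜ v + 1 = Fintype.card V := dg_add_compl G
  set N := Finset.univ.filter (fun v => G.Adj x v) with hN
  have hNm : ∀ v, v ∈ N ↔ G.Adj x v := by
    intro v
    simp [hN]
  have hNc : N.card = dg G x := rfl
  have hxN : x ∉ N := fun hx => ((hNm x).1 hx).ne rfl
  set S := insert x N with hS
  have hSc : S.card = dg G x + 1 := by
    rw [hS, Finset.card_insert_of_notMem hxN, hNc]
  set W := (Finset.univ \ S).filter (fun v => ∀ a ∈ N, G.Adj a v) with hW
  have hwt : wt Gᶜ S ≤ W.card := by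
    unfold wt
    rw [hW, Finset.card_filter]
    refine Finset.sum_le_sum (fun v hv => ?_)
    rw [Finset.mem_sdiff, hS, Finset.mem_insert, not_or, hNm] at hv
    have h3 := cn_add_compl G S v (by rw [hS, Finset.mem_insert, not_or, hNm]; exact hv.2)
    have h4 : cn G S v ≤ dg G x := by
      rw [← hNc]
      unfold cn
      refine Finset.card_le_card ?_
      intro u hu
      rw [Finset.mem_filter, hS, Finset.mem_insert] at hu
      rcases hu.1 with hu1 | hu1
      · rw [hu1] at hu
        exact absurd hu.2.symm hv.2.2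
      · exact hu1
    by_cases h5 : ∀ a ∈ N, G.Adj a v
    · rw [if_pos h5]
      omega
    · rw [if_neg h5]
      push Not at h5
      obtain ⟨a, ha, hav⟩ := h5
      have h6 : cn G S v < dg G x := by
        rw [← hNc]
        unfold cn
        refine Finset.card_lt_card ?_
        rw [Finset.ssubset_iff_of_subset]
        · refine ⟨a, ha, ?_⟩
          rw [Finset.mem_filter]
          exact fun h => hav h.2.symm
        · intro u hu
          rw [Finset.mem_filter, hS, Finset.mem_insert] at hu
          rcases hu.1 with hu1 | hu1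
          · rw [hu1] at hu
            exact absurd hu.2.symm hv.2.2
          · exact hu1
      omega
  have hcost := h.compl.cost (by rw [compl_compl]; exact h1) S
  have hWc : 2 * (4 - dg G x) ≤ W.card := by omega
  obtain ⟨W₀, hW₀, hW₀c⟩ := Finset.exists_subset_card_eq hWc
  have hxW : x ∉ W₀ := by
    intro hx
    have := hW₀ hx
    rw [hW, Finset.mem_filter, Finset.mem_sdiff, hS] at this
    exact this.1.2 (Finset.mem_insert_self _ _)
  have hNW : Disjoint N W₀ := by
    rw [Finset.disjoint_left]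
    intro v hv hv'
    have := hW₀ hv'
    rw [hW, Finset.mem_filter, Finset.mem_sdiff, hS] at this
    exact this.1.2 (Finset.mem_insert_of_mem hv)
  have hWa : ∀ v ∈ W₀, ∀ a ∈ N, G.Adj a v := by
    intro v hv
    have := hW₀ hv
    rw [hW, Finset.mem_filter] at this
    exact this.2
  have hd := h1 x
  rcases (by omega : dg G x = 1 ∨ dg G x = 2 ∨ dg G x = 3) with hd | hd | hd
  · rw [hd] at hW₀c hNc
    refine h.ten_cert h1 h2 hn x N W₀ hNm hxW hNW hWa 8 (fun v => ?_) (fun v => ?_)
      (fun i => if i.val = 0 then 0 else if i.val ≤ 1 then 1 else if i.val ≤ 7 then 2 else 3)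
      (by decide) (by rw [hNc]; decide) (by rw [hW₀c]; decide) tcR Ptc Qtc run_tc (by decide)
      (by decide)
    · have a := hm' v
      have b := hsum v
      omega
    · have a := hm v
      have b := hsum v
      omega
  · rw [hd] at hW₀c hNc
    refine h.ten_cert h1 h2 hn x N W₀ hNm hxW hNW hWa 7 (fun v => ?_) (fun v => ?_)
      (fun i => if i.val = 0 then 0 else if i.val ≤ 2 then 1 else if i.val ≤ 6 then 2 else 3)
      (by decide) (by rw [hNc]; decide) (by rw [hW₀c]; decide) tbR Ptb Qtb run_tb (by decide)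
      (by decide)
    · have a := hm' v
      have b := hsum v
      omega
    · have a := hm v
      have b := hsum v
      omega
  · rw [hd] at hW₀c hNc
    refine h.ten_cert h1 h2 hn x N W₀ hNm hxW hNW hWa 6 (fun v => ?_) (fun v => ?_)
      (fun i => if i.val = 0 then 0 else if i.val ≤ 3 then 1 else if i.val ≤ 5 then 2 else 3)
      (by decide) (by rw [hNc]; decide) (by rw [hW₀c]; decide) taR Pta Qta run_ta (by decide)
      (by decide)
    · have a := hm' v
      have b := hsum v
      omega
    · have a := hm v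
      have b := hsum v
      omega

lemma Bad.ten {G : SimpleGraph V} (h : Bad G) (h1 : ∀ v, 1 ≤ dg G v)
    (h2 : ∀ v, 1 ≤ dg Gᶜ v) (hn : Fintype.card V = 10) : False := by
  have hsum : ∀ v, dg G v + dg Gᶜ v + 1 = Fintype.card V := dg_add_compl G
  have hne : Nonempty V := Fintype.card_pos_iff.1 (by omega)
  obtain ⟨x, -, hx⟩ := Finset.exists_min_image (Finset.univ : Finset V)
    (fun v => min (dg G v) (dg Gᶜ v)) Finset.univ_nonempty
  by_cases h4 : min (dg G x) (dg Gᶜ x) ≤ 3
  · rcases le_total (dg G x) (dg Gᶜ x) with hle | hle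
    · rw [min_eq_left hle] at h4 hx
      exact h.ten_aux h1 h2 hn x h4 (fun v => (hx v (Finset.mem_univ _)).trans (min_le_left _ _))
        (fun v => (hx v (Finset.mem_univ _)).trans (min_le_right _ _))
    · rw [min_eq_right hle] at h4 hx
      exact h.compl.ten_aux h2 (by rw [compl_compl]; exact h1) hn x h4
        (fun v => (hx v (Finset.mem_univ _)).trans (min_le_right _ _))
        (fun v => by
          rw [compl_compl]
          exact (hx v (Finset.mem_univ _)).trans (min_le_left _ _))
  · have havg0 := h.avg 3 4 (by omega)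
    rw [hn] at havg0
    have havg : 4 * Nat.choose 10 (3 + 1) ≤ ∑ v : V, WW 3 9 (dg G v) := havg0
    have c1 : Nat.choose 10 (3 + 1) = 210 := by decide
    have w4 : WW 3 9 4 = 72 := by decide
    rw [c1] at havg
    have hle : ∀ v, WW 3 9 (dg G v) ≤ WW 3 9 4 := by
      intro v
      have a := hx v (Finset.mem_univ _)
      have b := hsum v
      have c := min_le_left (dg G v) (dg Gᶜ v)
      have d := min_le_right (dg G v) (dg Gᶜ v)
      exact WW_le 2 _ 4 _ (by omega) (by omega)
    have := sum_le_one (fun v => WW 3 9 (dg G v)) x _ _ (hle x) (fun v _ => hle v)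
    rw [hn] at this
    omega

end Pool.Agent.V7H38.OG
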