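import Pool.Agent.V7H38.OG.Stars

/-!
# Averaging over all sets of a given size
-/

set_option autoImplicit false
set_option linter.unusedSectionVars false
set_option linter.unusedVariables false

namespace Pool.Agent.V7H38.OG

variable {V : Type} [DecidableEq V] [Fintype V]

open Classical in
lemma cn_add_compl (G : SimpleGraph V) (S : Finset V) (v : V) (hv : v ∉ S) :
    cn G S v + cn Gᶜ S v = S.card := by
  have h : cn Gᶜ S v = (S.filter (fun u => ¬ G.Adj v u)).card := by
    unfold cn
    congr 1
    ext u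
    simp only [Finset.mem_filter, SimpleGraph.compl_adj]
    exact ⟨fun h => ⟨h.1, h.2.2⟩, fun h => ⟨h.1, fun h' => hv (h' ▸ h.1), h.2⟩⟩
  rw [h]
  unfold cn
  exact Finset.card_filter_add_card_filter_not _

open Classical in
lemma dg_add_compl (G : SimpleGraph V) (v : V) : dg G v + dg Gᶜ v + 1 = Fintype.card V := by
  have h1 : ∀ H : SimpleGraph V, dg H v = cn H (Finset.univ.erase v) v := by
    intro H
    unfold dg cn
    congr 1
    ext w
    simp only [Finset.mem_filter, Finset.mem_univ, true_and, Finset.mem_erase]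
    exact ⟨fun h => ⟨⟨h.ne', trivial⟩, h⟩, fun h => h.2⟩
  rw [h1 G, h1 Gᶜ, cn_add_compl G _ v (Finset.notMem_erase _ _),
    Finset.card_erase_of_mem (Finset.mem_univ _), Finset.card_univ]
  have : 0 < Fintype.card V := Fintype.card_pos_iff.2 ⟨v⟩
  omega

open Classical in
/-- the averaging bound -/
lemma sum_wt_le (G : SimpleGraph V) (s : ℕ) :
    ∑ S ∈ (Finset.univ : Finset V).powersetCard (s + 1), wt G S ≤
      ∑ v : V, (2 * (dg Gᶜ v).choose (s + 1) + dg G v * (dg Gᶜ v).choose s) := by
  have h1 : ∀ S : Finset V, wt G S = ∑ v : V, (if v ∈ S then 0 else (2 - cn G S v)) := by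
    intro S
    unfold wt
    rw [← Finset.sum_filter_add_sum_filter_not Finset.univ (fun v => v ∈ S)
      (fun v => if v ∈ S then 0 else (2 - cn G S v))]
    have e1 : ∑ v ∈ Finset.univ.filter (fun v => v ∈ S), (if v ∈ S then 0 else (2 - cn G S v)) = 0 := by
      refine Finset.sum_eq_zero (fun v hv => ?_)
      rw [Finset.mem_filter] at hv
      rw [if_pos hv.2]
    rw [e1, zero_add]
    refine Finset.sum_congr ?_ (fun v hv => ?_)
    · ext v
      simp
    · rw [Finset.mem_filter] at hv
      rw [if_neg hv.2]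
  simp_rw [h1]
  rw [Finset.sum_comm]
  refine Finset.sum_le_sum (fun v _ => ?_)
  set K := Finset.univ.filter (fun u => G.Adj v u) with hK
  set M := Finset.univ.filter (fun u => Gᶜ.Adj v u) with hM
  have hKc : K.card = dg G v := rfl
  have hMc : M.card = dg Gᶜ v := by
    rw [hM]
    unfold dg cn
    congr 1
    ext u
    simp only [Finset.mem_filter]
  set Q := (Finset.univ : Finset V).powersetCard (s + 1) with hQ
  have h2 : ∑ S ∈ Q, (if v ∈ S then 0 else (2 - cn G S v)) ≤
      2 * (Q.filter (fun S => v ∉ S ∧ cn G S v = 0)).card +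
        (Q.filter (fun S => v ∉ S ∧ cn G S v = 1)).card := by
    rw [Finset.card_filter, Finset.card_filter, Finset.mul_sum, ← Finset.sum_add_distrib]
    refine Finset.sum_le_sum (fun S _ => ?_)
    by_cases hv : v ∈ S
    · simp [hv]
    · by_cases h0 : cn G S v = 0
      · simp [hv, h0]
      · by_cases h1 : cn G S v = 1
        · simp [hv, h1]
        · simp only [hv, h0, h1, if_false, not_false_eq_true, and_false]
          omega
  have hmemM : ∀ S : Finset V, v ∉ S → ∀ u ∈ S, ¬ G.Adj v u → u ∈ M := by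
    intro S hv u hu h
    rw [hM, Finset.mem_filter, SimpleGraph.compl_adj]
    exact ⟨Finset.mem_univ _, fun h' => hv (h' ▸ hu), h⟩
  have h3 : (Q.filter (fun S => v ∉ S ∧ cn G S v = 0)).card ≤ (dg Gᶜ v).choose (s + 1) := by
    rw [← hMc, ← Finset.card_powersetCard]
    refine Finset.card_le_card ?_
    intro S hS
    rw [Finset.mem_filter, hQ, Finset.mem_powersetCard] at hS
    obtain ⟨⟨-, hc⟩, hv, h0⟩ := hS
    rw [Finset.mem_powersetCard]
    refine ⟨?_, hc⟩
    intro u hu
    refine hmemM S hv u hu (fun h => ?_)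
    unfold cn at h0
    rw [Finset.card_eq_zero] at h0
    have : u ∈ S.filter (fun u => G.Adj v u) := Finset.mem_filter.2 ⟨hu, h⟩
    rw [h0] at this
    exact absurd this (Finset.notMem_empty _)
  have h4 : (Q.filter (fun S => v ∉ S ∧ cn G S v = 1)).card ≤ dg G v * (dg Gᶜ v).choose s := by
    rw [← hMc, ← hKc, ← Finset.card_powersetCard, ← Finset.card_product]
    refine (Finset.card_le_card ?_).trans (Finset.card_image_le (f := fun x : V × Finset V => insert x.1 x.2))
    intro S hS
    rw [Finset.mem_filter, hQ, Finset.mem_powersetCard] at hS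
    obtain ⟨⟨-, hc⟩, hv, h0⟩ := hS
    unfold cn at h0
    obtain ⟨a, ha⟩ := Finset.card_eq_one.1 h0
    have haS : a ∈ S.filter (fun u => G.Adj v u) := by
      rw [ha]
      exact Finset.mem_singleton_self _
    rw [Finset.mem_filter] at haS
    rw [Finset.mem_image]
    refine ⟨(a, S.erase a), ?_, Finset.insert_erase haS.1⟩
    rw [Finset.mem_product, Finset.mem_powersetCard]
    refine ⟨Finset.mem_filter.2 ⟨Finset.mem_univ _, haS.2⟩, ?_, ?_⟩
    · intro u hu
      rw [Finset.mem_erase] at hu
      refine hmemM S hv u hu.2 (fun h => ?_)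
      have : u ∈ S.filter (fun u => G.Adj v u) := Finset.mem_filter.2 ⟨hu.2, h⟩
      rw [ha, Finset.mem_singleton] at this
      exact hu.1 this
    · simp only
      rw [Finset.card_erase_of_mem haS.1, hc]
      omega
  calc _ ≤ _ := h2
    _ ≤ _ := by
      have := Nat.mul_le_mul_left 2 h3
      omega

/-- the weight function -/
def WW (s N k : ℕ) : ℕ :=
  (2 * (N - k).choose (s + 1) + k * (N - k).choose s) + (2 * k.choose (s + 1) + (N - k) * k.choose s)

lemma WW_symm (s N k : ℕ) (hk : k ≤ N) : WW s N (N - k) = WW s N k := by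
  unfold WW
  rw [Nat.sub_sub_self hk]
  omega

lemma WW_aux (s k : ℕ) (m : ℕ) (hkm : k ≤ m) :
    k.choose (s + 1) + m * k.choose s ≤ m.choose (s + 1) + k * m.choose s := by
  induction m, hkm using Nat.le_induction with
  | base => exact le_rfl
  | succ m hm ih =>
    rw [Nat.choose_succ_succ' m s]
    have h1 : k.choose s ≤ m.choose s := Nat.choose_le_choose s hm
    have h2 : m.choose s ≤ (m + 1).choose s := Nat.choose_le_choose s (Nat.le_succ m)
    have h3 : k * m.choose s ≤ k * (m + 1).choose s := Nat.mul_le_mul_left k h2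
    rw [Nat.add_mul, one_mul]
    omega

lemma WW_step (s N k : ℕ) (hk : 2 * k + 1 ≤ N) : WW (s + 1) N (k + 1) ≤ WW (s + 1) N k := by
  unfold WW
  obtain ⟨m, hm⟩ : ∃ m, N - (k + 1) = m := ⟨_, rfl⟩
  have h1 : N - k = m + 1 := by omega
  have hkm : k ≤ m := by omega
  rw [hm, h1, Nat.choose_succ_succ' m (s + 1), Nat.choose_succ_succ' k (s + 1),
    Nat.choose_succ_succ' m s, Nat.choose_succ_succ' k s]
  have h2 := WW_aux s k m hkm
  simp only [Nat.add_mul, Nat.mul_add, one_mul]
  omega

lemma WW_anti (s N a b : ℕ) (hab : a ≤ b) (hb : 2 * b ≤ N + 1) : WW (s + 1) N b ≤ WW (s + 1) N a := by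
  induction b, hab using Nat.le_induction with
  | base => exact le_rfl
  | succ b hb' ih =>
    exact (WW_step s N b (by omega)).trans (ih (by omega))

lemma WW_le (s N lo k : ℕ) (h1 : lo ≤ k) (h2 : k + lo ≤ N) : WW (s + 1) N k ≤ WW (s + 1) N lo := by
  by_cases h : 2 * k ≤ N + 1
  · exact WW_anti s N lo k h1 h
  · rw [← WW_symm (s + 1) N k (by omega)]
    exact WW_anti s N lo (N - k) (by omega) (by omega)

/-- the averaging bound for `G` and its complement -/
lemma sum_wt_both (G : SimpleGraph V) (s th : ℕ)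
    (h : ∀ S : Finset V, S.card = s + 1 → th ≤ wt G S + wt Gᶜ S) :
    th * (Fintype.card V).choose (s + 1) ≤ ∑ v : V, WW s (Fintype.card V - 1) (dg G v) := by
  have h1 := sum_wt_le G s
  have h2 := sum_wt_le Gᶜ s
  have h3 : ∑ S ∈ (Finset.univ : Finset V).powersetCard (s + 1), th ≤
      ∑ S ∈ (Finset.univ : Finset V).powersetCard (s + 1), (wt G S + wt Gᶜ S) := by
    refine Finset.sum_le_sum (fun S hS => ?_)
    rw [Finset.mem_powersetCard] at hS
    exact h S hS.2
  rw [Finset.sum_const, Finset.card_powersetCard, Finset.card_univ, smul_eq_mul, mul_comm,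
    Finset.sum_add_distrib] at h3
  refine h3.trans ((Nat.add_le_add h1 h2).trans (le_of_eq ?_))
  rw [← Finset.sum_add_distrib]
  refine Finset.sum_congr rfl (fun v _ => ?_)
  have h4 := dg_add_compl G v
  have h5 : Fintype.card V - 1 - dg G v = dg Gᶜ v := by omega
  unfold WW
  rw [h5, compl_compl]

end Pool.Agent.V7H38.OG
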