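import Pool.Agent.V7H38.OG.Master

/-!
# Upper bounds for the game value
-/

set_option autoImplicit false
set_option linter.unusedSectionVars false
set_option linter.unusedVariables false

namespace Pool.Agent.V7H38.OG

variable {V : Type} [DecidableEq V] [Fintype V]

open Classical in
/-- number of neighbours of `v` in `S` -/
noncomputable def cn (H : SimpleGraph V) (S : Finset V) (v : V) : ℕ :=
  (S.filter (fun u => H.Adj v u)).card

/-- weight of a set -/
noncomputable def wt (H : SimpleGraph V) (S : Finset V) : ℕ :=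
  ∑ v ∈ Finset.univ \ S, (2 - cn H S v)

lemma cn_pos {H : SimpleGraph V} {S : Finset V} {v : V} (h : 1 ≤ cn H S v) :
    ∃ c ∈ S, H.Adj c v := by
  classical
  unfold cn at h
  obtain ⟨c, hc⟩ := Finset.card_pos.1 h
  rw [Finset.mem_filter] at hc
  exact ⟨c, hc.1, hc.2.symm⟩

lemma cn_two {H : SimpleGraph V} {S : Finset V} {v : V} (h : 2 ≤ cn H S v) :
    ∃ c ∈ S, ∃ c' ∈ S, c ≠ c' ∧ H.Adj c v ∧ H.Adj c' v := by
  classical
  unfold cn at h
  obtain ⟨c, hc, c', hc', hne⟩ := Finset.one_lt_card.1 (lt_of_lt_of_le one_lt_two h)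
  rw [Finset.mem_filter] at hc hc'
  exact ⟨c, hc.1, c', hc'.1, hne, hc.2.symm, hc'.2.symm⟩

lemma wt_eq (H : SimpleGraph V) (S : Finset V) :
    wt H S = 2 * ((Finset.univ \ S).filter (fun v => cn H S v = 0)).card +
      ((Finset.univ \ S).filter (fun v => cn H S v = 1)).card := by
  rw [wt, Finset.card_filter, Finset.card_filter, Finset.mul_sum, ← Finset.sum_add_distrib]
  refine Finset.sum_congr rfl (fun v _ => ?_)
  by_cases h0 : cn H S v = 0
  · simp [h0]
  · by_cases h1 : cn H S v = 1
    · simp [h1]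
    · simp only [h0, h1, if_false]
      omega

/-- The basic bound. -/
lemma Value.L0 (H : SimpleGraph V) (S : Finset V) (k : ℕ) (hk : S.card + wt H S / 2 ≤ k) :
    Value H k := by
  have hw := wt_eq H S
  refine Value.master S ((Finset.univ \ S).filter (fun v => 2 ≤ cn H S v))
    ((Finset.univ \ S).filter (fun v => cn H S v = 1))
    ((Finset.univ \ S).filter (fun v => cn H S v = 0)) ∅ 1 ?_ ?_ ?_ ?_ ?_ ?_ ?_ ?_ ?_ k ?_
  · intro v
    by_cases hv : v ∈ S
    · exact Or.inl hv
    · simp only [Finset.mem_filter, Finset.mem_sdiff, Finset.mem_univ, true_and, hv,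
        not_false_eq_true, Finset.notMem_empty, or_false, false_or]
      omega
  · rw [Finset.disjoint_left]
    intro v hv h
    simp [hv] at h
  · rw [Finset.disjoint_left]
    intro v hv h
    simp [hv] at h
  · rw [Finset.disjoint_left]
    intro v hv h
    rw [Finset.mem_filter] at hv h
    omega
  · exact Finset.disjoint_empty_right _
  · intro v hv
    rw [Finset.mem_filter] at hv
    exact cn_two hv.2
  · intro v hv
    rw [Finset.mem_filter] at hv
    exact cn_pos hv.2.ge
  · intro v hv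
    exact absurd hv (Finset.notMem_empty _)
  · intro v hv
    exact absurd hv (Finset.notMem_empty _)
  · rw [Finset.card_empty]
    omega

/-- degree -/
noncomputable def dg (H : SimpleGraph V) (v : V) : ℕ := cn H Finset.univ v

open Classical in
/-- Graphs with at most one vertex of degree one and no isolated vertices: value at most `n / 2`. -/
lemma Value.T2 (H : SimpleGraph V) (h1 : ∀ v, 1 ≤ dg H v)
    (h2 : ∀ v w, v ≠ w → 2 ≤ dg H v ∨ 2 ≤ dg H w) : Value H (Fintype.card V / 2) := by
  -- neighbourhood of a set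
  let N : Finset V → Finset V := fun I => Finset.univ.filter (fun w => ∃ v ∈ I, H.Adj v w)
  have hN : ∀ I w, w ∈ N I ↔ ∃ v ∈ I, H.Adj v w := by
    intro I w
    simp [N]
  obtain ⟨I, hI, hmax⟩ := Finset.exists_max_image
    ((Finset.univ : Finset (Finset V)).filter (fun I => ∀ v ∈ I, ∀ w ∈ I, ¬ H.Adj v w))
    (fun I => (I.card : ℤ) - (N I).card) ⟨∅, by simp⟩
  rw [Finset.mem_filter] at hI
  have hI := hI.2
  have hIA : (N I).card ≤ I.card := by
    have h := hmax ∅ (by simp)
    have h0 : N ∅ = ∅ := by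
      ext w
      rw [hN]
      simp
    rw [h0] at h
    simp only [Finset.card_empty] at h
    omega
  set A := N I with hA
  have hIAd : Disjoint I A := by
    rw [Finset.disjoint_left]
    intro v hv h
    obtain ⟨u, hu, huv⟩ := (hN I v).1 h
    exact hI u hu v hv huv
  set R := (Finset.univ \ (I ∪ A)) with hR
  have hRmem : ∀ v, v ∈ R ↔ v ∉ I ∧ v ∉ A := by
    intro v
    simp [hR]
  have hHall : ∀ J : Finset V, J ⊆ R → J.card ≤ (N J ∩ R).card := by
    intro J hJ
    set J₀ := J \ N J with hJ₀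
    set J₁ := J ∩ N J with hJ₁
    have hJ₀J : J₀ ⊆ J := Finset.sdiff_subset
    have e1 : J₀.card + J₁.card = J.card := by
      rw [hJ₀, hJ₁]
      exact Finset.card_sdiff_add_card_inter J (N J)
    -- independence
    have hind : ∀ v ∈ I ∪ J₀, ∀ w ∈ I ∪ J₀, ¬ H.Adj v w := by
      intro v hv w hw hvw
      rw [Finset.mem_union] at hv hw
      have hRJ : ∀ z, z ∈ J₀ → z ∉ I ∧ z ∉ A := fun z hz => (hRmem z).1 (hJ (hJ₀J hz))
      rcases hv with hv | hv
      · rcases hw with hw | hw
        · exact hI v hv w hw hvw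
        · exact (hRJ w hw).2 ((hN I w).2 ⟨v, hv, hvw⟩)
      · rcases hw with hw | hw
        · exact (hRJ v hv).2 ((hN I v).2 ⟨w, hw, hvw.symm⟩)
        · have : w ∈ N J := (hN J w).2 ⟨v, hJ₀J hv, hvw⟩
          exact (Finset.mem_sdiff.1 hw).2 this
    have hm := hmax (I ∪ J₀) (by simp only [Finset.mem_filter, Finset.mem_univ, true_and]; exact hind)
    have e2 : (I ∪ J₀).card = I.card + J₀.card := by
      apply Finset.card_union_of_disjoint
      rw [Finset.disjoint_left]
      intro v hv h
      exact ((hRmem v).1 (hJ (hJ₀J h))).1 hv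
    have e3 : N (I ∪ J₀) ⊆ A ∪ (N J₀ ∩ R) := by
      intro w hw
      rw [hN] at hw
      obtain ⟨v, hv, hvw⟩ := hw
      rw [Finset.mem_union] at hv
      rw [Finset.mem_union]
      by_cases hwA : w ∈ A
      · exact Or.inl hwA
      · right
        rcases hv with hv | hv
        · exact absurd ((hN I w).2 ⟨v, hv, hvw⟩) hwA
        · rw [Finset.mem_inter]
          refine ⟨(hN J₀ w).2 ⟨v, hv, hvw⟩, (hRmem w).2 ⟨?_, hwA⟩⟩
          intro hwI
          exact ((hRmem v).1 (hJ (hJ₀J hv))).2 ((hN I v).2 ⟨w, hwI, hvw.symm⟩)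
    have e4 := (Finset.card_le_card e3).trans (Finset.card_union_le _ _)
    have e5 : (N J₀ ∩ R) ∪ J₁ ⊆ N J ∩ R := by
      intro w hw
      rw [Finset.mem_union, Finset.mem_inter] at hw
      rw [Finset.mem_inter]
      rcases hw with ⟨hw, hw'⟩ | hw
      · obtain ⟨v, hv, hvw⟩ := (hN J₀ w).1 hw
        exact ⟨(hN J w).2 ⟨v, hJ₀J hv, hvw⟩, hw'⟩
      · rw [hJ₁, Finset.mem_inter] at hw
        exact ⟨hw.2, hJ hw.1⟩
    have e6 : ((N J₀ ∩ R) ∪ J₁).card = (N J₀ ∩ R).card + J₁.card := by
      apply Finset.card_union_of_disjoint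
      rw [Finset.disjoint_left]
      intro w hw h
      rw [Finset.mem_inter] at hw
      obtain ⟨v, hv, hvw⟩ := (hN J₀ w).1 hw.1
      rw [hJ₁, Finset.mem_inter] at h
      have : v ∈ N J := (hN J v).2 ⟨w, h.1, hvw.symm⟩
      exact (Finset.mem_sdiff.1 hv).2 this
    have e7 := Finset.card_le_card e5
    omega
  -- the permutation
  obtain ⟨f, hfinj, hf⟩ := (Finset.all_card_le_biUnion_card_iff_exists_injective
    (fun v : R => N {(v : V)} ∩ R)).1 (by
      intro s
      have h := hHall (s.map (Function.Embedding.subtype _)) (by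
        intro v hv
        rw [Finset.mem_map] at hv
        obtain ⟨w, -, rfl⟩ := hv
        exact w.2)
      rw [Finset.card_map] at h
      refine h.trans (Finset.card_le_card ?_)
      intro w hw
      rw [Finset.mem_inter, hN] at hw
      obtain ⟨⟨v, hv, hvw⟩, hw⟩ := hw
      rw [Finset.mem_map] at hv
      obtain ⟨v', hv', rfl⟩ := hv
      rw [Finset.mem_biUnion]
      refine ⟨v', hv', ?_⟩
      rw [Finset.mem_inter, hN]
      exact ⟨⟨v', Finset.mem_singleton_self _, hvw⟩, hw⟩)
  have hf1 : ∀ v : R, H.Adj v (f v) := by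
    intro v
    have h := hf v
    rw [Finset.mem_inter, hN] at h
    obtain ⟨⟨u, hu, h⟩, -⟩ := h
    rw [Finset.mem_singleton] at hu
    rw [hu] at h
    exact h
  have hf2 : ∀ v : R, f v ∈ R := fun v => (Finset.mem_inter.1 (hf v)).2
  let g : R → R := fun v => ⟨f v, hf2 v⟩
  have hginj : Function.Injective g := by
    intro v w h
    exact hfinj (congrArg Subtype.val h)
  have hgbij : Function.Bijective g := Finite.injective_iff_bijective.1 hginj
  let τ : Equiv.Perm R := Equiv.ofBijective g hgbij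
  let σ : Equiv.Perm V := Equiv.Perm.ofSubtype τ
  have hσ : ∀ v (hv : v ∈ R), σ v = f ⟨v, hv⟩ := by
    intro v hv
    have := Equiv.Perm.ofSubtype_apply_of_mem τ hv
    exact this
  have hcard : I.card + A.card + R.card = Fintype.card V := by
    rw [← Finset.card_union_of_disjoint hIAd, hR, ← Finset.card_univ]
    have := Finset.card_sdiff_add_card_eq_card (Finset.subset_univ (I ∪ A))
    omega
  have hdeg : ∀ v ∈ I, cn H A v = dg H v := by
    intro v hv
    unfold dg cn
    congr 1
    ext w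
    simp only [Finset.mem_filter, Finset.mem_univ, true_and, and_iff_right_iff_imp]
    intro h
    exact (hN I w).2 ⟨v, hv, h⟩
  have hL : (I.filter (fun v => ¬ 2 ≤ cn H A v)).card ≤ 1 := by
    rw [Finset.card_le_one]
    intro a ha b hb
    rw [Finset.mem_filter] at ha hb
    by_contra hab
    rw [hdeg a ha.1] at ha
    rw [hdeg b hb.1] at hb
    rcases h2 a b hab with h | h
    · exact ha.2 h
    · exact hb.2 h
  refine Value.master A (I.filter (fun v => 2 ≤ cn H A v)) (I.filter (fun v => ¬ 2 ≤ cn H A v))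
    ∅ R σ ?_ ?_ ?_ ?_ ?_ ?_ ?_ ?_ ?_ _ ?_
  · intro v
    by_cases hvI : v ∈ I
    · by_cases h : 2 ≤ cn H A v
      · exact Or.inr (Or.inl (Finset.mem_filter.2 ⟨hvI, h⟩))
      · exact Or.inr (Or.inr (Or.inl (Finset.mem_filter.2 ⟨hvI, h⟩)))
    · by_cases hvA : v ∈ A
      · exact Or.inl hvA
      · exact Or.inr (Or.inr (Or.inr (Or.inr ((hRmem v).2 ⟨hvI, hvA⟩))))
  · exact (hIAd.mono_left (Finset.filter_subset _ _)).symm
  · exact (hIAd.mono_left (Finset.filter_subset _ _)).symm
  · exact Finset.disjoint_filter_filter_not _ _ _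
  · rw [Finset.disjoint_left]
    intro v hv h
    exact ((hRmem v).1 h).2 hv
  · intro v hv
    rw [Finset.mem_filter] at hv
    exact cn_two hv.2
  · intro v hv
    rw [Finset.mem_filter] at hv
    refine cn_pos ?_
    rw [hdeg v hv.1]
    exact h1 v
  · intro v hv
    rw [hσ v hv]
    exact hf2 _
  · intro v hv
    rw [hσ v hv]
    exact hf1 ⟨v, hv⟩
  · rw [Finset.card_empty]
    omega

end Pool.Agent.V7H38.OG
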