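import Pool.Agent.V7H38.OG.Game

/-!
# Cycles in the oriented domination game
-/

set_option autoImplicit false
set_option linter.unusedSectionVars false
set_option linter.unusedVariables false

namespace Pool.Agent.V7H38.OG

variable {V : Type} [DecidableEq V]

/-- Tails of the edges `y (2j) y (2j+1)`. -/
lemma tails {H : SimpleGraph V} {A : Finset (V × V)} (hc : Complete H A) (y : ℕ → V) (t : ℕ)
    (hy : ∀ j, j < t → H.Adj (y (2 * j)) (y (2 * j + 1))) :
    ∃ S : Finset V, S.card ≤ t ∧ (∀ v ∈ S, ∃ i, i < 2 * t ∧ v = y i) ∧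
      ∀ i, i < 2 * t → y i ∉ S → ∃ u ∈ S, (u, y i) ∈ A := by
  induction t with
  | zero => exact ⟨∅, by simp, by simp, fun i hi => absurd hi (by omega)⟩
  | succ t ih =>
    obtain ⟨S, h1, h2, h3⟩ := ih (fun j hj => hy j (by omega))
    have key : ∃ a b, (a, b) ∈ A ∧ ((a = y (2 * t) ∧ b = y (2 * t + 1)) ∨
        (a = y (2 * t + 1) ∧ b = y (2 * t))) := by
      rcases hc _ _ (hy t (by omega)) with h | h
      · exact ⟨_, _, h, Or.inl ⟨rfl, rfl⟩⟩
      · exact ⟨_, _, h, Or.inr ⟨rfl, rfl⟩⟩
    obtain ⟨a, b, hab, hor⟩ := key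
    refine ⟨insert a S, (Finset.card_insert_le _ _).trans (by omega), ?_, ?_⟩
    · intro v hv
      rw [Finset.mem_insert] at hv
      rcases hv with rfl | hv
      · rcases hor with ⟨h, -⟩ | ⟨h, -⟩
        · exact ⟨2 * t, by omega, h⟩
        · exact ⟨2 * t + 1, by omega, h⟩
      · obtain ⟨i, hi, h⟩ := h2 v hv
        exact ⟨i, by omega, h⟩
    · intro i hi hiS
      rw [Finset.mem_insert, not_or] at hiS
      by_cases hlt : i < 2 * t
      · obtain ⟨u, hu, h⟩ := h3 i hlt hiS.2
        exact ⟨u, Finset.mem_insert_of_mem hu, h⟩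
      · have hi' : i = 2 * t ∨ i = 2 * t + 1 := by omega
        rcases hor with ⟨h, h'⟩ | ⟨h, h'⟩
        · rcases hi' with rfl | rfl
          · exact absurd h.symm hiS.1
          · exact ⟨a, Finset.mem_insert_self _ _, by rw [← h']; exact hab⟩
        · rcases hi' with rfl | rfl
          · exact ⟨a, Finset.mem_insert_self _ _, by rw [← h']; exact hab⟩
          · exact absurd h.symm hiS.1

section cyc

variable {H : SimpleGraph V} {m : ℕ} (x : ZMod m → V)

/-- edge `i` is oriented -/
def Ori (A : Finset (V × V)) (i : ZMod m) : Prop := (x i, x (i + 1)) ∈ A ∨ (x (i + 1), x i) ∈ A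

/-- vertex `i` is a source -/
def Src (A : Finset (V × V)) (i : ZMod m) : Prop := (x i, x (i + 1)) ∈ A ∧ (x i, x (i - 1)) ∈ A

/-- the edges of the cycle -/
def cycEdges : Set (Sym2 V) := {e | ∃ i, e = s(x i, x (i + 1))}

variable {x}

lemma Src.insert {A : Finset (V × V)} {i : ZMod m} (h : Src x A i) (a : V × V) : Src x (insert a A) i :=
  ⟨Finset.mem_insert_of_mem h.1, Finset.mem_insert_of_mem h.2⟩

lemma two_ne_zero_of_three_le (hm : 3 ≤ m) : (2 : ZMod m) ≠ 0 := by
  intro h
  have h2 : ((2 : ℕ) : ZMod m) = 0 := by exact_mod_cast h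
  rw [ZMod.natCast_eq_zero_iff] at h2
  have := Nat.le_of_dvd (by norm_num) h2
  omega

lemma one_ne_zero_of_three_le (hm : 3 ≤ m) : (1 : ZMod m) ≠ 0 := by
  intro h
  have h2 : ((1 : ℕ) : ZMod m) = 0 := by exact_mod_cast h
  rw [ZMod.natCast_eq_zero_iff] at h2
  have := Nat.le_of_dvd (by norm_num) h2
  omega

lemma edge_inj (hm : 3 ≤ m) (hx : Function.Injective x) {i j : ZMod m}
    (h : s(x i, x (i + 1)) = s(x j, x (j + 1))) : i = j := by
  rw [Sym2.eq_iff] at h
  rcases h with ⟨h1, -⟩ | ⟨h1, h2⟩
  · exact hx h1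
  · exfalso
    have h3 := hx h1
    have h4 := hx h2
    have h5 : (2 : ZMod m) = 0 := by
      have : i + 1 + 1 = i := by rw [h4, ← h3]
      have h6 : i + 2 = i + 0 := by rw [add_zero, ← one_add_one_eq_two, ← add_assoc, this]
      exact add_left_cancel h6
    exact two_ne_zero_of_three_le hm h5

/-- orientation status after a move -/
lemma ori_insert (hm : 3 ≤ m) (hx : Function.Injective x) {A : Finset (V × V)} {u v : V} {j : ZMod m}
    (huv : s(u, v) = s(x j, x (j + 1))) {i : ZMod m} (h : Ori x (insert (u, v) A) i) :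
    i = j ∨ Ori x A i := by
  unfold Ori at h
  rw [Finset.mem_insert, Finset.mem_insert] at h
  have key : ∀ a b, (a, b) = (u, v) → s(a, b) = s(x i, x (i + 1)) → i = j := by
    intro a b h1 h2
    rw [Prod.mk.injEq] at h1
    obtain ⟨rfl, rfl⟩ := h1
    exact edge_inj hm hx (h2.symm.trans huv)
  rcases h with (h | h) | (h | h)
  · exact Or.inl (key _ _ h rfl)
  · exact Or.inr (Or.inl h)
  · exact Or.inl (key _ _ h Sym2.eq_swap)
  · exact Or.inr (Or.inr h)

/-- The main step: if edge `i` is oriented and at most one other edge `j` is oriented then there is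
a source or Minimizer can create one. -/
lemma create (hm : 3 ≤ m) (hx : Function.Injective x) (hadj : ∀ i, H.Adj (x i) (x (i + 1)))
    {A : Finset (V × V)} {i j : ZMod m} (hi : Ori x A i) (hother : ∀ l, Ori x A l → l = i ∨ l = j) :
    (∃ l, Src x A l) ∨ ∃ a b, H.Adj a b ∧ s(a, b) ∈ cycEdges x ∧ (a, b) ∉ A ∧ (b, a) ∉ A ∧
      ∃ l, Src x (insert (a, b) A) l := by
  have h2 := two_ne_zero_of_three_le hm
  have h1 := one_ne_zero_of_three_le hm
  -- if `x l → x (l+1)` and edge `l - 1` is free
  have plus : ∀ l : ZMod m, (x l, x (l + 1)) ∈ A → ¬ Ori x A (l - 1) →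
      ∃ a b, H.Adj a b ∧ s(a, b) ∈ cycEdges x ∧ (a, b) ∉ A ∧ (b, a) ∉ A ∧
      ∃ l, Src x (insert (a, b) A) l := by
    intro l hl hf
    have e : l - 1 + 1 = l := by ring
    have hadj' : H.Adj (x l) (x (l - 1)) := by
      have := hadj (l - 1)
      rw [e] at this
      exact this.symm
    unfold Ori at hf
    rw [e, not_or] at hf
    refine ⟨x l, x (l - 1), hadj', ⟨l - 1, by rw [e]; exact Sym2.eq_swap⟩, hf.2, hf.1, l,
      Finset.mem_insert_of_mem hl, Finset.mem_insert_self _ _⟩
  -- if `x (l+1) → x l` and edge `l + 1` is free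
  have minus : ∀ l : ZMod m, (x (l + 1), x l) ∈ A → ¬ Ori x A (l + 1) →
      ∃ a b, H.Adj a b ∧ s(a, b) ∈ cycEdges x ∧ (a, b) ∉ A ∧ (b, a) ∉ A ∧
      ∃ l, Src x (insert (a, b) A) l := by
    intro l hl hf
    have e : l + 1 - 1 = l := by ring
    unfold Ori at hf
    rw [not_or] at hf
    refine ⟨x (l + 1), x (l + 1 + 1), hadj (l + 1), ⟨l + 1, rfl⟩, hf.1, hf.2, l + 1,
      Finset.mem_insert_self _ _, ?_⟩
    rw [e]
    exact Finset.mem_insert_of_mem hl
  have e1 : ∀ l : ZMod m, l - 1 ≠ l := by
    intro l h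
    apply h1
    have : l - (l - 1) = l - l := by rw [h]
    simpa using this
  have e2 : ∀ l : ZMod m, l - 1 - 1 ≠ l := by
    intro l h
    apply h2
    have : l - (l - 1 - 1) = l - l := by rw [h]
    have h3 : l - (l - 1 - 1) = 2 := by ring
    rw [h3, sub_self] at this
    exact this
  have e3 : ∀ l : ZMod m, l + 1 ≠ l := by
    intro l h
    apply h1
    simpa using h
  have e4 : ∀ l : ZMod m, l + 1 + 1 ≠ l := by
    intro l h
    apply h2
    have h3 : l + 1 + 1 - l = 2 := by ring
    rw [h, sub_self] at h3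
    exact h3.symm
  rcases hi with hi | hi
  · by_cases hf : Ori x A (i - 1)
    · have e : i - 1 + 1 = i := by ring
      have hj : i - 1 = j := (hother _ hf).resolve_left (e1 i)
      unfold Ori at hf
      rw [e] at hf
      rcases hf with hf | hf
      · right
        apply plus (i - 1)
        · rw [e]; exact hf
        · intro h
          rcases hother _ h with h | h
          · exact e2 i h
          · rw [← hj] at h
            exact e1 _ h
      · exact Or.inl ⟨i, hi, hf⟩
    · exact Or.inr (plus i hi hf)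
  · by_cases hf : Ori x A (i + 1)
    · have hj : i + 1 = j := (hother _ hf).resolve_left (e3 i)
      rcases hf with hf | hf
      · left
        refine ⟨i + 1, hf, ?_⟩
        have e : i + 1 - 1 = i := by ring
        rw [e]
        exact hi
      · right
        apply minus (i + 1) hf
        intro h
        rcases hother _ h with h | h
        · exact e4 i h
        · rw [← hj] at h
          exact e3 _ h
    · exact Or.inr (minus i hi hf)

/-- In a cycle Minimizer can force a source. -/
lemma Force.source (hm : 3 ≤ m) (hx : Function.Injective x) (hadj : ∀ i, H.Adj (x i) (x (i + 1))) :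
    Force H (cycEdges x) (fun A => ∃ l, Src x A l) := by
  refine ⟨fun A => (∃ l, Src x A l) ∨ ∀ i j, Ori x A i → Ori x A j → i = j,
    ⟨?_, ?_, ?_, ?_⟩, ?_⟩
  · intro A u v huv hA
    rcases hA with ⟨l, hl⟩ | hA
    · exact Or.inl ⟨l, hl.insert _⟩
    · right
      have key : ∀ i, Ori x (insert (u, v) A) i → Ori x A i := by
        intro i hi
        unfold Ori at hi
        rw [Finset.mem_insert, Finset.mem_insert] at hi
        rcases hi with (h | h) | (h | h)
        · exfalso
          rw [Prod.mk.injEq] at h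
          exact huv ⟨i, by rw [h.1, h.2]⟩
        · exact Or.inl h
        · exfalso
          rw [Prod.mk.injEq] at h
          exact huv ⟨i, by rw [h.1, h.2]; exact Sym2.eq_swap⟩
        · exact Or.inr h
      exact fun i j hi hj => hA i j (key i hi) (key j hj)
  · right
    intro i j hi
    rcases hi with h | h
    · exact absurd h (Finset.notMem_empty _)
    · exact absurd h (Finset.notMem_empty _)
  · intro A u v hA huv h1 h2 h3 h4
    rcases h4 with ⟨l, hl⟩ | h4
    · exact Or.inl (Or.inl ⟨l, hl.insert _⟩)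
    · obtain ⟨j, hj⟩ := h3
      by_cases hi : ∃ i, Ori x A i
      · obtain ⟨i, hi⟩ := hi
        have hi' : Ori x (insert (u, v) A) i := by
          rcases hi with h | h
          · exact Or.inl (Finset.mem_insert_of_mem h)
          · exact Or.inr (Finset.mem_insert_of_mem h)
        have hoth : ∀ l, Ori x (insert (u, v) A) l → l = i ∨ l = j := by
          intro l hl
          rcases ori_insert hm hx hj hl with h | h
          · exact Or.inr h
          · exact Or.inl (h4 l i h hi)
        rcases create (H := H) hm hx hadj hi' hoth with ⟨l, hl⟩ | ⟨a, b, ha, hb, hc, hd, l, hl⟩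
        · exact Or.inl (Or.inl ⟨l, hl⟩)
        · exact Or.inr ⟨a, b, ha, hb, hc, hd, Or.inl ⟨l, hl⟩⟩
      · push Not at hi
        left
        right
        intro a b ha hb
        have h5 := (ori_insert hm hx hj ha).resolve_right (hi a)
        have h6 := (ori_insert hm hx hj hb).resolve_right (hi b)
        rw [h5, h6]
  · intro A u v hA huv h1 h2 h3 h4
    rcases h4 with ⟨l, hl⟩ | h4
    · exact ⟨u, v, huv, h3, h1, h2, Or.inl ⟨l, hl.insert _⟩⟩
    · obtain ⟨j, hj⟩ := h3
      by_cases hi : ∃ i, Ori x A i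
      · obtain ⟨i, hi⟩ := hi
        rcases create (H := H) hm hx hadj hi (fun l hl => Or.inl (h4 l i hl hi) : ∀ l, Ori x A l → l = i ∨ l = i)
          with ⟨l, hl⟩ | ⟨a, b, ha, hb, hc, hd, l, hl⟩
        · exact ⟨u, v, huv, ⟨j, hj⟩, h1, h2, Or.inl ⟨l, hl.insert _⟩⟩
        · exact ⟨a, b, ha, hb, hc, hd, Or.inl ⟨l, hl⟩⟩
      · push Not at hi
        refine ⟨u, v, huv, ⟨j, hj⟩, h1, h2, Or.inr ?_⟩
        intro a b ha hb
        have h5 := (ori_insert hm hx hj ha).resolve_right (hi a)
        have h6 := (ori_insert hm hx hj hb).resolve_right (hi b)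
        rw [h5, h6]
  · rintro A - hc (h | h)
    · exact h
    · exfalso
      have h0 : (0 : ZMod m) = 1 := h 0 1 (hc _ _ (hadj 0)) (hc _ _ (hadj 1))
      exact one_ne_zero_of_three_le hm h0.symm

end cyc

end Pool.Agent.V7H38.OG
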