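import Mathlib

/-!
# The oriented domination game: unit strategies

`Value H k` says that Minimizer (moving first) can force domination number at most `k`.
A strategy is described by a set `E` of edges and a property `Safe` of positions which
Minimizer can maintain by answering inside `E`.
-/

set_option autoImplicit false
set_option linter.unusedSectionVars false
set_option linter.unusedVariables false

namespace Pool.Agent.V7H38.OG

variable {V : Type} [DecidableEq V]

/-- all edges are oriented -/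
def Complete (H : SimpleGraph V) (A : Finset (V × V)) : Prop :=
  ∀ u v : V, H.Adj u v → (u, v) ∈ A ∨ (v, u) ∈ A

/-- `A` is a partial orientation of `H` -/
def Valid (H : SimpleGraph V) (A : Finset (V × V)) : Prop :=
  ∀ u v : V, (u, v) ∈ A → H.Adj u v ∧ (v, u) ∉ A

/-- Minimizer can force domination number at most `k`. -/
def Value (H : SimpleGraph V) (k : ℕ) : Prop :=
  ∃ P : Set (Finset (V × V)), (∅ : Finset (V × V)) ∈ P ∧ ∀ A ∈ P,
    ((∀ u v : V, H.Adj u v → (u, v) ∈ A ∨ (v, u) ∈ A) →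
        ∃ S : Finset V, S.card ≤ k ∧ ∀ v : V, v ∉ S → ∃ u ∈ S, (u, v) ∈ A) ∧
    ((¬ ∀ u v : V, H.Adj u v → (u, v) ∈ A ∨ (v, u) ∈ A) → Even A.card →
        ∃ u v : V, H.Adj u v ∧ (u, v) ∉ A ∧ (v, u) ∉ A ∧ insert (u, v) A ∈ P) ∧
    ((¬ ∀ u v : V, H.Adj u v → (u, v) ∈ A ∨ (v, u) ∈ A) → Odd A.card →
        ∀ u v : V, H.Adj u v → (u, v) ∉ A → (v, u) ∉ A → insert (u, v) A ∈ P)

/-- A unit: edges `E` and a property `Safe` depending only on these edges. -/
structure IsUnitGame (H : SimpleGraph V) (E : Set (Sym2 V)) (Safe : Finset (V × V) → Prop) : Prop where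
  loc : ∀ A u v, s(u, v) ∉ E → Safe A → Safe (insert (u, v) A)
  start : Safe ∅
  reply : ∀ A u v, Valid H A → H.Adj u v → (u, v) ∉ A → (v, u) ∉ A → s(u, v) ∈ E → Safe A →
    Safe (insert (u, v) A) ∨ ∃ a b, H.Adj a b ∧ s(a, b) ∈ E ∧ (a, b) ∉ insert (u, v) A ∧
      (b, a) ∉ insert (u, v) A ∧ Safe (insert (a, b) (insert (u, v) A))
  move : ∀ A u v, Valid H A → H.Adj u v → (u, v) ∉ A → (v, u) ∉ A → s(u, v) ∈ E → Safe A →
    ∃ a b, H.Adj a b ∧ s(a, b) ∈ E ∧ (a, b) ∉ A ∧ (b, a) ∉ A ∧ Safe (insert (a, b) A)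

/-- Minimizer can force `Φ` by playing inside `E`. -/
def Force (H : SimpleGraph V) (E : Set (Sym2 V)) (Φ : Finset (V × V) → Prop) : Prop :=
  ∃ Safe, IsUnitGame H E Safe ∧ ∀ A, Valid H A → Complete H A → Safe A → Φ A

lemma Force.trivial (H : SimpleGraph V) : Force H ∅ (fun _ => True) :=
  ⟨fun _ => True, ⟨fun _ _ _ _ _ => True.intro, True.intro,
    fun _ _ _ _ _ _ _ h _ => absurd h (Set.notMem_empty _),
    fun _ _ _ _ _ _ _ h _ => absurd h (Set.notMem_empty _)⟩, fun _ _ _ _ => True.intro⟩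

lemma Force.mono {H : SimpleGraph V} {E E' : Set (Sym2 V)} {Φ Φ' : Finset (V × V) → Prop}
    (h : Force H E Φ) (hE : E ⊆ E') (hΦ : ∀ A, Valid H A → Complete H A → Φ A → Φ' A) :
    Force H E' Φ' := by
  obtain ⟨Safe, hU, hf⟩ := h
  refine ⟨Safe, ⟨?_, hU.start, ?_, ?_⟩, fun A h1 h2 h3 => hΦ A h1 h2 (hf A h1 h2 h3)⟩
  · intro A u v h1 h2
    exact hU.loc A u v (fun h => h1 (hE h)) h2
  · intro A u v hA hadj h1 h2 h3 h4
    by_cases h5 : s(u, v) ∈ E
    · rcases hU.reply A u v hA hadj h1 h2 h5 h4 with h | ⟨a, b, ha, hb, hc, hd, he⟩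
      · exact Or.inl h
      · exact Or.inr ⟨a, b, ha, hE hb, hc, hd, he⟩
    · exact Or.inl (hU.loc A u v h5 h4)
  · intro A u v hA hadj h1 h2 h3 h4
    by_cases h5 : s(u, v) ∈ E
    · obtain ⟨a, b, ha, hb, hc, hd, he⟩ := hU.move A u v hA hadj h1 h2 h5 h4
      exact ⟨a, b, ha, hE hb, hc, hd, he⟩
    · exact ⟨u, v, hadj, h3, h1, h2, hU.loc A u v h5 h4⟩

lemma Force.and {H : SimpleGraph V} {E₁ E₂ : Set (Sym2 V)} {Φ₁ Φ₂ : Finset (V × V) → Prop}
    (h₁ : Force H E₁ Φ₁) (h₂ : Force H E₂ Φ₂) (hd : Disjoint E₁ E₂) :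
    Force H (E₁ ∪ E₂) (fun A => Φ₁ A ∧ Φ₂ A) := by
  obtain ⟨S₁, U₁, f₁⟩ := h₁
  obtain ⟨S₂, U₂, f₂⟩ := h₂
  rw [Set.disjoint_left] at hd
  refine ⟨fun A => S₁ A ∧ S₂ A, ⟨?_, ⟨U₁.start, U₂.start⟩, ?_, ?_⟩,
    fun A hv hc hs => ⟨f₁ A hv hc hs.1, f₂ A hv hc hs.2⟩⟩
  · intro A u v h1 h2
    exact ⟨U₁.loc A u v (fun h => h1 (Or.inl h)) h2.1, U₂.loc A u v (fun h => h1 (Or.inr h)) h2.2⟩
  · intro A u v hA hadj h1 h2 h3 h4
    rcases h3 with h3 | h3
    · have h5 : s(u, v) ∉ E₂ := hd h3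
      rcases U₁.reply A u v hA hadj h1 h2 h3 h4.1 with h | ⟨a, b, ha, hb, hc, hd', he⟩
      · exact Or.inl ⟨h, U₂.loc A u v h5 h4.2⟩
      · exact Or.inr ⟨a, b, ha, Or.inl hb, hc, hd', he,
          U₂.loc _ a b (hd hb) (U₂.loc A u v h5 h4.2)⟩
    · have h5 : s(u, v) ∉ E₁ := fun h => hd h h3
      rcases U₂.reply A u v hA hadj h1 h2 h3 h4.2 with h | ⟨a, b, ha, hb, hc, hd', he⟩
      · exact Or.inl ⟨U₁.loc A u v h5 h4.1, h⟩
      · exact Or.inr ⟨a, b, ha, Or.inr hb, hc, hd',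
          U₁.loc _ a b (fun h => hd h hb) (U₁.loc A u v h5 h4.1), he⟩
  · intro A u v hA hadj h1 h2 h3 h4
    rcases h3 with h3 | h3
    · obtain ⟨a, b, ha, hb, hc, hd', he⟩ := U₁.move A u v hA hadj h1 h2 h3 h4.1
      exact ⟨a, b, ha, Or.inl hb, hc, hd', he, U₂.loc A a b (hd hb) h4.2⟩
    · obtain ⟨a, b, ha, hb, hc, hd', he⟩ := U₂.move A u v hA hadj h1 h2 h3 h4.2
      exact ⟨a, b, ha, Or.inr hb, hc, hd', U₁.loc A a b (fun h => hd h hb) h4.1, he⟩

lemma Force.finset {H : SimpleGraph V} {ι : Type} [DecidableEq ι] (s : Finset ι)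
    (E : ι → Set (Sym2 V)) (Φ : ι → Finset (V × V) → Prop)
    (hd : ∀ i ∈ s, ∀ j ∈ s, i ≠ j → Disjoint (E i) (E j)) (h : ∀ i ∈ s, Force H (E i) (Φ i)) :
    Force H (⋃ i ∈ s, E i) (fun A => ∀ i ∈ s, Φ i A) := by
  induction s using Finset.induction_on with
  | empty => exact (Force.trivial H).mono (Set.empty_subset _) (fun A _ _ _ i hi => absurd hi (by simp))
  | insert a s ha ih =>
    have h1 := ih (fun i hi j hj => hd i (Finset.mem_insert_of_mem hi) j (Finset.mem_insert_of_mem hj))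
      (fun i hi => h i (Finset.mem_insert_of_mem hi))
    have h2 := h a (Finset.mem_insert_self a s)
    refine (h2.and h1 ?_).mono ?_ ?_
    · rw [Set.disjoint_left]
      intro e he he'
      rw [Set.mem_iUnion₂] at he'
      obtain ⟨i, hi, he'⟩ := he'
      have hai : a ≠ i := fun h => ha (h ▸ hi)
      exact Set.disjoint_left.1 (hd a (Finset.mem_insert_self a s) i (Finset.mem_insert_of_mem hi) hai) he he'
    · rintro e (he | he)
      · exact Set.mem_iUnion₂.2 ⟨a, Finset.mem_insert_self a s, he⟩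
      · rw [Set.mem_iUnion₂] at he
        obtain ⟨i, hi, he⟩ := he
        exact Set.mem_iUnion₂.2 ⟨i, Finset.mem_insert_of_mem hi, he⟩
    · intro A _ _ hA i hi
      rw [Finset.mem_insert] at hi
      rcases hi with rfl | hi
      · exact hA.1
      · exact hA.2 i hi

lemma valid_insert {H : SimpleGraph V} {A : Finset (V × V)} {u v : V} (hA : Valid H A)
    (hadj : H.Adj u v) (h1 : (v, u) ∉ A) : Valid H (insert (u, v) A) := by
  intro a b hab
  rw [Finset.mem_insert, Prod.mk.injEq] at hab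
  rw [Finset.mem_insert, Prod.mk.injEq]
  rcases hab with ⟨rfl, rfl⟩ | hab
  · refine ⟨hadj, ?_⟩
    rintro (⟨h, -⟩ | h)
    · exact hadj.ne h.symm
    · exact h1 h
  · refine ⟨(hA a b hab).1, ?_⟩
    rintro (⟨rfl, rfl⟩ | h)
    · exact h1 hab
    · exact (hA a b hab).2 h

lemma exists_free {H : SimpleGraph V} {A : Finset (V × V)} (h : ¬ Complete H A) :
    ∃ u v, H.Adj u v ∧ (u, v) ∉ A ∧ (v, u) ∉ A := by
  unfold Complete at h
  push Not at h
  obtain ⟨u, v, h1, h2, h3⟩ := h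
  exact ⟨u, v, h1, h2, h3⟩

/-- The general game lemma: `M` is a property preserved by all moves which holds at the beginning
or after some first move outside of `E`. -/
lemma Value.general {H : SimpleGraph V} {E : Set (Sym2 V)} {Φ : Finset (V × V) → Prop} {k : ℕ}
    (hF : Force H E Φ) (M : Finset (V × V) → Prop) (hM : ∀ A a, M A → M (insert a A))
    (hstart : M ∅ ∨ ∃ a b, H.Adj a b ∧ s(a, b) ∉ E ∧ M {(a, b)})
    (hk : ∀ A, Valid H A → Complete H A → M A → Φ A →
      ∃ S : Finset V, S.card ≤ k ∧ ∀ v : V, v ∉ S → ∃ u ∈ S, (u, v) ∈ A) : Value H k := by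
  obtain ⟨Safe, hU, hf⟩ := hF
  -- a good move from a safe position
  have hgood : ∀ A, Valid H A → ¬ Complete H A → Safe A →
      ∃ a b, H.Adj a b ∧ (a, b) ∉ A ∧ (b, a) ∉ A ∧ Safe (insert (a, b) A) := by
    intro A hA hc hs
    obtain ⟨u, v, h1, h2, h3⟩ := exists_free hc
    by_cases h4 : s(u, v) ∈ E
    · obtain ⟨a, b, ha, -, hb, hc, hd⟩ := hU.move A u v hA h1 h2 h3 h4 hs
      exact ⟨a, b, ha, hb, hc, hd⟩
    · exact ⟨u, v, h1, h2, h3, hU.loc A u v h4 hs⟩
  let P : Set (Finset (V × V)) := {A | Valid H A ∧ (Odd A.card → Safe A ∧ M A) ∧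
    (Even A.card → Complete H A → Safe A ∧ M A) ∧
    (Even A.card → ¬ Complete H A → ∃ a b, H.Adj a b ∧ (a, b) ∉ A ∧ (b, a) ∉ A ∧
      Safe (insert (a, b) A) ∧ M (insert (a, b) A))}
  refine ⟨P, ?_, ?_⟩
  · refine ⟨fun u v h => absurd h (Finset.notMem_empty _), ?_, ?_, ?_⟩
    · intro h
      rw [Finset.card_empty] at h
      exact absurd h (by decide)
    · intro _ hc
      rcases hstart with h | ⟨a, b, h1, -, -⟩
      · exact ⟨hU.start, h⟩
      · rcases hc a b h1 with h | h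
        · exact absurd h (Finset.notMem_empty _)
        · exact absurd h (Finset.notMem_empty _)
    · intro _ hc
      rcases hstart with h | ⟨a, b, h1, h2, h3⟩
      · obtain ⟨a, b, h1, h2, h3, h4⟩ := hgood ∅ (fun u v h => absurd h (Finset.notMem_empty _)) hc
          hU.start
        exact ⟨a, b, h1, h2, h3, h4, hM _ _ h⟩
      · exact ⟨a, b, h1, Finset.notMem_empty _, Finset.notMem_empty _, hU.loc ∅ a b h2 hU.start, h3⟩
  · rintro A ⟨hA, h1, h2, h3⟩
    refine ⟨?_, ?_, ?_⟩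
    · intro hc
      have hc' : Complete H A := hc
      have hs : Safe A ∧ M A := by
        rcases Nat.even_or_odd A.card with h | h
        · exact h2 h hc'
        · exact h1 h
      exact hk A hA hc' hs.2 (hf A hA hc' hs.1)
    · intro hc he
      obtain ⟨a, b, ha, hb, hc', hd, he'⟩ := h3 he hc
      refine ⟨a, b, ha, hb, hc', valid_insert hA ha hc', fun _ => ⟨hd, he'⟩, ?_, ?_⟩
      · intro h
        rw [Finset.card_insert_of_notMem hb] at h
        exact absurd h (by rw [Nat.not_even_iff_odd]; exact he.add_one)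
      · intro h
        rw [Finset.card_insert_of_notMem hb] at h
        exact absurd h (by rw [Nat.not_even_iff_odd]; exact he.add_one)
    · intro hc ho u v hadj h4 h5
      obtain ⟨hs, hm⟩ := h1 ho
      have hv := valid_insert hA hadj h5
      have hm' := hM A (u, v) hm
      refine ⟨hv, ?_, ?_, ?_⟩
      · intro h
        rw [Finset.card_insert_of_notMem h4] at h
        exact absurd h (by rw [Nat.not_odd_iff_even]; exact ho.add_one)
      · intro _ hc'
        refine ⟨?_, hm'⟩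
        by_cases h6 : s(u, v) ∈ E
        · rcases hU.reply A u v hA hadj h4 h5 h6 hs with h | ⟨a, b, ha, -, hb, hd, -⟩
          · exact h
          · rcases hc' a b ha with h | h
            · exact absurd h hb
            · exact absurd h hd
        · exact hU.loc A u v h6 hs
      · intro _ hc'
        by_cases h6 : s(u, v) ∈ E
        · rcases hU.reply A u v hA hadj h4 h5 h6 hs with h | ⟨a, b, ha, -, hb, hd, he⟩
          · obtain ⟨a, b, ha, hb, hd, he⟩ := hgood _ hv hc' h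
            exact ⟨a, b, ha, hb, hd, he, hM _ _ hm'⟩
          · exact ⟨a, b, ha, hb, hd, he, hM _ _ hm'⟩
        · obtain ⟨a, b, ha, hb, hd, he⟩ := hgood _ hv hc' (hU.loc A u v h6 hs)
          exact ⟨a, b, ha, hb, hd, he, hM _ _ hm'⟩

lemma Value.of_force {H : SimpleGraph V} {E : Set (Sym2 V)} {Φ : Finset (V × V) → Prop} {k : ℕ}
    (hF : Force H E Φ)
    (hk : ∀ A, Valid H A → Complete H A → Φ A →
      ∃ S : Finset V, S.card ≤ k ∧ ∀ v : V, v ∉ S → ∃ u ∈ S, (u, v) ∈ A) : Value H k :=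
  Value.general hF (fun _ => True) (fun _ _ _ => True.intro) (Or.inl True.intro)
    (fun A h1 h2 _ h3 => hk A h1 h2 h3)

lemma Value.of_force_first {H : SimpleGraph V} {E : Set (Sym2 V)} {Φ : Finset (V × V) → Prop}
    {k : ℕ} (hF : Force H E Φ) (a b : V) (hab : H.Adj a b) (hE : s(a, b) ∉ E)
    (hk : ∀ A, Valid H A → Complete H A → (a, b) ∈ A → Φ A →
      ∃ S : Finset V, S.card ≤ k ∧ ∀ v : V, v ∉ S → ∃ u ∈ S, (u, v) ∈ A) : Value H k :=
  Value.general hF (fun A => (a, b) ∈ A) (fun A c h => Finset.mem_insert_of_mem h)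
    (Or.inr ⟨a, b, hab, hE, Finset.mem_singleton_self _⟩) hk

lemma Value.mono {H : SimpleGraph V} {k l : ℕ} (h : Value H k) (hkl : k ≤ l) : Value H l := by
  obtain ⟨P, h0, hP⟩ := h
  refine ⟨P, h0, fun A hA => ⟨fun hc => ?_, (hP A hA).2⟩⟩
  obtain ⟨S, hS, hS'⟩ := (hP A hA).1 hc
  exact ⟨S, hS.trans hkl, hS'⟩

/-- Of two different edges Minimizer can orient at least one as desired. -/
lemma Force.pair {H : SimpleGraph V} {a b c d : V} (hab : H.Adj a b) (hcd : H.Adj c d)
    (hne : s(a, b) ≠ s(c, d)) :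
    Force H {s(a, b), s(c, d)} (fun A => (a, b) ∈ A ∨ (c, d) ∈ A) := by
  have hne1 : (c, d) ≠ (b, a) := by
    intro h
    rw [Prod.mk.injEq] at h
    obtain ⟨rfl, rfl⟩ := h
    exact hne Sym2.eq_swap
  have hne2 : (c, d) ≠ (a, b) := by
    intro h
    rw [Prod.mk.injEq] at h
    obtain ⟨rfl, rfl⟩ := h
    exact hne rfl
  have hne3 : (d, c) ≠ (b, a) := by
    intro h
    rw [Prod.mk.injEq] at h
    obtain ⟨rfl, rfl⟩ := h
    exact hne rfl
  have hne4 : (d, c) ≠ (a, b) := by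
    intro h
    rw [Prod.mk.injEq] at h
    obtain ⟨rfl, rfl⟩ := h
    exact hne Sym2.eq_swap
  refine ⟨fun A => (a, b) ∈ A ∨ (c, d) ∈ A ∨
    ((a, b) ∉ A ∧ (b, a) ∉ A ∧ (c, d) ∉ A ∧ (d, c) ∉ A), ⟨?_, ?_, ?_, ?_⟩, ?_⟩
  · intro A u v huv hA
    have h1 : ∀ x y, s(x, y) ∈ ({s(a, b), s(c, d)} : Set (Sym2 V)) → (x, y) ≠ (u, v) := by
      intro x y hxy h
      rw [Prod.mk.injEq] at h
      obtain ⟨rfl, rfl⟩ := h
      exact huv hxy
    rcases hA with h | h | ⟨h2, h3, h4, h5⟩
    · exact Or.inl (Finset.mem_insert_of_mem h)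
    · exact Or.inr (Or.inl (Finset.mem_insert_of_mem h))
    · refine Or.inr (Or.inr ⟨?_, ?_, ?_, ?_⟩)
      · rw [Finset.mem_insert]
        rintro (h | h)
        · exact h1 a b (Or.inl rfl) h
        · exact h2 h
      · rw [Finset.mem_insert]
        rintro (h | h)
        · exact h1 b a (Or.inl Sym2.eq_swap) h
        · exact h3 h
      · rw [Finset.mem_insert]
        rintro (h | h)
        · exact h1 c d (Or.inr rfl) h
        · exact h4 h
      · rw [Finset.mem_insert]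
        rintro (h | h)
        · exact h1 d c (Or.inr Sym2.eq_swap) h
        · exact h5 h
  · exact Or.inr (Or.inr ⟨Finset.notMem_empty _, Finset.notMem_empty _, Finset.notMem_empty _,
      Finset.notMem_empty _⟩)
  · intro A u v hA hadj h1 h2 h3 h4
    rcases h4 with h | h | ⟨h5, h6, h7, h8⟩
    · exact Or.inl (Or.inl (Finset.mem_insert_of_mem h))
    · exact Or.inl (Or.inr (Or.inl (Finset.mem_insert_of_mem h)))
    · rcases h3 with h3 | h3
      · rw [Sym2.eq_iff] at h3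
        rcases h3 with ⟨rfl, rfl⟩ | ⟨rfl, rfl⟩
        · exact Or.inl (Or.inl (Finset.mem_insert_self _ _))
        · refine Or.inr ⟨c, d, hcd, Or.inr rfl, ?_, ?_, Or.inr (Or.inl (Finset.mem_insert_self _ _))⟩
          · rw [Finset.mem_insert]
            rintro (h | h)
            · exact hne1 h
            · exact h7 h
          · rw [Finset.mem_insert]
            rintro (h | h)
            · exact hne3 h
            · exact h8 h
      · rw [Set.mem_singleton_iff, Sym2.eq_iff] at h3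
        rcases h3 with ⟨rfl, rfl⟩ | ⟨rfl, rfl⟩
        · exact Or.inl (Or.inr (Or.inl (Finset.mem_insert_self _ _)))
        · refine Or.inr ⟨a, b, hab, Or.inl rfl, ?_, ?_, Or.inl (Finset.mem_insert_self _ _)⟩
          · rw [Finset.mem_insert]
            rintro (h | h)
            · exact hne4 h.symm
            · exact h5 h
          · rw [Finset.mem_insert]
            rintro (h | h)
            · exact hne3 h.symm
            · exact h6 h
  · intro A u v hA hadj h1 h2 h3 h4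
    rcases h4 with h | h | ⟨h5, h6, h7, h8⟩
    · exact ⟨u, v, hadj, h3, h1, h2, Or.inl (Finset.mem_insert_of_mem h)⟩
    · exact ⟨u, v, hadj, h3, h1, h2, Or.inr (Or.inl (Finset.mem_insert_of_mem h))⟩
    · exact ⟨a, b, hab, Or.inl rfl, h5, h6, Or.inl (Finset.mem_insert_self _ _)⟩
  · rintro A - hc (h | h | ⟨h5, h6, -, -⟩)
    · exact Or.inl h
    · exact Or.inr h
    · rcases hc a b hab with h | h
      · exact absurd h h5
      · exact absurd h h6

end Pool.Agent.V7H38.OG
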