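import Pool.Agent.V7H38.OG.Average

/-!
# Numerical facts
-/

set_option autoImplicit false

namespace Pool.Agent.V7H38.OG

lemma ch1 (a : ℕ) : ((a.choose 1 : ℕ) : ℤ) = a := by simp

lemma ch2 (a : ℕ) : (2 : ℤ) * ((a.choose 2 : ℕ) : ℤ) = a * (a - 1) := by
  induction a with
  | zero => simp
  | succ a ih =>
    rw [Nat.choose_succ_succ' a 1]
    have := ch1 a
    push_cast at *
    linear_combination ih + 2 * this

lemma ch3 (a : ℕ) : (6 : ℤ) * ((a.choose 3 : ℕ) : ℤ) = a * (a - 1) * (a - 2) := by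
  induction a with
  | zero => simp
  | succ a ih =>
    rw [Nat.choose_succ_succ' a 2]
    have := ch2 a
    push_cast at *
    linear_combination ih + 3 * this

lemma ch4 (a : ℕ) : (24 : ℤ) * ((a.choose 4 : ℕ) : ℤ) = a * (a - 1) * (a - 2) * (a - 3) := by
  induction a with
  | zero => simp
  | succ a ih =>
    rw [Nat.choose_succ_succ' a 3]
    have := ch3 a
    push_cast at *
    linear_combination ih + 4 * this

lemma ch5 (a : ℕ) : (120 : ℤ) * ((a.choose 5 : ℕ) : ℤ) = a * (a - 1) * (a - 2) * (a - 3) * (a - 4) := by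
  induction a with
  | zero => simp
  | succ a ih =>
    rw [Nat.choose_succ_succ' a 4]
    have := ch4 a
    push_cast at *
    linear_combination ih + 5 * this

lemma pos6 (a b c d e f g x : ℤ) (hx : 0 ≤ x) (ha : 0 < a) (hb : 0 ≤ b) (hc : 0 ≤ c) (hd : 0 ≤ d)
    (he : 0 ≤ e) (hf : 0 ≤ f) (hg : 0 ≤ g) :
    0 < a + b * x ^ 1 + c * x ^ 2 + d * x ^ 3 + e * x ^ 4 + f * x ^ 5 + g * x ^ 6 := by
  positivity

/-- 120 times `WW 4` -/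
lemma ww4 (N k : ℕ) (hk : k ≤ N) : (120 : ℤ) * ((WW 4 N k : ℕ) : ℤ) =
    2 * ((N - k : ℤ) * (N - k - 1) * (N - k - 2) * (N - k - 3) * (N - k - 4)) +
      5 * k * ((N - k : ℤ) * (N - k - 1) * (N - k - 2) * (N - k - 3)) +
    (2 * ((k : ℤ) * (k - 1) * (k - 2) * (k - 3) * (k - 4)) +
      5 * (N - k) * ((k : ℤ) * (k - 1) * (k - 2) * (k - 3))) := by
  unfold WW
  have h1 := ch5 (N - k)
  have h2 := ch4 (N - k)
  have h3 := ch5 k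
  have h4 := ch4 k
  rw [Nat.cast_sub hk] at h1 h2
  push_cast [Nat.cast_sub hk]
  linear_combination 2 * h1 + 5 * k * h2 + 2 * h3 + 5 * ((N : ℤ) - k) * h4


lemma numB17 (t : ℕ) : WW 4 (6 * t + 16) 1 + (6 * t + 16) * WW 4 (6 * t + 16) (t + 5) <
    (8 * t + 10) * (6 * t + 17).choose 5 := by
  have h1 := ww4 (6 * t + 16) 1 (by omega)
  have h2 := ww4 (6 * t + 16) (t + 5) (by omega)
  have h3 := ch5 (6 * t + 17)
  zify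
  push_cast at *
  have key : (120 : ℤ) * ((8 * (t:ℤ) + 10) * ((6 * t + 17).choose 5 : ℕ)) -
      120 * ((WW 4 (6 * t + 16) 1 : ℕ) + (6 * (t:ℤ) + 16) * (WW 4 (6 * t + 16) (t + 5) : ℕ)) =
      1489560 + 4409964 * (t:ℤ)^1 + 4953084 * (t:ℤ)^2 + 2752440 * (t:ℤ)^3 + 798900 * (t:ℤ)^4 + 113016 * (t:ℤ)^5 + 5796 * (t:ℤ)^6 := by
    linear_combination (8 * (t:ℤ) + 10) * h3 - h1 - (6 * (t:ℤ) + 16) * h2
  have hpos : (0:ℤ) < 1489560 + 4409964 * (t:ℤ)^1 + 4953084 * (t:ℤ)^2 + 2752440 * (t:ℤ)^3 + 798900 * (t:ℤ)^4 + 113016 * (t:ℤ)^5 + 5796 * (t:ℤ)^6 :=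
    pos6 _ _ _ _ _ _ _ _ (Int.natCast_nonneg t) (by norm_num) (by norm_num) (by norm_num) (by norm_num) (by norm_num) (by norm_num) (by norm_num)
  linarith

lemma numC17 (t : ℕ) : 2 * WW 4 (6 * t + 16) 1 + (6 * t + 15) * WW 4 (6 * t + 16) (t + 6) <
    (8 * t + 10) * (6 * t + 17).choose 5 := by
  have h1 := ww4 (6 * t + 16) 1 (by omega)
  have h2 := ww4 (6 * t + 16) (t + 6) (by omega)
  have h3 := ch5 (6 * t + 17)
  zify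
  push_cast at *
  have key : (120 : ℤ) * ((8 * (t:ℤ) + 10) * ((6 * t + 17).choose 5 : ℕ)) -
      120 * (2 * (WW 4 (6 * t + 16) 1 : ℕ) + (6 * (t:ℤ) + 15) * (WW 4 (6 * t + 16) (t + 6) : ℕ)) =
      2189760 + 6425064 * (t:ℤ)^1 + 7125564 * (t:ℤ)^2 + 3871710 * (t:ℤ)^3 + 1077480 * (t:ℤ)^4 + 139986 * (t:ℤ)^5 + 5796 * (t:ℤ)^6 := by
    linear_combination (8 * (t:ℤ) + 10) * h3 - 2 * h1 - (6 * (t:ℤ) + 15) * h2
  have hpos : (0:ℤ) < 2189760 + 6425064 * (t:ℤ)^1 + 7125564 * (t:ℤ)^2 + 3871710 * (t:ℤ)^3 + 1077480 * (t:ℤ)^4 + 139986 * (t:ℤ)^5 + 5796 * (t:ℤ)^6 :=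
    pos6 _ _ _ _ _ _ _ _ (Int.natCast_nonneg t) (by norm_num) (by norm_num) (by norm_num) (by norm_num) (by norm_num) (by norm_num) (by norm_num)
  linarith

lemma numB18 (t : ℕ) : WW 4 (6 * t + 17) 1 + (6 * t + 17) * WW 4 (6 * t + 17) (t + 5) <
    (8 * t + 12) * (6 * t + 18).choose 5 := by
  have h1 := ww4 (6 * t + 17) 1 (by omega)
  have h2 := ww4 (6 * t + 17) (t + 5) (by omega)
  have h3 := ch5 (6 * t + 18)
  zify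
  push_cast at *
  have key : (120 : ℤ) * ((8 * (t:ℤ) + 12) * ((6 * t + 18).choose 5 : ℕ)) -
      120 * ((WW 4 (6 * t + 17) 1 : ℕ) + (6 * (t:ℤ) + 17) * (WW 4 (6 * t + 17) (t + 5) : ℕ)) =
      2664360 + 6740414 * (t:ℤ)^1 + 6705959 * (t:ℤ)^2 + 3370690 * (t:ℤ)^3 + 898465 * (t:ℤ)^4 + 118476 * (t:ℤ)^5 + 5796 * (t:ℤ)^6 := by
    linear_combination (8 * (t:ℤ) + 12) * h3 - h1 - (6 * (t:ℤ) + 17) * h2
  have hpos : (0:ℤ) < 2664360 + 6740414 * (t:ℤ)^1 + 6705959 * (t:ℤ)^2 + 3370690 * (t:ℤ)^3 + 898465 * (t:ℤ)^4 + 118476 * (t:ℤ)^5 + 5796 * (t:ℤ)^6 :=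
    pos6 _ _ _ _ _ _ _ _ (Int.natCast_nonneg t) (by norm_num) (by norm_num) (by norm_num) (by norm_num) (by norm_num) (by norm_num) (by norm_num)
  linarith

lemma numC18 (t : ℕ) : 2 * WW 4 (6 * t + 17) 1 + (6 * t + 16) * WW 4 (6 * t + 17) (t + 6) <
    (8 * t + 12) * (6 * t + 18).choose 5 := by
  have h1 := ww4 (6 * t + 17) 1 (by omega)
  have h2 := ww4 (6 * t + 17) (t + 6) (by omega)
  have h3 := ch5 (6 * t + 18)
  zify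
  push_cast at *
  have key : (120 : ℤ) * ((8 * (t:ℤ) + 12) * ((6 * t + 18).choose 5 : ℕ)) -
      120 * (2 * (WW 4 (6 * t + 17) 1 : ℕ) + (6 * (t:ℤ) + 16) * (WW 4 (6 * t + 17) (t + 6) : ℕ)) =
      3888960 + 9773144 * (t:ℤ)^1 + 9599884 * (t:ℤ)^2 + 4712290 * (t:ℤ)^3 + 1202240 * (t:ℤ)^4 + 145446 * (t:ℤ)^5 + 5796 * (t:ℤ)^6 := by
    linear_combination (8 * (t:ℤ) + 12) * h3 - 2 * h1 - (6 * (t:ℤ) + 16) * h2
  have hpos : (0:ℤ) < 3888960 + 9773144 * (t:ℤ)^1 + 9599884 * (t:ℤ)^2 + 4712290 * (t:ℤ)^3 + 1202240 * (t:ℤ)^4 + 145446 * (t:ℤ)^5 + 5796 * (t:ℤ)^6 :=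
    pos6 _ _ _ _ _ _ _ _ (Int.natCast_nonneg t) (by norm_num) (by norm_num) (by norm_num) (by norm_num) (by norm_num) (by norm_num) (by norm_num)
  linarith

lemma numB19 (t : ℕ) : WW 4 (6 * t + 18) 1 + (6 * t + 18) * WW 4 (6 * t + 18) (t + 5) <
    (8 * t + 12) * (6 * t + 19).choose 5 := by
  have h1 := ww4 (6 * t + 18) 1 (by omega)
  have h2 := ww4 (6 * t + 18) (t + 5) (by omega)
  have h3 := ch5 (6 * t + 19)
  zify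
  push_cast at *
  have key : (120 : ℤ) * ((8 * (t:ℤ) + 12) * ((6 * t + 19).choose 5 : ℕ)) -
      120 * ((WW 4 (6 * t + 18) 1 : ℕ) + (6 * (t:ℤ) + 18) * (WW 4 (6 * t + 18) (t + 5) : ℕ)) =
      1547040 + 4803636 * (t:ℤ)^1 + 5277624 * (t:ℤ)^2 + 2808840 * (t:ℤ)^3 + 781680 * (t:ℤ)^4 + 108384 * (t:ℤ)^5 + 5796 * (t:ℤ)^6 := by
    linear_combination (8 * (t:ℤ) + 12) * h3 - h1 - (6 * (t:ℤ) + 18) * h2
  have hpos : (0:ℤ) < 1547040 + 4803636 * (t:ℤ)^1 + 5277624 * (t:ℤ)^2 + 2808840 * (t:ℤ)^3 + 781680 * (t:ℤ)^4 + 108384 * (t:ℤ)^5 + 5796 * (t:ℤ)^6 :=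
    pos6 _ _ _ _ _ _ _ _ (Int.natCast_nonneg t) (by norm_num) (by norm_num) (by norm_num) (by norm_num) (by norm_num) (by norm_num) (by norm_num)
  linarith

lemma numC19 (t : ℕ) : 2 * WW 4 (6 * t + 18) 1 + (6 * t + 17) * WW 4 (6 * t + 18) (t + 6) <
    (8 * t + 12) * (6 * t + 19).choose 5 := by
  have h1 := ww4 (6 * t + 18) 1 (by omega)
  have h2 := ww4 (6 * t + 18) (t + 6) (by omega)
  have h3 := ch5 (6 * t + 19)
  zify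
  push_cast at *
  have key : (120 : ℤ) * ((8 * (t:ℤ) + 12) * ((6 * t + 19).choose 5 : ℕ)) -
      120 * (2 * (WW 4 (6 * t + 18) 1 : ℕ) + (6 * (t:ℤ) + 17) * (WW 4 (6 * t + 18) (t + 6) : ℕ)) =
      3521040 + 9151596 * (t:ℤ)^1 + 9022174 * (t:ℤ)^2 + 4391190 * (t:ℤ)^3 + 1110650 * (t:ℤ)^4 + 135354 * (t:ℤ)^5 + 5796 * (t:ℤ)^6 := by
    linear_combination (8 * (t:ℤ) + 12) * h3 - 2 * h1 - (6 * (t:ℤ) + 17) * h2
  have hpos : (0:ℤ) < 3521040 + 9151596 * (t:ℤ)^1 + 9022174 * (t:ℤ)^2 + 4391190 * (t:ℤ)^3 + 1110650 * (t:ℤ)^4 + 135354 * (t:ℤ)^5 + 5796 * (t:ℤ)^6 :=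
    pos6 _ _ _ _ _ _ _ _ (Int.natCast_nonneg t) (by norm_num) (by norm_num) (by norm_num) (by norm_num) (by norm_num) (by norm_num) (by norm_num)
  linarith

lemma numB20 (t : ℕ) : WW 4 (6 * t + 19) 1 + (6 * t + 19) * WW 4 (6 * t + 19) (t + 5) <
    (8 * t + 14) * (6 * t + 20).choose 5 := by
  have h1 := ww4 (6 * t + 19) 1 (by omega)
  have h2 := ww4 (6 * t + 19) (t + 5) (by omega)
  have h3 := ch5 (6 * t + 20)
  zify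
  push_cast at *
  have key : (120 : ℤ) * ((8 * (t:ℤ) + 14) * ((6 * t + 20).choose 5 : ℕ)) -
      120 * ((WW 4 (6 * t + 19) 1 : ℕ) + (6 * (t:ℤ) + 19) * (WW 4 (6 * t + 19) (t + 5) : ℕ)) =
      2918520 + 7354506 * (t:ℤ)^1 + 7076799 * (t:ℤ)^2 + 3410430 * (t:ℤ)^3 + 876225 * (t:ℤ)^4 + 113844 * (t:ℤ)^5 + 5796 * (t:ℤ)^6 := by
    linear_combination (8 * (t:ℤ) + 14) * h3 - h1 - (6 * (t:ℤ) + 19) * h2
  have hpos : (0:ℤ) < 2918520 + 7354506 * (t:ℤ)^1 + 7076799 * (t:ℤ)^2 + 3410430 * (t:ℤ)^3 + 876225 * (t:ℤ)^4 + 113844 * (t:ℤ)^5 + 5796 * (t:ℤ)^6 :=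
    pos6 _ _ _ _ _ _ _ _ (Int.natCast_nonneg t) (by norm_num) (by norm_num) (by norm_num) (by norm_num) (by norm_num) (by norm_num) (by norm_num)
  linarith

lemma numC20 (t : ℕ) : 2 * WW 4 (6 * t + 19) 1 + (6 * t + 18) * WW 4 (6 * t + 19) (t + 6) <
    (8 * t + 14) * (6 * t + 20).choose 5 := by
  have h1 := ww4 (6 * t + 19) 1 (by omega)
  have h2 := ww4 (6 * t + 19) (t + 6) (by omega)
  have h3 := ch5 (6 * t + 20)
  zify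
  push_cast at *
  have key : (120 : ℤ) * ((8 * (t:ℤ) + 14) * ((6 * t + 20).choose 5 : ℕ)) -
      120 * (2 * (WW 4 (6 * t + 19) 1 : ℕ) + (6 * (t:ℤ) + 18) * (WW 4 (6 * t + 19) (t + 6) : ℕ)) =
      5926320 + 13364076 * (t:ℤ)^1 + 11811054 * (t:ℤ)^2 + 5251950 * (t:ℤ)^3 + 1230390 * (t:ℤ)^4 + 140814 * (t:ℤ)^5 + 5796 * (t:ℤ)^6 := by
    linear_combination (8 * (t:ℤ) + 14) * h3 - 2 * h1 - (6 * (t:ℤ) + 18) * h2
  have hpos : (0:ℤ) < 5926320 + 13364076 * (t:ℤ)^1 + 11811054 * (t:ℤ)^2 + 5251950 * (t:ℤ)^3 + 1230390 * (t:ℤ)^4 + 140814 * (t:ℤ)^5 + 5796 * (t:ℤ)^6 :=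
    pos6 _ _ _ _ _ _ _ _ (Int.natCast_nonneg t) (by norm_num) (by norm_num) (by norm_num) (by norm_num) (by norm_num) (by norm_num) (by norm_num)
  linarith

lemma numB21 (t : ℕ) : WW 4 (6 * t + 20) 1 + (6 * t + 20) * WW 4 (6 * t + 20) (t + 6) <
    (8 * t + 16) * (6 * t + 21).choose 5 := by
  have h1 := ww4 (6 * t + 20) 1 (by omega)
  have h2 := ww4 (6 * t + 20) (t + 6) (by omega)
  have h3 := ch5 (6 * t + 21)
  zify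
  push_cast at *
  have key : (120 : ℤ) * ((8 * (t:ℤ) + 16) * ((6 * t + 21).choose 5 : ℕ)) -
      120 * ((WW 4 (6 * t + 20) 1 : ℕ) + (6 * (t:ℤ) + 20) * (WW 4 (6 * t + 20) (t + 6) : ℕ)) =
      11257440 + 21945076 * (t:ℤ)^1 + 17153564 * (t:ℤ)^2 + 6847160 * (t:ℤ)^3 + 1455340 * (t:ℤ)^4 + 152424 * (t:ℤ)^5 + 5796 * (t:ℤ)^6 := by
    linear_combination (8 * (t:ℤ) + 16) * h3 - h1 - (6 * (t:ℤ) + 20) * h2
  have hpos : (0:ℤ) < 11257440 + 21945076 * (t:ℤ)^1 + 17153564 * (t:ℤ)^2 + 6847160 * (t:ℤ)^3 + 1455340 * (t:ℤ)^4 + 152424 * (t:ℤ)^5 + 5796 * (t:ℤ)^6 :=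
    pos6 _ _ _ _ _ _ _ _ (Int.natCast_nonneg t) (by norm_num) (by norm_num) (by norm_num) (by norm_num) (by norm_num) (by norm_num) (by norm_num)
  linarith

lemma numC21 (t : ℕ) : 2 * WW 4 (6 * t + 20) 1 + (6 * t + 19) * WW 4 (6 * t + 20) (t + 7) <
    (8 * t + 16) * (6 * t + 21).choose 5 := by
  have h1 := ww4 (6 * t + 20) 1 (by omega)
  have h2 := ww4 (6 * t + 20) (t + 7) (by omega)
  have h3 := ch5 (6 * t + 21)
  zify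
  push_cast at *
  have key : (120 : ℤ) * ((8 * (t:ℤ) + 16) * ((6 * t + 21).choose 5 : ℕ)) -
      120 * (2 * (WW 4 (6 * t + 20) 1 : ℕ) + (6 * (t:ℤ) + 19) * (WW 4 (6 * t + 20) (t + 7) : ℕ)) =
      14145120 + 28032276 * (t:ℤ)^1 + 22059544 * (t:ℤ)^2 + 8759490 * (t:ℤ)^3 + 1818380 * (t:ℤ)^4 + 179394 * (t:ℤ)^5 + 5796 * (t:ℤ)^6 := by
    linear_combination (8 * (t:ℤ) + 16) * h3 - 2 * h1 - (6 * (t:ℤ) + 19) * h2
  have hpos : (0:ℤ) < 14145120 + 28032276 * (t:ℤ)^1 + 22059544 * (t:ℤ)^2 + 8759490 * (t:ℤ)^3 + 1818380 * (t:ℤ)^4 + 179394 * (t:ℤ)^5 + 5796 * (t:ℤ)^6 :=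
    pos6 _ _ _ _ _ _ _ _ (Int.natCast_nonneg t) (by norm_num) (by norm_num) (by norm_num) (by norm_num) (by norm_num) (by norm_num) (by norm_num)
  linarith

lemma numB22 (t : ℕ) : WW 4 (6 * t + 21) 1 + (6 * t + 21) * WW 4 (6 * t + 21) (t + 5) <
    (8 * t + 16) * (6 * t + 22).choose 5 := by
  have h1 := ww4 (6 * t + 21) 1 (by omega)
  have h2 := ww4 (6 * t + 21) (t + 5) (by omega)
  have h3 := ch5 (6 * t + 22)
  zify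
  push_cast at *
  have key : (120 : ℤ) * ((8 * (t:ℤ) + 16) * ((6 * t + 22).choose 5 : ℕ)) -
      120 * ((WW 4 (6 * t + 21) 1 : ℕ) + (6 * (t:ℤ) + 21) * (WW 4 (6 * t + 21) (t + 5) : ℕ)) =
      1105560 + 5146638 * (t:ℤ)^1 + 5935359 * (t:ℤ)^2 + 3075210 * (t:ℤ)^3 + 818025 * (t:ℤ)^4 + 109212 * (t:ℤ)^5 + 5796 * (t:ℤ)^6 := by
    linear_combination (8 * (t:ℤ) + 16) * h3 - h1 - (6 * (t:ℤ) + 21) * h2
  have hpos : (0:ℤ) < 1105560 + 5146638 * (t:ℤ)^1 + 5935359 * (t:ℤ)^2 + 3075210 * (t:ℤ)^3 + 818025 * (t:ℤ)^4 + 109212 * (t:ℤ)^5 + 5796 * (t:ℤ)^6 :=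
    pos6 _ _ _ _ _ _ _ _ (Int.natCast_nonneg t) (by norm_num) (by norm_num) (by norm_num) (by norm_num) (by norm_num) (by norm_num) (by norm_num)
  linarith

lemma numC22 (t : ℕ) : 2 * WW 4 (6 * t + 21) 1 + (6 * t + 20) * WW 4 (6 * t + 21) (t + 6) <
    (8 * t + 16) * (6 * t + 22).choose 5 := by
  have h1 := ww4 (6 * t + 21) 1 (by omega)
  have h2 := ww4 (6 * t + 21) (t + 6) (by omega)
  have h3 := ch5 (6 * t + 22)
  zify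
  push_cast at *
  have key : (120 : ℤ) * ((8 * (t:ℤ) + 16) * ((6 * t + 22).choose 5 : ℕ)) -
      120 * (2 * (WW 4 (6 * t + 21) 1 : ℕ) + (6 * (t:ℤ) + 20) * (WW 4 (6 * t + 21) (t + 6) : ℕ)) =
      7317360 + 15731088 * (t:ℤ)^1 + 13105864 * (t:ℤ)^2 + 5490330 * (t:ℤ)^3 + 1222580 * (t:ℤ)^4 + 136182 * (t:ℤ)^5 + 5796 * (t:ℤ)^6 := by
    linear_combination (8 * (t:ℤ) + 16) * h3 - 2 * h1 - (6 * (t:ℤ) + 20) * h2
  have hpos : (0:ℤ) < 7317360 + 15731088 * (t:ℤ)^1 + 13105864 * (t:ℤ)^2 + 5490330 * (t:ℤ)^3 + 1222580 * (t:ℤ)^4 + 136182 * (t:ℤ)^5 + 5796 * (t:ℤ)^6 :=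
    pos6 _ _ _ _ _ _ _ _ (Int.natCast_nonneg t) (by norm_num) (by norm_num) (by norm_num) (by norm_num) (by norm_num) (by norm_num) (by norm_num)
  linarith

end Pool.Agent.V7H38.OG
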