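import Pool.Agent.V7H38.OG.Struct
import Pool.Agent.V7H38.OG.Nums

/-!
# Large graphs
-/

set_option autoImplicit false
set_option linter.unusedSectionVars false
set_option linter.unusedVariables false

namespace Pool.Agent.V7H38.OG

variable {V : Type} [DecidableEq V] [Fintype V]

lemma Bad.large {G : SimpleGraph V} (h : Bad G) (h1 : ∀ v, 1 ≤ dg G v) (h2 : ∀ v, 1 ≤ dg Gᶜ v)
    (hn : 12 ≤ Fintype.card V) (hn' : Fintype.card V ≠ 16) : False := by
  rcases (by omega : Fintype.card V = 12 ∨ Fintype.card V = 13 ∨ Fintype.card V = 14 ∨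
    Fintype.card V = 15 ∨ 17 ≤ Fintype.card V) with hn | hn | hn | hn | hn
  · refine h.main h1 h2 2 4 (by omega) (by omega) (by omega) 8 (by omega) ?_ ?_
    · rw [hn]; decide
    · rw [hn]; decide
  · refine h.main h1 h2 2 4 (by omega) (by omega) (by omega) 8 (by omega) ?_ ?_
    · rw [hn]; decide
    · rw [hn]; decide
  · refine h.main h1 h2 2 4 (by omega) (by omega) (by omega) 10 (by omega) ?_ ?_
    · rw [hn]; decide
    · rw [hn]; decide
  · refine h.main h1 h2 2 5 (by omega) (by omega) (by omega) 12 (by omega) ?_ ?_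
    · rw [hn]; decide
    · rw [hn]; decide
  · obtain ⟨t, ht⟩ : ∃ t, Fintype.card V = 6 * t + 17 ∨ Fintype.card V = 6 * t + 18 ∨
      Fintype.card V = 6 * t + 19 ∨ Fintype.card V = 6 * t + 20 ∨ Fintype.card V = 6 * t + 21 ∨
      Fintype.card V = 6 * t + 22 := ⟨(Fintype.card V - 17) / 6, by omega⟩
    rcases ht with ht | ht | ht | ht | ht | ht
    · have e1 : Fintype.card V - 1 = 6 * t + 16 := by omega
      have e2 : Fintype.card V - 2 = 6 * t + 15 := by omega
      refine h.main h1 h2 3 (t + 5) (by omega) (by omega) (by omega) (8 * t + 10) (by omega) ?_ ?_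
      · rw [e1, ht]; exact numB17 t
      · rw [e1, e2, ht]; exact numC17 t
    · have e1 : Fintype.card V - 1 = 6 * t + 17 := by omega
      have e2 : Fintype.card V - 2 = 6 * t + 16 := by omega
      refine h.main h1 h2 3 (t + 5) (by omega) (by omega) (by omega) (8 * t + 12) (by omega) ?_ ?_
      · rw [e1, ht]; exact numB18 t
      · rw [e1, e2, ht]; exact numC18 t
    · have e1 : Fintype.card V - 1 = 6 * t + 18 := by omega
      have e2 : Fintype.card V - 2 = 6 * t + 17 := by omega
      refine h.main h1 h2 3 (t + 5) (by omega) (by omega) (by omega) (8 * t + 12) (by omega) ?_ ?_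
      · rw [e1, ht]; exact numB19 t
      · rw [e1, e2, ht]; exact numC19 t
    · have e1 : Fintype.card V - 1 = 6 * t + 19 := by omega
      have e2 : Fintype.card V - 2 = 6 * t + 18 := by omega
      refine h.main h1 h2 3 (t + 5) (by omega) (by omega) (by omega) (8 * t + 14) (by omega) ?_ ?_
      · rw [e1, ht]; exact numB20 t
      · rw [e1, e2, ht]; exact numC20 t
    · have e1 : Fintype.card V - 1 = 6 * t + 20 := by omega
      have e2 : Fintype.card V - 2 = 6 * t + 19 := by omega
      refine h.main h1 h2 3 (t + 6) (by omega) (by omega) (by omega) (8 * t + 16) (by omega) ?_ ?_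
      · rw [e1, ht]; exact numB21 t
      · rw [e1, e2, ht]; exact numC21 t
    · have e1 : Fintype.card V - 1 = 6 * t + 21 := by omega
      have e2 : Fintype.card V - 2 = 6 * t + 20 := by omega
      refine h.main h1 h2 3 (t + 5) (by omega) (by omega) (by omega) (8 * t + 16) (by omega) ?_ ?_
      · rw [e1, ht]; exact numB22 t
      · rw [e1, e2, ht]; exact numC22 t

end Pool.Agent.V7H38.OG
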