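import Pool.Agent.V7H38.OG.Perm

/-!
# The master lemma
-/

set_option autoImplicit false
set_option linter.unusedSectionVars false
set_option linter.unusedVariables false

namespace Pool.Agent.V7H38.OG

variable {V : Type} [DecidableEq V]

/-- the edges between two sets -/
def btw (C F : Finset V) : Set (Sym2 V) := {e | ∃ c ∈ C, ∃ v ∈ F, e = s(c, v)}

lemma btw_disjoint {C F L : Finset V} (hCF : Disjoint C F) (hCL : Disjoint C L)
    (hFL : Disjoint F L) : Disjoint (btw C F) (btw C L) := by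
  rw [Set.disjoint_left]
  rintro e ⟨c, hc, v, hv, rfl⟩ ⟨c', hc', v', hv', h⟩
  rw [Sym2.eq_iff] at h
  rcases h with ⟨rfl, rfl⟩ | ⟨rfl, rfl⟩
  · exact Finset.disjoint_left.1 hFL hv hv'
  · exact Finset.disjoint_left.1 hCL hc hv'

lemma btw_inside {C F R : Finset V} (hCR : Disjoint C R) : Disjoint (btw C F) (inside R) := by
  rw [Set.disjoint_left]
  rintro e ⟨c, hc, v, hv, rfl⟩ h
  exact Finset.disjoint_left.1 hCR hc (h c (Sym2.mem_mk_left _ _))

lemma Force.free {H : SimpleGraph V} (C F : Finset V) (hCF : Disjoint C F)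
    (hF : ∀ v ∈ F, ∃ c ∈ C, ∃ c' ∈ C, c ≠ c' ∧ H.Adj c v ∧ H.Adj c' v) :
    Force H (btw C F) (fun A => ∀ v ∈ F, ∃ c ∈ C, (c, v) ∈ A) := by
  refine (Force.finset F (fun v => {e | ∃ c ∈ C, e = s(c, v)})
    (fun v A => ∃ c ∈ C, (c, v) ∈ A) ?_ ?_).mono ?_ (fun A _ _ h => h)
  · intro i hi j hj hij
    rw [Set.disjoint_left]
    rintro e ⟨c, hc, rfl⟩ ⟨c', hc', h⟩
    rw [Sym2.eq_iff] at h
    rcases h with ⟨-, h⟩ | ⟨h, -⟩
    · exact hij h
    · exact Finset.disjoint_left.1 hCF hc (h ▸ hj)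
  · intro v hv
    obtain ⟨c, hc, c', hc', hne, h1, h2⟩ := hF v hv
    refine (Force.pair h1 h2 ?_).mono ?_ ?_
    · intro h
      rw [Sym2.eq_iff] at h
      rcases h with ⟨h, -⟩ | ⟨h, h'⟩
      · exact hne h
      · exact h1.ne h
    · rintro e (rfl | rfl)
      · exact ⟨c, hc, rfl⟩
      · exact ⟨c', hc', rfl⟩
    · rintro A - - (h | h)
      · exact ⟨c, hc, h⟩
      · exact ⟨c', hc', h⟩
  · intro e he
    rw [Set.mem_iUnion₂] at he
    obtain ⟨v, hv, c, hc, h⟩ := he
    exact ⟨c, hc, v, hv, h⟩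

lemma Force.leaves {H : SimpleGraph V} (C : Finset V) (n : ℕ) : ∀ L : Finset V,
    L.card = 2 * n → Disjoint C L → (∀ v ∈ L, ∃ c ∈ C, H.Adj c v) →
    Force H (btw C L) (fun A => ∃ T : Finset V, T.card ≤ n ∧
      ∀ v ∈ L, v ∉ T → ∃ c ∈ C, (c, v) ∈ A) := by
  induction n with
  | zero =>
    intro L hL _ _
    have hL0 : L = ∅ := Finset.card_eq_zero.1 (by omega)
    subst hL0
    exact (Force.trivial H).mono (Set.empty_subset _)
      (fun A _ _ _ => ⟨∅, by simp, fun v hv => absurd hv (by simp)⟩)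
  | succ n ih =>
    intro L hL hCL hadj
    obtain ⟨v, hv⟩ : L.Nonempty := Finset.card_pos.1 (by omega)
    obtain ⟨w, hw⟩ : (L.erase v).Nonempty := Finset.card_pos.1 (by
      rw [Finset.card_erase_of_mem hv]; omega)
    rw [Finset.mem_erase] at hw
    obtain ⟨hwv, hw⟩ := hw
    obtain ⟨c, hc, hcv⟩ := hadj v hv
    obtain ⟨c', hc', hcw⟩ := hadj w hw
    have hvC : v ∉ C := fun h => Finset.disjoint_left.1 hCL h hv
    have hwC : w ∉ C := fun h => Finset.disjoint_left.1 hCL h hw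
    have h1 := Force.pair hcv hcw (by
      intro h
      rw [Sym2.eq_iff] at h
      rcases h with ⟨-, h⟩ | ⟨h, -⟩
      · exact hwv h.symm
      · exact hwC (h ▸ hc))
    have hsub : (L.erase v).erase w ⊆ L :=
      (Finset.erase_subset _ _).trans (Finset.erase_subset _ _)
    have h2 := ih ((L.erase v).erase w) (by
      rw [Finset.card_erase_of_mem (Finset.mem_erase.2 ⟨hwv, hw⟩), Finset.card_erase_of_mem hv]
      omega) (hCL.mono_right hsub) (fun u hu => hadj u (hsub hu))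
    refine (h1.and h2 ?_).mono ?_ ?_
    · rw [Set.disjoint_left]
      rintro e he ⟨c₂, hc₂, u, hu, rfl⟩
      rw [Finset.mem_erase, Finset.mem_erase] at hu
      rcases he with he | he
      · rw [Sym2.eq_iff] at he
        rcases he with ⟨-, h⟩ | ⟨h, -⟩
        · exact hu.2.1 h
        · exact hvC (h ▸ hc₂)
      · rw [Set.mem_singleton_iff, Sym2.eq_iff] at he
        rcases he with ⟨-, h⟩ | ⟨h, -⟩
        · exact hu.1 h
        · exact hwC (h ▸ hc₂)
    · rintro e ((rfl | rfl) | ⟨c₂, hc₂, u, hu, rfl⟩)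
      · exact ⟨c, hc, v, hv, rfl⟩
      · exact ⟨c', hc', w, hw, rfl⟩
      · exact ⟨c₂, hc₂, u, hsub hu, rfl⟩
    · rintro A - - ⟨hor, T, hT, hT'⟩
      rcases hor with h | h
      · refine ⟨insert w T, (Finset.card_insert_le _ _).trans (by omega), ?_⟩
        intro u hu huT
        rw [Finset.mem_insert, not_or] at huT
        by_cases huv : u = v
        · subst huv
          exact ⟨c, hc, h⟩
        · exact hT' u (Finset.mem_erase.2 ⟨huT.1, Finset.mem_erase.2 ⟨huv, hu⟩⟩) huT.2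
      · refine ⟨insert v T, (Finset.card_insert_le _ _).trans (by omega), ?_⟩
        intro u hu huT
        rw [Finset.mem_insert, not_or] at huT
        by_cases huw : u = w
        · subst huw
          exact ⟨c', hc', h⟩
        · exact hT' u (Finset.mem_erase.2 ⟨huw, Finset.mem_erase.2 ⟨huT.1, hu⟩⟩) huT.2

variable [Fintype V]

/-- The master lemma. -/
lemma Value.master {H : SimpleGraph V} (C F L Z R : Finset V) (σ : Equiv.Perm V)
    (hcov : ∀ v, v ∈ C ∨ v ∈ F ∨ v ∈ L ∨ v ∈ Z ∨ v ∈ R)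
    (hCF : Disjoint C F) (hCL : Disjoint C L) (hFL : Disjoint F L) (hCR : Disjoint C R)
    (hF : ∀ v ∈ F, ∃ c ∈ C, ∃ c' ∈ C, c ≠ c' ∧ H.Adj c v ∧ H.Adj c' v)
    (hL : ∀ v ∈ L, ∃ c ∈ C, H.Adj c v)
    (hσ : ∀ v ∈ R, σ v ∈ R) (hadj : ∀ v ∈ R, H.Adj v (σ v)) (k : ℕ)
    (hk : C.card + Z.card + L.card / 2 + R.card / 2 ≤ k) : Value H k := by
  have f1 := Force.free C F hCF hF
  have f2 := Force.perm (H := H) σ R.card R le_rfl hσ hadj
  rcases Nat.even_or_odd L.card with he | ho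
  · obtain ⟨t, ht⟩ := he
    have f3 := Force.leaves C t L (by omega) hCL hL
    refine Value.of_force ((f1.and f3 (btw_disjoint hCF hCL hFL)).and f2
      (Disjoint.union_left (btw_inside hCR) (btw_inside hCR))) ?_
    rintro A - - ⟨⟨g1, T, g2, g3⟩, S, g4, g5, g6⟩
    refine ⟨C ∪ Z ∪ T ∪ S, ?_, ?_⟩
    · have a1 := Finset.card_union_le (C ∪ Z ∪ T) S
      have a2 := Finset.card_union_le (C ∪ Z) T
      have a3 := Finset.card_union_le C Z
      omega
    · intro v hv
      simp only [Finset.mem_union, not_or] at hv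
      obtain ⟨⟨⟨h1, h2⟩, h3⟩, h4⟩ := hv
      rcases hcov v with h | h | h | h | h
      · exact absurd h h1
      · obtain ⟨c, hc, hcv⟩ := g1 v h
        exact ⟨c, by simp [hc], hcv⟩
      · obtain ⟨c, hc, hcv⟩ := g3 v h h3
        exact ⟨c, by simp [hc], hcv⟩
      · exact absurd h h2
      · obtain ⟨c, hc, hcv⟩ := g6 v h h4
        exact ⟨c, by simp [hc], hcv⟩
  · obtain ⟨t, ht⟩ := ho
    obtain ⟨v₀, hv₀⟩ : L.Nonempty := Finset.card_pos.1 (by omega)
    obtain ⟨c₀, hc₀, hcv₀⟩ := hL v₀ hv₀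
    have hsub : L.erase v₀ ⊆ L := Finset.erase_subset _ _
    have f3 := Force.leaves C t (L.erase v₀) (by
      rw [Finset.card_erase_of_mem hv₀]; omega) (hCL.mono_right hsub)
      (fun v hv => hL v (hsub hv))
    have hv₀C : v₀ ∉ C := fun h => Finset.disjoint_left.1 hCL h hv₀
    refine Value.of_force_first ((f1.and f3 (btw_disjoint hCF (hCL.mono_right hsub)
      (hFL.mono_right hsub))).and f2
      (Disjoint.union_left (btw_inside hCR) (btw_inside hCR))) c₀ v₀ hcv₀ ?_ ?_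
    · rintro ((⟨c, hc, v, hv, h⟩ | ⟨c, hc, v, hv, h⟩) | h)
      · rw [Sym2.eq_iff] at h
        rcases h with ⟨-, h⟩ | ⟨-, h⟩
        · exact Finset.disjoint_left.1 hFL hv (h ▸ hv₀)
        · exact hv₀C (h ▸ hc)
      · rw [Sym2.eq_iff] at h
        rcases h with ⟨-, h⟩ | ⟨-, h⟩
        · rw [Finset.mem_erase] at hv
          exact hv.1 h.symm
        · exact hv₀C (h ▸ hc)
      · exact Finset.disjoint_left.1 hCR hc₀ (h c₀ (Sym2.mem_mk_left _ _))
    · rintro A - - g0 ⟨⟨g1, T, g2, g3⟩, S, g4, g5, g6⟩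
      refine ⟨C ∪ Z ∪ T ∪ S, ?_, ?_⟩
      · have a1 := Finset.card_union_le (C ∪ Z ∪ T) S
        have a2 := Finset.card_union_le (C ∪ Z) T
        have a3 := Finset.card_union_le C Z
        omega
      · intro v hv
        simp only [Finset.mem_union, not_or] at hv
        obtain ⟨⟨⟨h1, h2⟩, h3⟩, h4⟩ := hv
        rcases hcov v with h | h | h | h | h
        · exact absurd h h1
        · obtain ⟨c, hc, hcv⟩ := g1 v h
          exact ⟨c, by simp [hc], hcv⟩
        · by_cases hvv : v = v₀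
          · subst hvv
            exact ⟨c₀, by simp [hc₀], g0⟩
          · obtain ⟨c, hc, hcv⟩ := g3 v (Finset.mem_erase.2 ⟨hvv, h⟩) h3
            exact ⟨c, by simp [hc], hcv⟩
        · exact absurd h h2
        · obtain ⟨c, hc, hcv⟩ := g6 v h h4
          exact ⟨c, by simp [hc], hcv⟩

end Pool.Agent.V7H38.OG
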