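import Pool.Agent.V7H38.OG.Cycle

/-!
# Permutations moving every vertex to a neighbour
-/

set_option autoImplicit false
set_option linter.unusedSectionVars false
set_option linter.unusedVariables false

namespace Pool.Agent.V7H38.OG

variable {V : Type} [DecidableEq V]

/-- A cycle with `m ≥ 2` vertices: at most half of the vertices are needed. -/
lemma Force.cycle {H : SimpleGraph V} {m : ℕ} (hm : 2 ≤ m) (x : ZMod m → V)
    (hx : Function.Injective x) (hadj : ∀ i, H.Adj (x i) (x (i + 1))) :
    Force H (cycEdges x) (fun A => ∃ S : Finset V, 2 * S.card ≤ m ∧ (∀ v ∈ S, ∃ i, v = x i) ∧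
      ∀ i, x i ∉ S → ∃ u ∈ S, (u, x i) ∈ A) := by
  have : NeZero m := ⟨by omega⟩
  rcases Nat.even_or_odd m with he | ho
  · obtain ⟨t, ht⟩ := he
    refine (Force.trivial H).mono (Set.empty_subset _) ?_
    intro A hA hc _
    obtain ⟨S, h1, h2, h3⟩ := tails hc (fun k => x (k : ZMod m)) t (by
      intro j hj
      have := hadj ((2 * j : ℕ) : ZMod m)
      simpa using this)
    refine ⟨S, by omega, ?_, ?_⟩
    · intro v hv
      obtain ⟨i, -, h⟩ := h2 v hv
      exact ⟨_, h⟩
    · intro i hi
      have hv := ZMod.val_lt i
      have := h3 i.val (by omega)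
      simp only [ZMod.natCast_val, ZMod.cast_id', id_eq] at this
      exact this hi
  · have hm3 : 3 ≤ m := by
      obtain ⟨t, ht⟩ := ho
      omega
    refine (Force.source hm3 hx hadj).mono le_rfl ?_
    rintro A hA hc ⟨l, hl1, hl2⟩
    obtain ⟨t, ht⟩ := ho
    obtain ⟨S, h1, h2, h3⟩ := tails hc (fun k => x (l + 2 + (k : ZMod m))) (t - 1) (by
      intro j hj
      have := hadj (l + 2 + ((2 * j : ℕ) : ZMod m))
      have e : l + 2 + ((2 * j : ℕ) : ZMod m) + 1 = l + 2 + ((2 * j + 1 : ℕ) : ZMod m) := by
        push_cast
        ring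
      rw [e] at this
      exact this)
    refine ⟨insert (x l) S, ?_, ?_, ?_⟩
    · have := Finset.card_insert_le (x l) S
      omega
    · intro v hv
      rw [Finset.mem_insert] at hv
      rcases hv with rfl | hv
      · exact ⟨_, rfl⟩
      · obtain ⟨i, -, h⟩ := h2 v hv
        exact ⟨_, h⟩
    · intro i hi
      rw [Finset.mem_insert, not_or] at hi
      have hval := ZMod.val_lt (i - l)
      have hii : i = l + ((i - l).val : ZMod m) := by
        rw [ZMod.natCast_val, ZMod.cast_id', id_eq]
        ring
      set k := (i - l).val with hk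
      by_cases hk0 : k = 0
      · exfalso
        apply hi.1
        rw [hii, hk0]
        simp
      by_cases hk1 : k = 1
      · refine ⟨x l, Finset.mem_insert_self _ _, ?_⟩
        rw [hii, hk1]
        simpa using hl1
      by_cases hkm : k = m - 1
      · refine ⟨x l, Finset.mem_insert_self _ _, ?_⟩
        rw [hii, hkm, Nat.cast_sub (by omega)]
        simp only [CharP.cast_eq_zero, Nat.cast_one, zero_sub]
        rw [← sub_eq_add_neg]
        exact hl2
      · have hk2 : 2 ≤ k := by omega
        have e : l + 2 + ((k - 2 : ℕ) : ZMod m) = i := by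
          rw [hii, Nat.cast_sub hk2]
          push_cast
          ring
        have := h3 (k - 2) (by omega)
        simp only [e] at this
        obtain ⟨u, hu, h⟩ := this hi.2
        exact ⟨u, Finset.mem_insert_of_mem hu, h⟩

/-- the edges inside a set of vertices -/
def inside (R : Finset V) : Set (Sym2 V) := {e | ∀ x ∈ e, x ∈ R}

variable [Fintype V]

lemma Force.perm {H : SimpleGraph V} (σ : Equiv.Perm V) (n : ℕ) : ∀ R : Finset V, R.card ≤ n →
    (∀ v ∈ R, σ v ∈ R) → (∀ v ∈ R, H.Adj v (σ v)) →
    Force H (inside R) (fun A => ∃ S : Finset V, S ⊆ R ∧ 2 * S.card ≤ R.card ∧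
      ∀ v ∈ R, v ∉ S → ∃ u ∈ S, (u, v) ∈ A) := by
  induction n with
  | zero =>
    intro R hR _ _
    have hR0 : R = ∅ := Finset.card_eq_zero.1 (by omega)
    subst hR0
    exact (Force.trivial H).mono (Set.empty_subset _)
      (fun A _ _ _ => ⟨∅, by simp, by simp, fun v hv => absurd hv (by simp)⟩)
  | succ n ih =>
    intro R hR hσR hadj
    rcases R.eq_empty_or_nonempty with rfl | ⟨v, hv⟩
    · exact (Force.trivial H).mono (Set.empty_subset _)
        (fun A _ _ _ => ⟨∅, by simp, by simp, fun v hv => absurd hv (by simp)⟩)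
    set m := Function.minimalPeriod σ v with hm
    have hper : v ∈ Function.periodicPts σ := by
      refine Function.mk_mem_periodicPts (orderOf_pos σ) ?_
      show σ^[orderOf σ] v = v
      rw [← Equiv.Perm.coe_pow, pow_orderOf_eq_one]
      rfl
    have hmpos : 0 < m := Function.minimalPeriod_pos_of_mem_periodicPts hper
    have : NeZero m := ⟨hmpos.ne'⟩
    have hm2 : 2 ≤ m := by
      by_contra hcon
      have hm1 : m = 1 := by omega
      have : Function.IsFixedPt σ v := by
        rw [← Function.minimalPeriod_eq_one_iff_isFixedPt]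
        exact hm1
      exact (hadj v hv).ne this.symm
    set x : ZMod m → V := fun i => σ^[i.val] v with hxdef
    have hstep : ∀ i, x (i + 1) = σ (x i) := by
      intro i
      simp only [hxdef]
      rw [ZMod.val_add, ZMod.val_one_eq_one_mod, Nat.add_mod_mod]
      have h1 := Function.iterate_mod_minimalPeriod_eq (f := σ) (x := v) (n := i.val + 1)
      exact h1.trans (Function.iterate_succ_apply' _ _ _)
    have hxR : ∀ i, x i ∈ R := by
      intro i
      have : ∀ k : ℕ, σ^[k] v ∈ R := by
        intro k
        induction k with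
        | zero => exact hv
        | succ k ihk =>
          rw [Function.iterate_succ_apply']
          exact hσR _ ihk
      exact this _
    have hxinj : Function.Injective x := by
      intro i j hij
      have := Function.iterate_injOn_Iio_minimalPeriod (f := σ) (x := v) (ZMod.val_lt i)
        (ZMod.val_lt j) hij
      exact ZMod.val_injective m this
    have hxadj : ∀ i, H.Adj (x i) (x (i + 1)) := by
      intro i
      rw [hstep]
      exact hadj _ (hxR i)
    set O : Finset V := Finset.univ.image x with hO
    have hOcard : O.card = m := by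
      rw [hO, Finset.card_image_of_injective _ hxinj, Finset.card_univ, ZMod.card]
    have hOR : O ⊆ R := by
      intro w hw
      rw [hO, Finset.mem_image] at hw
      obtain ⟨i, -, rfl⟩ := hw
      exact hxR i
    have hcardR : (R \ O).card + m = R.card := by
      rw [← hOcard]
      exact Finset.card_sdiff_add_card_eq_card hOR
    have h1 := Force.cycle hm2 x hxinj hxadj
    have h2 := ih (R \ O) (by omega) (by
      intro w hw
      rw [Finset.mem_sdiff] at hw ⊢
      refine ⟨hσR w hw.1, fun h => hw.2 ?_⟩
      rw [hO, Finset.mem_image] at h ⊢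
      obtain ⟨i, -, h⟩ := h
      refine ⟨i - 1, Finset.mem_univ _, ?_⟩
      have h3 := hstep (i - 1)
      rw [sub_add_cancel, h] at h3
      exact (σ.injective h3).symm) (fun w hw => hadj w (Finset.mem_sdiff.1 hw).1)
    refine (h1.and h2 ?_).mono ?_ ?_
    · rw [Set.disjoint_left]
      rintro e ⟨i, rfl⟩ h
      have := h (x i) (Sym2.mem_mk_left _ _)
      rw [Finset.mem_sdiff] at this
      exact this.2 (by rw [hO, Finset.mem_image]; exact ⟨i, Finset.mem_univ _, rfl⟩)
    · rintro e (⟨i, rfl⟩ | h)
      · intro w hw
        rw [Sym2.mem_iff] at hw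
        rcases hw with rfl | rfl
        · exact hxR _
        · exact hxR _
      · intro w hw
        exact (Finset.mem_sdiff.1 (h w hw)).1
    · rintro A - - ⟨⟨S₁, a1, a2, a3⟩, ⟨S₂, b1, b2, b3⟩⟩
      refine ⟨S₁ ∪ S₂, ?_, ?_, ?_⟩
      · intro w hw
        rw [Finset.mem_union] at hw
        rcases hw with hw | hw
        · obtain ⟨i, rfl⟩ := a2 w hw
          exact hxR i
        · exact (Finset.mem_sdiff.1 (b1 hw)).1
      · have := Finset.card_union_le S₁ S₂
        omega
      · intro w hw hwS
        rw [Finset.mem_union, not_or] at hwS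
        by_cases hwO : w ∈ O
        · have hwO' := hwO
          rw [hO, Finset.mem_image] at hwO'
          obtain ⟨i, -, rfl⟩ := hwO'
          obtain ⟨u, hu, h⟩ := a3 i hwS.1
          exact ⟨u, Finset.mem_union_left _ hu, h⟩
        · obtain ⟨u, hu, h⟩ := b3 w (Finset.mem_sdiff.2 ⟨hw, hwO⟩) hwS.2
          exact ⟨u, Finset.mem_union_right _ hu, h⟩

end Pool.Agent.V7H38.OG
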