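import Pool.Agent.V7H38.OG.Large

/-!
# Sixteen vertices
-/

set_option autoImplicit false
set_option linter.unusedSectionVars false
set_option linter.unusedVariables false

namespace Pool.Agent.V7H38.OG

variable {V : Type} [DecidableEq V] [Fintype V]

lemma cn_compl_eq (G : SimpleGraph V) (S : Finset V) (v : V) (h : ∀ u ∈ S, u ≠ v → G.Adj v u) :
    cn Gᶜ S v = 0 := by
  by_contra hcon
  obtain ⟨u, hu, h'⟩ := cn_pos (Nat.one_le_iff_ne_zero.2 hcon)
  rw [SimpleGraph.compl_adj] at h'
  exact h'.2 (h u hu h'.1).symm

open Classical in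
/-- the averaging bound, sets inside `A` -/
lemma sum_wt_le_sub (G : SimpleGraph V) (A : Finset V) (s : ℕ) :
    ∑ S ∈ A.powersetCard (s + 1), wt G S ≤
      ∑ v : V, (2 * (cn Gᶜ A v).choose (s + 1) + cn G A v * (cn Gᶜ A v).choose s) := by
  have h1 : ∀ S : Finset V, wt G S = ∑ v : V, (if v ∈ S then 0 else (2 - cn G S v)) := by
    intro S
    unfold wt
    rw [← Finset.sum_filter_add_sum_filter_not Finset.univ (fun v => v ∈ S)
      (fun v => if v ∈ S then 0 else (2 - cn G S v))]
    have e1 : ∑ v ∈ Finset.univ.filter (fun v => v ∈ S), (if v ∈ S then 0 else (2 - cn G S v)) = 0 := by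
      refine Finset.sum_eq_zero (fun v hv => ?_)
      rw [Finset.mem_filter] at hv
      rw [if_pos hv.2]
    rw [e1, zero_add]
    refine Finset.sum_congr ?_ (fun v hv => ?_)
    · ext v
      simp
    · rw [Finset.mem_filter] at hv
      rw [if_neg hv.2]
  simp_rw [h1]
  rw [Finset.sum_comm]
  refine Finset.sum_le_sum (fun v _ => ?_)
  set K := A.filter (fun u => G.Adj v u) with hK
  set M := A.filter (fun u => Gᶜ.Adj v u) with hM
  have hKc : K.card = cn G A v := rfl
  have hMc : M.card = cn Gᶜ A v := by
    rw [hM]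
    unfold cn
    congr 1
    ext u
    simp only [Finset.mem_filter]
  set Q := A.powersetCard (s + 1) with hQ
  have h2 : ∑ S ∈ Q, (if v ∈ S then 0 else (2 - cn G S v)) ≤
      2 * (Q.filter (fun S => v ∉ S ∧ cn G S v = 0)).card +
        (Q.filter (fun S => v ∉ S ∧ cn G S v = 1)).card := by
    rw [Finset.card_filter, Finset.card_filter, Finset.mul_sum, ← Finset.sum_add_distrib]
    refine Finset.sum_le_sum (fun S _ => ?_)
    by_cases hv : v ∈ S
    · simp [hv]
    · by_cases h0 : cn G S v = 0
      · simp [hv, h0]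
      · by_cases h1 : cn G S v = 1
        · simp [hv, h1]
        · simp only [hv, h0, h1, if_false, not_false_eq_true, and_false]
          omega
  have hmemM : ∀ S : Finset V, S ⊆ A → v ∉ S → ∀ u ∈ S, ¬ G.Adj v u → u ∈ M := by
    intro S hSA hv u hu h
    rw [hM, Finset.mem_filter, SimpleGraph.compl_adj]
    exact ⟨hSA hu, fun h' => hv (h' ▸ hu), h⟩
  have h3 : (Q.filter (fun S => v ∉ S ∧ cn G S v = 0)).card ≤ (cn Gᶜ A v).choose (s + 1) := by
    rw [← hMc, ← Finset.card_powersetCard]
    refine Finset.card_le_card ?_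
    intro S hS
    rw [Finset.mem_filter, hQ, Finset.mem_powersetCard] at hS
    obtain ⟨⟨hSA, hc⟩, hv, h0⟩ := hS
    rw [Finset.mem_powersetCard]
    refine ⟨?_, hc⟩
    intro u hu
    refine hmemM S hSA hv u hu (fun h => ?_)
    unfold cn at h0
    rw [Finset.card_eq_zero] at h0
    have : u ∈ S.filter (fun u => G.Adj v u) := Finset.mem_filter.2 ⟨hu, h⟩
    rw [h0] at this
    exact absurd this (Finset.notMem_empty _)
  have h4 : (Q.filter (fun S => v ∉ S ∧ cn G S v = 1)).card ≤ cn G A v * (cn Gᶜ A v).choose s := by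
    rw [← hMc, ← hKc, ← Finset.card_powersetCard, ← Finset.card_product]
    refine (Finset.card_le_card ?_).trans (Finset.card_image_le (f := fun x : V × Finset V => insert x.1 x.2))
    intro S hS
    rw [Finset.mem_filter, hQ, Finset.mem_powersetCard] at hS
    obtain ⟨⟨hSA, hc⟩, hv, h0⟩ := hS
    unfold cn at h0
    obtain ⟨a, ha⟩ := Finset.card_eq_one.1 h0
    have haS : a ∈ S.filter (fun u => G.Adj v u) := by
      rw [ha]
      exact Finset.mem_singleton_self _
    rw [Finset.mem_filter] at haS
    rw [Finset.mem_image]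
    refine ⟨(a, S.erase a), ?_, Finset.insert_erase haS.1⟩
    rw [Finset.mem_product, Finset.mem_powersetCard]
    refine ⟨Finset.mem_filter.2 ⟨hSA haS.1, haS.2⟩, ?_, ?_⟩
    · intro u hu
      rw [Finset.mem_erase] at hu
      refine hmemM S hSA hv u hu.2 (fun h => ?_)
      have : u ∈ S.filter (fun u => G.Adj v u) := Finset.mem_filter.2 ⟨hu.2, h⟩
      rw [ha, Finset.mem_singleton] at this
      exact hu.1 this
    · simp only
      rw [Finset.card_erase_of_mem haS.1, hc]
      omega
  calc _ ≤ _ := h2
    _ ≤ _ := by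
      have := Nat.mul_le_mul_left 2 h3
      omega

lemma exists_min_wt (H : SimpleGraph V) (A : Finset V) (s : ℕ) (hs : s ≤ A.card) :
    ∃ S : Finset V, S.card = s ∧ A.card.choose s * wt H S ≤ ∑ S ∈ A.powersetCard s, wt H S := by
  obtain ⟨S, hS, hmin⟩ := Finset.exists_min_image (A.powersetCard s) (wt H)
    (Finset.powersetCard_nonempty.2 hs)
  refine ⟨S, (Finset.mem_powersetCard.1 hS).2, ?_⟩
  have := Finset.card_nsmul_le_sum (A.powersetCard s) (wt H) (wt H S) hmin
  rw [Finset.card_powersetCard, smul_eq_mul] at this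
  exact this

lemma Bad.sixteen_low {G : SimpleGraph V} (h : Bad G) (h1 : ∀ v, 1 ≤ dg G v)
    (h2 : ∀ v, 1 ≤ dg Gᶜ v) (hn : Fintype.card V = 16) (x : V) (hx : dg G x < 4)
    (hz : ∀ z, 4 ≤ dg Gᶜ z) : False := by
  have hsum : ∀ v, dg G v + dg Gᶜ v + 1 = Fintype.card V := dg_add_compl G
  have hp : ∀ x y, x ≠ y → 8 ≤ dg G x + dg G y := by
    intro x y hxy
    have := h.pair h1 x y hxy
    omega
  obtain ⟨S, hS, hS'⟩ := exists_min_wt G Finset.univ 4 (by rw [Finset.card_univ]; omega)
  obtain ⟨T, hT, hT'⟩ := exists_min_wt Gᶜ Finset.univ 5 (by rw [Finset.card_univ]; omega)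
  have hS2 := sum_wt_le G 3
  have hT2 := sum_wt_le Gᶜ 4
  rw [compl_compl] at hT2
  rw [Finset.card_univ, hn] at hS' hT'
  have c1 : Nat.choose 16 4 = 1820 := by decide
  have c2 : Nat.choose 16 5 = 4368 := by decide
  rw [c1] at hS'
  rw [c2] at hT'
  have hcost := h _ _ (Value.L0 G S _ le_rfl) (Value.L0 Gᶜ T _ le_rfl)
  rw [hS, hT, hn] at hcost
  let F : ℕ → ℕ := fun k => 12 * (2 * (15 - k).choose 4 + k * (15 - k).choose 3) +
    5 * (2 * k.choose 5 + (15 - k) * k.choose 4)
  have hFsum : 12 * ∑ v : V, (2 * (dg Gᶜ v).choose (3 + 1) + dg G v * (dg Gᶜ v).choose 3) +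
      5 * ∑ v : V, (2 * (dg G v).choose (4 + 1) + dg Gᶜ v * (dg G v).choose 4) = ∑ v : V, F (dg G v) := by
    rw [Finset.mul_sum, Finset.mul_sum, ← Finset.sum_add_distrib]
    refine Finset.sum_congr rfl (fun v _ => ?_)
    have := hsum v
    have e : dg Gᶜ v = 15 - dg G v := by omega
    rw [e]
  have hF1 : ∀ k, 1 ≤ k → k < 4 → F k ≤ 28392 := by decide
  have hF2 : ∀ k, k < 12 → 5 ≤ k → F k ≤ 12500 := by decide
  have hle := sum_le_one (fun v => F (dg G v)) x 28392 12500 (hF1 _ (h1 x) hx) (fun v hv => by
    have a := hp x v (Ne.symm hv)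
    have b := hz v
    have c := hsum v
    exact hF2 _ (by omega) (by omega))
  rw [hn] at hle
  have g1 := hS'.trans hS2
  have g2 := hT'.trans hT2
  omega

lemma Bad.sixteen {G : SimpleGraph V} (h : Bad G) (h1 : ∀ v, 1 ≤ dg G v)
    (h2 : ∀ v, 1 ≤ dg Gᶜ v) (hn : Fintype.card V = 16) : False := by
  have hsum : ∀ v, dg G v + dg Gᶜ v + 1 = Fintype.card V := dg_add_compl G
  have hp : ∀ x y, x ≠ y → 8 ≤ dg G x + dg G y := by
    intro x y hxy
    have := h.pair h1 x y hxy
    omega
  have hp' : ∀ x y, x ≠ y → 8 ≤ dg Gᶜ x + dg Gᶜ y := by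
    intro x y hxy
    have := h.compl.pair h2 x y hxy
    omega
  have havg0 := h.avg 3 12 (by omega)
  rw [hn] at havg0
  have havg : 12 * Nat.choose 16 (3 + 1) ≤ ∑ v : V, WW 3 15 (dg G v) := havg0
  have c1 : Nat.choose 16 (3 + 1) = 1820 := by decide
  rw [c1] at havg
  have hone : ∀ v, WW 3 15 (dg G v) ≤ WW 3 15 1 := by
    intro v
    have a := h1 v
    have b := h2 v
    have c := hsum v
    exact WW_le 2 _ 1 _ a (by omega)
  have hlov : ∀ lo v, lo ≤ dg G v → lo ≤ dg Gᶜ v → WW 3 15 (dg G v) ≤ WW 3 15 lo := by
    intro lo v a b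
    have c := hsum v
    exact WW_le 2 _ lo _ a (by omega)
  have w1 : WW 3 15 1 = 2366 := by decide
  have w4 : WW 3 15 4 = 1366 := by decide
  have w5 : WW 3 15 5 = 1130 := by decide
  by_cases hx : ∃ x, dg G x < 4
  · obtain ⟨x, hx⟩ := hx
    by_cases hz : ∃ z, dg Gᶜ z < 4
    · obtain ⟨z, hz⟩ := hz
      have hxz : x ≠ z := by
        rintro rfl
        have := hsum x
        omega
      have := sum_le_two (fun v => WW 3 15 (dg G v)) x z hxz _
        (WW 3 15 5) (hone x) (hone z) (fun v hv hv' => by
          have a := hp x v (Ne.symm hv)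
          have b := hp' z v (Ne.symm hv')
          exact hlov 5 v (by omega) (by omega))
      rw [hn] at this
      omega
    · push Not at hz
      exact h.sixteen_low h1 h2 hn x hx hz
  · push Not at hx
    by_cases hz : ∃ z, dg Gᶜ z < 4
    · obtain ⟨z, hz⟩ := hz
      exact h.compl.sixteen_low h2 (by rw [compl_compl]; exact h1) hn z hz
        (by rw [compl_compl]; exact hx)
    · push Not at hz
      have hdeg : ∀ v, dg G v = 4 ∨ dg G v = 11 := by
        intro v
        by_contra hcon
        have c := hsum v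
        have a := hx v
        have b := hz v
        have := sum_le_one (fun v => WW 3 15 (dg G v)) v _
          (WW 3 15 4) (hlov 5 v (by omega) (by omega)) (fun v hv => hlov 4 v (hx v) (hz v))
        rw [hn] at this
        omega
      classical
      set A := Finset.univ.filter (fun v => dg G v = 11) with hA
      set B := Finset.univ.filter (fun v => ¬ dg G v = 11) with hB
      have hAB : A.card + B.card = 16 := by
        rw [hA, hB, Finset.card_filter_add_card_filter_not, Finset.card_univ, hn]
      have hAm : ∀ v, v ∈ A ↔ dg G v = 11 := by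
        intro v
        simp [hA]
      have hBm : ∀ v, v ∈ B ↔ dg G v = 4 := by
        intro v
        have := hdeg v
        simp only [hB, Finset.mem_filter, Finset.mem_univ, true_and]
        omega
      have hABd : Disjoint A B := Finset.disjoint_filter_filter_not _ _ _
      have hABu : A ∪ B = Finset.univ := Finset.filter_union_filter_not_eq _ _
      have hBB : ∀ v ∈ B, ∀ w ∈ B, ¬ G.Adj v w := by
        intro v hv w hw hvw
        rw [hBm] at hv hw
        have := h.pair_adj h1 v w hvw
        omega
      have hAA : ∀ v ∈ A, ∀ w ∈ A, w ≠ v → G.Adj v w := by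
        intro v hv w hw hvw
        rw [hAm] at hv hw
        by_contra hcon
        have := h.compl.pair_adj h2 v w (by
          rw [SimpleGraph.compl_adj]
          exact ⟨Ne.symm hvw, hcon⟩)
        have c1 := hsum v
        have c2 := hsum w
        omega
      have hsplit : ∀ v, dg G v = cn G A v + cn G B v := by
        intro v
        unfold dg cn
        rw [← hABu, Finset.filter_union]
        exact Finset.card_union_of_disjoint (Finset.disjoint_filter_filter hABd)
      have hcA : ∀ v ∈ A, cn G A v + 1 = A.card := by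
        intro v hv
        have : A.filter (fun u => G.Adj v u) = A.erase v := by
          ext u
          rw [Finset.mem_filter, Finset.mem_erase]
          exact ⟨fun h => ⟨h.2.ne', h.1⟩, fun h => ⟨h.2, hAA v hv u h.2 h.1⟩⟩
        unfold cn
        rw [this, Finset.card_erase_of_mem hv]
        have : 0 < A.card := Finset.card_pos.2 ⟨v, hv⟩
        omega
      have hcB : ∀ v ∈ B, cn G B v = 0 := by
        intro v hv
        unfold cn
        rw [Finset.card_eq_zero, Finset.filter_eq_empty_iff]
        intro u hu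
        exact hBB v hv u hu
      have hcBA : ∀ v ∈ B, cn G A v = 4 := by
        intro v hv
        have a := hsplit v
        have b := hcB v hv
        have c := (hBm v).1 hv
        omega
      have hdouble : ∑ v ∈ B, cn G A v = ∑ v ∈ A, cn G B v := by
        unfold cn
        simp_rw [Finset.card_filter]
        rw [Finset.sum_comm]
        refine Finset.sum_congr rfl (fun v _ => Finset.sum_congr rfl (fun w _ => ?_))
        rw [G.adj_comm]
      have e1 : ∑ v ∈ B, cn G A v = B.card * 4 := by
        rw [Finset.sum_congr rfl hcBA, Finset.sum_const, smul_eq_mul]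
      have hAne : A.Nonempty := by
        rw [Finset.nonempty_iff_ne_empty]
        intro hA0
        have hv : ∃ v, v ∈ B := by
          rw [hA0, Finset.card_empty, zero_add] at hAB
          exact Finset.card_pos.1 (by omega)
        obtain ⟨v, hv⟩ := hv
        have := hcBA v hv
        rw [hA0] at this
        unfold cn at this
        simp at this
      obtain ⟨v₀, hv₀⟩ := hAne
      have hcAB : ∀ v ∈ A, cn G B v = 12 - A.card := by
        intro v hv
        have a := hsplit v
        have b := hcA v hv
        have c := (hAm v).1 hv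
        omega
      have e2 : ∑ v ∈ A, cn G B v = A.card * (12 - A.card) := by
        rw [Finset.sum_congr rfl hcAB, Finset.sum_const, smul_eq_mul]
      have hA12 : A.card ≤ 12 := by
        have a := hsplit v₀
        have b := hcA v₀ hv₀
        have c := (hAm v₀).1 hv₀
        omega
      rw [e1, e2] at hdouble
      have hA8 : A.card = 8 := by
        obtain ⟨a, ha⟩ : ∃ a, A.card = a := ⟨_, rfl⟩
        have hb : B.card = 16 - a := by omega
        rw [ha] at hdouble hA12 ⊢
        rw [hb] at hdouble
        clear_value A B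
        clear hsum hp hp' havg havg0 hone hlov
        interval_cases a <;> omega
      have hB8 : B.card = 8 := by omega
      obtain ⟨S, hS, hS'⟩ := exists_min_wt G A 4 (by omega)
      have hS2 := sum_wt_le_sub G A 3
      have hsum2 : ∑ v : V, (2 * (cn Gᶜ A v).choose (3 + 1) + cn G A v * (cn Gᶜ A v).choose 3) = 144 := by
        rw [← hABu, Finset.sum_union hABd]
        have s1 : ∑ v ∈ A, (2 * (cn Gᶜ A v).choose (3 + 1) + cn G A v * (cn Gᶜ A v).choose 3) = 0 := by
          refine Finset.sum_eq_zero (fun v hv => ?_)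
          rw [cn_compl_eq G A v (fun u hu huv => hAA v hv u hu huv)]
          simp
        have s2 : ∑ v ∈ B, (2 * (cn Gᶜ A v).choose (3 + 1) + cn G A v * (cn Gᶜ A v).choose 3) =
            ∑ v ∈ B, 18 := by
          refine Finset.sum_congr rfl (fun v hv => ?_)
          have a := cn_add_compl G A v (fun h => Finset.disjoint_left.1 hABd h hv)
          have b := hcBA v hv
          have c : cn Gᶜ A v = 4 := by omega
          rw [b, c]
          decide
        rw [s1, s2, Finset.sum_const, hB8]
        rfl
      rw [hsum2] at hS2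
      rw [hA8] at hS'
      have c2 : Nat.choose 8 4 = 70 := by decide
      rw [c2] at hS'
      have hcost := h.cost h2 S
      rw [hn, hS] at hcost
      have := hS'.trans hS2
      omega

end Pool.Agent.V7H38.OG
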