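import Pool.Agent.V7H38.OG.Bounds

/-!
# Spanning star forests and the bound `2n/3`
-/

set_option autoImplicit false
set_option linter.unusedSectionVars false
set_option linter.unusedVariables false

namespace Pool.Agent.V7H38.OG

variable {V : Type} [DecidableEq V] [Fintype V]

open Classical in
lemma exists_stars (H : SimpleGraph V) (h1 : ∀ v, ∃ w, H.Adj v w) :
    ∃ p : V → V, (∀ v, p (p v) = p v) ∧ (∀ v, p v ≠ v → H.Adj v (p v)) ∧
      ∀ v, p v = v → ∃ w, w ≠ v ∧ p w = v := by
  let iso : (V → V) → Finset V := fun p => Finset.univ.filter (fun v => p v = v ∧ ∀ w, w ≠ v → p w ≠ v)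
  obtain ⟨p, hp, hmin⟩ := Finset.exists_min_image
    ((Finset.univ : Finset (V → V)).filter (fun p => (∀ v, p (p v) = p v) ∧
      (∀ v, p v ≠ v → H.Adj v (p v)))) (fun p => (iso p).card) ⟨id, by simp⟩
  rw [Finset.mem_filter] at hp
  obtain ⟨-, hp1, hp2⟩ := hp
  refine ⟨p, hp1, hp2, ?_⟩
  by_contra hcon
  push Not at hcon
  obtain ⟨c, hc, hc'⟩ := hcon
  have hc2 : ∀ u, p u = c → u = c := by
    intro u hu
    by_contra h
    exact hc' u h hu
  obtain ⟨w, hcw⟩ := h1 c
  have hwc : w ≠ c := hcw.ne'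
  set x := p w with hx
  have hxc : x ≠ c := fun h => hwc (hc2 w h)
  have hpx : p x = x := hp1 w
  set K : V → Prop := fun u => u = c ∨ u = w ∨ (u = x ∧ ∀ y, p y = x → y = w ∨ y = x) with hK
  let q : V → V := fun u => if K u then w else p u
  have hq1 : ∀ u, K u → q u = w := fun u hu => if_pos hu
  have hq2 : ∀ u, ¬ K u → q u = p u := fun u hu => if_neg hu
  have hKc : K c := Or.inl rfl
  have hKw : K w := Or.inr (Or.inl rfl)
  have hvalid : (∀ v, q (q v) = q v) ∧ (∀ v, q v ≠ v → H.Adj v (q v)) := by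
    refine ⟨?_, ?_⟩
    · intro v
      by_cases hv : K v
      · rw [hq1 v hv, hq1 w hKw]
      · rw [hq2 v hv]
        by_cases hpv : K (p v)
        · rw [hq1 _ hpv]
          rcases hpv with h | h | ⟨h, h'⟩
          · exact absurd (Or.inl (hc2 v h)) hv
          · exact h.symm
          · rcases h' v h with h'' | h''
            · exact absurd (Or.inr (Or.inl h'')) hv
            · exact absurd (Or.inr (Or.inr ⟨h'', h'⟩)) hv
        · rw [hq2 _ hpv, hp1]
    · intro v hv
      by_cases hKv : K v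
      · rw [hq1 v hKv] at hv ⊢
        rcases hKv with h | h | ⟨h, -⟩
        · rw [h]
          exact hcw
        · exact absurd h.symm hv
        · rw [h, hx]
          rw [h] at hv
          exact (hp2 w (fun h => hv (by rw [hx, h]))).symm
      · rw [hq2 v hKv] at hv ⊢
        exact hp2 v hv
  have hsub : iso q ⊆ (iso p).erase c := by
    intro v hv
    simp only [iso, Finset.mem_filter, Finset.mem_univ, true_and] at hv
    obtain ⟨hv1, hv2⟩ := hv
    have hvc : v ≠ c := by
      rintro rfl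
      rw [hq1 _ hKc] at hv1
      exact hwc hv1
    have hvw : v ≠ w := by
      rintro rfl
      exact hv2 c hwc.symm (hq1 c hKc)
    have hKv : ¬ K v := by
      intro h
      rw [hq1 v h] at hv1
      exact hvw hv1.symm
    have hpv : p v = v := by
      rw [hq2 v hKv] at hv1
      exact hv1
    rw [Finset.mem_erase]
    refine ⟨hvc, ?_⟩
    simp only [iso, Finset.mem_filter, Finset.mem_univ, true_and]
    refine ⟨hpv, ?_⟩
    intro u huv hpu
    have hqu := hv2 u huv
    by_cases hKu : K u
    · rcases hKu with h | h | ⟨h, h'⟩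
      · rw [h, hc] at hpu
        exact hvc hpu.symm
      · rw [h] at hpu
        -- `v = x`
        have hvx : v = x := hpu.symm
        have hn : ¬ ∀ y, p y = x → y = w ∨ y = x := fun h => hKv (Or.inr (Or.inr ⟨hvx, h⟩))
        push Not at hn
        obtain ⟨y, hy1, hy2, hy3⟩ := hn
        have hKy : ¬ K y := by
          rintro (h | h | ⟨h, -⟩)
          · rw [h, hc] at hy1
            exact hxc hy1.symm
          · exact hy2 h
          · exact hy3 h
        refine hv2 y (by rw [hvx]; exact hy3) ?_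
        rw [hq2 y hKy, hy1, hvx]
      · rw [h, hpx] at hpu
        exact hKv (Or.inr (Or.inr ⟨hpu.symm, h'⟩))
    · rw [hq2 u hKu] at hqu
      exact hqu hpu
  have hcmem : c ∈ iso p := by
    simp only [iso, Finset.mem_filter, Finset.mem_univ, true_and]
    exact ⟨hc, hc'⟩
  have hm := hmin q (by simp only [Finset.mem_filter, Finset.mem_univ, true_and]; exact hvalid)
  have h3 := Finset.card_le_card hsub
  rw [Finset.card_erase_of_mem hcmem] at h3
  have h4 : 0 < (iso p).card := Finset.card_pos.2 ⟨c, hcmem⟩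
  omega

open Classical in
/-- Graphs without isolated vertices: value at most `2n / 3`. -/
lemma Value.T1 (H : SimpleGraph V) (h1 : ∀ v, ∃ w, H.Adj v w) :
    Value H (2 * Fintype.card V / 3) := by
  obtain ⟨p, hp1, hp2, hp3⟩ := exists_stars H h1
  let lf : V → Finset V := fun c => Finset.univ.filter (fun w => w ≠ c ∧ p w = c)
  have hlf : ∀ c w, w ∈ lf c ↔ w ≠ c ∧ p w = c := by
    intro c w
    simp [lf]
  have hpos : ∀ v, 1 ≤ (lf (p v)).card := by
    intro v
    obtain ⟨w, hw⟩ := hp3 (p v) (hp1 v)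
    exact Finset.card_pos.2 ⟨w, (hlf _ _).2 hw⟩
  have hone : ∀ c, (lf c).card = 1 → ∃ a, ∀ w, w ∈ lf c ↔ w = a := by
    intro c hc
    obtain ⟨a, ha⟩ := Finset.card_eq_one.1 hc
    exact ⟨a, fun w => by rw [ha, Finset.mem_singleton]⟩
  choose! ell hell using hone
  set C := Finset.univ.filter (fun v => p v = v ∧ 2 ≤ (lf (p v)).card) with hC
  set L := Finset.univ.filter (fun v => p v ≠ v ∧ 2 ≤ (lf (p v)).card) with hL
  set R := Finset.univ.filter (fun v => (lf (p v)).card = 1) with hR
  have hCm : ∀ v, v ∈ C ↔ p v = v ∧ 2 ≤ (lf (p v)).card := by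
    intro v
    simp [hC]
  have hLm : ∀ v, v ∈ L ↔ p v ≠ v ∧ 2 ≤ (lf (p v)).card := by
    intro v
    simp [hL]
  have hRm : ∀ v, v ∈ R ↔ (lf (p v)).card = 1 := by
    intro v
    simp [hR]
  -- the involution
  let g : V → V := fun v => if v ∈ R then (if p v = v then ell v else p v) else v
  have hg0 : ∀ v, v ∉ R → g v = v := fun v hv => if_neg hv
  have hg1 : ∀ v, v ∈ R → p v = v → g v = ell v := by
    intro v hv h
    simp only [g, if_pos hv, if_pos h]
  have hg2 : ∀ v, v ∈ R → p v ≠ v → g v = p v := by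
    intro v hv h
    simp only [g, if_pos hv, if_neg h]
  have hk1 : ∀ v, v ∈ R → p v = v → ell v ≠ v ∧ p (ell v) = v ∧ ell v ∈ R := by
    intro v hv h
    have hv' := (hRm v).1 hv
    rw [h] at hv'
    have h5 := (hell v hv' (ell v)).2 rfl
    rw [hlf] at h5
    refine ⟨h5.1, h5.2, ?_⟩
    rw [hRm, h5.2]
    exact hv'
  have hk2 : ∀ v, v ∈ R → p v ≠ v → p v ∈ R ∧ ell (p v) = v := by
    intro v hv h
    have hv' := (hRm v).1 hv
    refine ⟨by rw [hRm, hp1]; exact hv', ?_⟩
    exact ((hell (p v) hv' v).1 ((hlf _ _).2 ⟨Ne.symm h, rfl⟩)).symm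
  have hinv : Function.Involutive g := by
    intro v
    by_cases hv : v ∈ R
    · by_cases h : p v = v
      · obtain ⟨a1, a2, a3⟩ := hk1 v hv h
        rw [hg1 v hv h, hg2 _ a3 (by rw [a2]; exact a1.symm), a2]
      · obtain ⟨a1, a2⟩ := hk2 v hv h
        rw [hg2 v hv h, hg1 _ a1 (hp1 v), a2]
    · rw [hg0 v hv, hg0 v hv]
  have hgR : ∀ v ∈ R, hinv.toPerm g v ∈ R := by
    intro v hv
    rw [Function.Involutive.coe_toPerm]
    by_cases h : p v = v
    · rw [hg1 v hv h]
      exact (hk1 v hv h).2.2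
    · rw [hg2 v hv h]
      exact (hk2 v hv h).1
  have hgadj : ∀ v ∈ R, H.Adj v (hinv.toPerm g v) := by
    intro v hv
    rw [Function.Involutive.coe_toPerm]
    by_cases h : p v = v
    · rw [hg1 v hv h]
      obtain ⟨a1, a2, a3⟩ := hk1 v hv h
      have := hp2 (ell v) (by rw [a2]; exact a1.symm)
      rw [a2] at this
      exact this.symm
    · rw [hg2 v hv h]
      exact hp2 v h
  have hCL : Disjoint C L := by
    rw [Finset.disjoint_left]
    intro v hv h
    exact ((hLm v).1 h).1 ((hCm v).1 hv).1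
  have hCLR : Disjoint (C ∪ L) R := by
    rw [Finset.disjoint_left]
    intro v hv h
    rw [Finset.mem_union, hCm, hLm] at hv
    rw [hRm] at h
    omega
  have hcard : C.card + L.card + R.card = Fintype.card V := by
    rw [← Finset.card_union_of_disjoint hCL, ← Finset.card_union_of_disjoint hCLR, ← Finset.card_univ]
    congr 1
    rw [Finset.eq_univ_iff_forall]
    intro v
    have := hpos v
    rw [Finset.mem_union, Finset.mem_union, hCm, hLm, hRm]
    by_cases h : p v = v
    · rcases this.lt_or_eq with h' | h'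
      · exact Or.inl (Or.inl ⟨h, h'⟩)
      · exact Or.inr h'.symm
    · rcases this.lt_or_eq with h' | h'
      · exact Or.inl (Or.inr ⟨h, h'⟩)
      · exact Or.inr h'.symm
  have hLC : 2 * C.card ≤ L.card := by
    have hmap : ∀ v ∈ L, p v ∈ C := by
      intro v hv
      rw [hCm, hp1]
      exact ⟨rfl, ((hLm v).1 hv).2⟩
    rw [Finset.card_eq_sum_card_fiberwise hmap, mul_comm, ← smul_eq_mul]
    refine Finset.card_nsmul_le_sum _ _ _ ?_
    intro c hc
    obtain ⟨hc1, hc2⟩ := (hCm c).1 hc
    rw [hc1] at hc2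
    refine hc2.trans (Finset.card_le_card ?_)
    intro w hw
    rw [hlf] at hw
    rw [Finset.mem_filter, hLm]
    refine ⟨⟨?_, ?_⟩, hw.2⟩
    · rw [hw.2]
      exact hw.1.symm
    · rw [hw.2]
      exact hc2
  refine Value.master C ∅ L ∅ R (hinv.toPerm g) ?_ (Finset.disjoint_empty_right _) hCL
    (Finset.disjoint_empty_left _) (hCLR.mono_left Finset.subset_union_left) ?_ ?_ hgR hgadj _ ?_
  · intro v
    have := hpos v
    rw [hCm, hLm, hRm]
    by_cases h : p v = v
    · rcases this.lt_or_eq with h' | h'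
      · exact Or.inl ⟨h, h'⟩
      · exact Or.inr (Or.inr (Or.inr (Or.inr h'.symm)))
    · rcases this.lt_or_eq with h' | h'
      · exact Or.inr (Or.inr (Or.inl ⟨h, h'⟩))
      · exact Or.inr (Or.inr (Or.inr (Or.inr h'.symm)))
  · intro v hv
    exact absurd hv (Finset.notMem_empty _)
  · intro v hv
    obtain ⟨hv1, hv2⟩ := (hLm v).1 hv
    refine ⟨p v, ?_, (hp2 v hv1).symm⟩
    rw [hCm, hp1]
    exact ⟨rfl, hv2⟩
  · rw [Finset.card_empty]
    omega

end Pool.Agent.V7H38.OG
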