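import Pool.Agent.V7H38.OG.Average

/-!
# Structure of a counterexample
-/

set_option autoImplicit false
set_option linter.unusedSectionVars false
set_option linter.unusedVariables false

namespace Pool.Agent.V7H38.OG

variable {V : Type} [DecidableEq V] [Fintype V]

open Classical in
lemma wt_pair (G : SimpleGraph V) (x y : V) (hxy : x ≠ y) :
    wt Gᶜ {x, y} + 2 * (if G.Adj x y then 1 else 0) = dg G x + dg G y := by
  have h1 : ∀ v ∈ Finset.univ \ ({x, y} : Finset V), 2 - cn Gᶜ {x, y} v =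
      (if G.Adj v x then 1 else 0) + (if G.Adj v y then 1 else 0) := by
    intro v hv
    rw [Finset.mem_sdiff] at hv
    have h2 := cn_add_compl G {x, y} v hv.2
    rw [Finset.card_pair hxy] at h2
    have h3 : cn G {x, y} v = (if G.Adj v x then 1 else 0) + (if G.Adj v y then 1 else 0) := by
      unfold cn
      rw [Finset.card_filter, Finset.sum_pair hxy]
    omega
  have h4 : ∀ z w : V, z ≠ w → dg G z = (∑ v ∈ Finset.univ \ ({z, w} : Finset V), (if G.Adj v z then 1 else 0)) +
      (if G.Adj z w then 1 else 0) := by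
    intro z w hzw
    unfold dg cn
    rw [Finset.card_filter, ← Finset.sum_sdiff (Finset.subset_univ ({z, w} : Finset V)),
      Finset.sum_pair hzw]
    simp only [SimpleGraph.irrefl, if_false, zero_add]
    congr 1
    exact Finset.sum_congr rfl (fun v _ => by rw [G.adj_comm])
  unfold wt
  rw [Finset.sum_congr rfl h1, Finset.sum_add_distrib, h4 x y hxy, h4 y x hxy.symm,
    Finset.pair_comm y x, G.adj_comm y x]
  omega

/-- `G` is a counterexample -/
def Bad (G : SimpleGraph V) : Prop :=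
  ∀ k₁ k₂, Value G k₁ → Value Gᶜ k₂ → 2 * Fintype.card V + 9 < 3 * (k₁ + k₂)

lemma Bad.compl {G : SimpleGraph V} (h : Bad G) : Bad Gᶜ := by
  intro k₁ k₂ h1 h2
  rw [compl_compl] at h2
  have := h k₂ k₁ h2 h1
  omega

lemma exists_of_dg {G : SimpleGraph V} {v : V} (h : 1 ≤ dg G v) : ∃ w, G.Adj v w := by
  obtain ⟨w, -, h⟩ := cn_pos h
  exact ⟨w, h.symm⟩

lemma Bad.leaves {G : SimpleGraph V} (h : Bad G) (h1 : ∀ v, 1 ≤ dg G v) (x y : V) (hxy : x ≠ y) :
    2 ≤ dg G x ∨ 2 ≤ dg G y := by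
  classical
  by_contra hcon
  have h2 := wt_pair G x y hxy
  have h3 := Value.L0 Gᶜ {x, y} 3 (by rw [Finset.card_pair hxy]; omega)
  have h4 := Value.T1 G (fun v => exists_of_dg (h1 v))
  have h5 := h _ _ h4 h3
  omega

lemma Bad.half {G : SimpleGraph V} (h : Bad G) (h1 : ∀ v, 1 ≤ dg G v) :
    Value G (Fintype.card V / 2) :=
  Value.T2 G h1 (fun v w hvw => h.leaves h1 v w hvw)

lemma Bad.cost {G : SimpleGraph V} (h : Bad G) (h2 : ∀ v, 1 ≤ dg Gᶜ v) (S : Finset V) :
    2 * Fintype.card V + 9 < 3 * (S.card + wt G S / 2 + Fintype.card V / 2) :=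
  h _ _ (Value.L0 G S _ le_rfl) (h.compl.half h2)

lemma Bad.pair {G : SimpleGraph V} (h : Bad G) (h1 : ∀ v, 1 ≤ dg G v) (x y : V) (hxy : x ≠ y) :
    2 * Fintype.card V + 9 < 3 * (2 + (dg G x + dg G y) / 2 + Fintype.card V / 2) := by
  classical
  have h2 := h.compl.cost (by rw [compl_compl]; exact h1) {x, y}
  rw [Finset.card_pair hxy] at h2
  have h3 := wt_pair G x y hxy
  omega

lemma Bad.pair_adj {G : SimpleGraph V} (h : Bad G) (h1 : ∀ v, 1 ≤ dg G v) (x y : V)
    (hxy : G.Adj x y) :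
    2 * Fintype.card V + 9 < 3 * (1 + (dg G x + dg G y) / 2 + Fintype.card V / 2) := by
  classical
  have h2 := h.compl.cost (by rw [compl_compl]; exact h1) {x, y}
  rw [Finset.card_pair hxy.ne] at h2
  have h3 := wt_pair G x y hxy.ne
  rw [if_pos hxy] at h3
  omega

lemma Bad.avg {G : SimpleGraph V} (h : Bad G) (s : ℕ) (th : ℕ)
    (hth : th + 4 * s + 2 ≤ 2 * ((2 * Fintype.card V + 9) / 3)) :
    th * (Fintype.card V).choose (s + 1) ≤ ∑ v : V, WW s (Fintype.card V - 1) (dg G v) := by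
  refine sum_wt_both G s th (fun S hS => ?_)
  have h3 := h _ _ (Value.L0 G S _ le_rfl) (Value.L0 Gᶜ S _ le_rfl)
  rw [hS] at h3
  omega

lemma sum_le_one (f : V → ℕ) (x : V) (A B : ℕ) (hx : f x ≤ A) (h : ∀ v, v ≠ x → f v ≤ B) :
    ∑ v : V, f v ≤ A + (Fintype.card V - 1) * B := by
  rw [← Finset.add_sum_erase _ f (Finset.mem_univ x)]
  have h1 : ∑ v ∈ Finset.univ.erase x, f v ≤ ∑ v ∈ Finset.univ.erase x, B :=
    Finset.sum_le_sum (fun v hv => h v (Finset.mem_erase.1 hv).1)
  rw [Finset.sum_const, Finset.card_erase_of_mem (Finset.mem_univ _), Finset.card_univ,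
    smul_eq_mul] at h1
  exact Nat.add_le_add hx h1

lemma sum_le_two (f : V → ℕ) (x z : V) (hxz : x ≠ z) (A B : ℕ) (hx : f x ≤ A) (hz : f z ≤ A)
    (h : ∀ v, v ≠ x → v ≠ z → f v ≤ B) :
    ∑ v : V, f v ≤ 2 * A + (Fintype.card V - 2) * B := by
  rw [← Finset.add_sum_erase _ f (Finset.mem_univ x),
    ← Finset.add_sum_erase _ f (Finset.mem_erase.2 ⟨hxz.symm, Finset.mem_univ z⟩)]
  have h1 : ∑ v ∈ (Finset.univ.erase x).erase z, f v ≤ ∑ v ∈ (Finset.univ.erase x).erase z, B :=
    Finset.sum_le_sum (fun v hv => h v (Finset.mem_erase.1 (Finset.mem_erase.1 hv).2).1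
      (Finset.mem_erase.1 hv).1)
  rw [Finset.sum_const, Finset.card_erase_of_mem (Finset.mem_erase.2 ⟨hxz.symm, Finset.mem_univ z⟩),
    Finset.card_erase_of_mem (Finset.mem_univ _), Finset.card_univ, smul_eq_mul] at h1
  have h2 : Fintype.card V - 1 - 1 = Fintype.card V - 2 := by omega
  rw [h2] at h1
  omega

/-- The main averaging argument. -/
lemma Bad.main {G : SimpleGraph V} (h : Bad G) (h1 : ∀ v, 1 ≤ dg G v) (h2 : ∀ v, 1 ≤ dg Gᶜ v)
    (s lo : ℕ) (hlo : lo + 1 + Fintype.card V / 2 = (2 * Fintype.card V + 9) / 3)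
    (hlo1 : 1 ≤ lo) (hlo2 : 2 * lo + 1 ≤ Fintype.card V)
    (th : ℕ) (hth : th + 4 * (s + 1) + 2 ≤ 2 * ((2 * Fintype.card V + 9) / 3))
    (hB : WW (s + 1) (Fintype.card V - 1) 1 + (Fintype.card V - 1) * WW (s + 1) (Fintype.card V - 1) lo <
      th * (Fintype.card V).choose (s + 2))
    (hC : 2 * WW (s + 1) (Fintype.card V - 1) 1 +
      (Fintype.card V - 2) * WW (s + 1) (Fintype.card V - 1) (lo + 1) <
      th * (Fintype.card V).choose (s + 2)) : False := by
  have havg : th * (Fintype.card V).choose (s + 2) ≤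
      ∑ v : V, WW (s + 1) (Fintype.card V - 1) (dg G v) := h.avg (s + 1) th hth
  have hsum : ∀ v, dg G v + dg Gᶜ v + 1 = Fintype.card V := dg_add_compl G
  have hp : ∀ x y, x ≠ y → 2 * lo ≤ dg G x + dg G y := by
    intro x y hxy
    have := h.pair h1 x y hxy
    omega
  have hp' : ∀ x y, x ≠ y → 2 * lo ≤ dg Gᶜ x + dg Gᶜ y := by
    intro x y hxy
    have := h.compl.pair h2 x y hxy
    omega
  have hone : ∀ v, WW (s + 1) (Fintype.card V - 1) (dg G v) ≤ WW (s + 1) (Fintype.card V - 1) 1 := by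
    intro v
    have a := h1 v
    have b := h2 v
    have c := hsum v
    exact WW_le s _ 1 _ a (by omega)
  have hlov : ∀ v, lo ≤ dg G v → lo ≤ dg Gᶜ v →
      WW (s + 1) (Fintype.card V - 1) (dg G v) ≤ WW (s + 1) (Fintype.card V - 1) lo := by
    intro v a b
    have c := hsum v
    exact WW_le s _ lo _ a (by omega)
  have hlov' : ∀ v, lo + 1 ≤ dg G v → lo + 1 ≤ dg Gᶜ v →
      WW (s + 1) (Fintype.card V - 1) (dg G v) ≤ WW (s + 1) (Fintype.card V - 1) (lo + 1) := by
    intro v a b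
    have c := hsum v
    exact WW_le s _ (lo + 1) _ a (by omega)
  have hne : Nonempty V := Fintype.card_pos_iff.1 (by omega)
  obtain ⟨v₀⟩ := hne
  by_cases hx : ∃ x, dg G x < lo
  · obtain ⟨x, hx⟩ := hx
    by_cases hz : ∃ z, dg Gᶜ z < lo
    · obtain ⟨z, hz⟩ := hz
      have hxz : x ≠ z := by
        rintro rfl
        have := hsum x
        omega
      have := sum_le_two (fun v => WW (s + 1) (Fintype.card V - 1) (dg G v)) x z hxz _
        (WW (s + 1) (Fintype.card V - 1) (lo + 1)) (hone x) (hone z) (fun v hv hv' => by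
          have a := hp x v (Ne.symm hv)
          have b := hp' z v (Ne.symm hv')
          exact hlov' v (by omega) (by omega))
      omega
    · push Not at hz
      have := sum_le_one (fun v => WW (s + 1) (Fintype.card V - 1) (dg G v)) x _
        (WW (s + 1) (Fintype.card V - 1) lo) (hone x) (fun v hv => by
          have a := hp x v (Ne.symm hv)
          exact hlov v (by omega) (hz v))
      omega
  · push Not at hx
    by_cases hz : ∃ z, dg Gᶜ z < lo
    · obtain ⟨z, hz⟩ := hz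
      have := sum_le_one (fun v => WW (s + 1) (Fintype.card V - 1) (dg G v)) z _
        (WW (s + 1) (Fintype.card V - 1) lo) (hone z) (fun v hv => by
          have a := hp' z v (Ne.symm hv)
          exact hlov v (hx v) (by omega))
      omega
    · push Not at hz
      have := sum_le_one (fun v => WW (s + 1) (Fintype.card V - 1) (dg G v)) v₀ _
        (WW (s + 1) (Fintype.card V - 1) lo) (hone v₀) (fun v hv => hlov v (hx v) (hz v))
      omega

end Pool.Agent.V7H38.OG
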