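import Mathlib

/-!
# Decision trees for graphs on ten vertices
-/

set_option autoImplicit false

namespace Pool.Agent.V7H38.OG

/-- Decision trees: branch on an adjacency; or a cheap set in the graph or in the complement; or a
vertex of too large degree. -/
inductive T where
  | b (u v : ℕ) (l r : T)
  | g (S : ℕ)
  | c (S : ℕ)
  | p (v : ℕ)
  | q (v : ℕ)

/-- number of ones among the ten lowest bits -/
def pc (z : ℕ) : ℕ :=
  z % 2 + z / 2 % 2 + z / 4 % 2 + z / 8 % 2 + z / 16 % 2 + z / 32 % 2 + z / 64 % 2 +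
    z / 128 % 2 + z / 256 % 2 + z / 512 % 2

/-- row of the adjacency mask -/
def row (P v : ℕ) : ℕ := P / 2 ^ (10 * v) % 1024

/-- contribution of a vertex -/
def ctr (P S v : ℕ) : ℕ := (1 - S / 2 ^ v % 2) * (2 - pc (Nat.land (row P v) S))

/-- weight of `S` according to the known adjacencies -/
def wtm (P S : ℕ) : ℕ :=
  ctr P S 0 + ctr P S 1 + ctr P S 2 + ctr P S 3 + ctr P S 4 + ctr P S 5 + ctr P S 6 +
    ctr P S 7 + ctr P S 8 + ctr P S 9

/-- set the bits of an edge -/
def put (P u v : ℕ) : ℕ := Nat.lor P (Nat.lor (2 ^ (10 * u + v)) (2 ^ (10 * v + u)))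

/-- the checker -/
def run (m : ℕ) : T → ℕ → ℕ → Bool
  | .b u v l r, P, Q => Nat.blt u 10 && Nat.blt v 10 && !Nat.beq u v && run m l (put P u v) Q &&
      run m r P (put Q u v)
  | .g S, P, _ => Nat.ble (2 * pc S + wtm P S) 9
  | .c S, _, Q => Nat.ble (2 * pc S + wtm Q S) 9
  | .p v, P, _ => Nat.blt v 10 && Nat.blt m (pc (row P v))
  | .q v, _, Q => Nat.blt v 10 && Nat.blt m (pc (row Q v))

lemma bit_eq (z k : ℕ) : z / 2 ^ k % 2 = if z.testBit k then 1 else 0 := by
  rw [Nat.testBit_eq_decide_div_mod_eq]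
  rcases Nat.mod_two_eq_zero_or_one (z / 2 ^ k) with h | h <;> simp [h]

lemma pc_eq (z : ℕ) : pc z = ∑ j : Fin 10, if z.testBit j then 1 else 0 := by
  have h : pc z = ∑ j : Fin 10, z / 2 ^ (j : ℕ) % 2 := by
    simp [Fin.sum_univ_succ, pc, Fin.succ]
    ring
  rw [h]
  exact Finset.sum_congr rfl (fun j _ => bit_eq z j)

lemma row_testBit (P v : ℕ) (j : Fin 10) : (row P v).testBit j = P.testBit (10 * v + j) := by
  unfold row
  rw [show (1024 : ℕ) = 2 ^ 10 by norm_num, Nat.testBit_mod_two_pow, Nat.testBit_div_two_pow]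
  simp [j.2]
  rw [add_comm]

/-- the adjacency mask is correct -/
def Cons (adj : Fin 10 → Fin 10 → Prop) (P : ℕ) : Prop :=
  ∀ i j : Fin 10, P.testBit (10 * (i : ℕ) + (j : ℕ)) = true → adj i j

open Classical in
/-- number of neighbours in a mask -/
noncomputable def cnm (adj : Fin 10 → Fin 10 → Prop) (S : ℕ) (i : Fin 10) : ℕ :=
  ∑ j : Fin 10, if (S.testBit j = true ∧ adj i j) then 1 else 0

/-- weight of a mask -/
noncomputable def wm (adj : Fin 10 → Fin 10 → Prop) (S : ℕ) : ℕ :=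
  ∑ i : Fin 10, if S.testBit i then 0 else 2 - cnm adj S i

lemma pc_le_cnm (adj : Fin 10 → Fin 10 → Prop) (P S : ℕ) (h : Cons adj P) (i : Fin 10) :
    pc (Nat.land (row P i) S) ≤ cnm adj S i := by
  classical
  rw [pc_eq]
  unfold cnm
  refine Finset.sum_le_sum (fun j _ => ?_)
  have e : (Nat.land (row P i) S).testBit j = ((row P i).testBit j && S.testBit j) :=
    Nat.testBit_land _ _ _
  rw [e, row_testBit]
  by_cases h1 : P.testBit (10 * (i : ℕ) + (j : ℕ)) = true
  · by_cases h2 : S.testBit j = true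
    · simp [h1, h2, h i j h1]
    · simp [h2]
  · simp [h1]

lemma wtm_eq (P S : ℕ) : wtm P S = ∑ i : Fin 10, ctr P S i := by
  simp [Fin.sum_univ_succ, wtm, Fin.succ]
  ring

lemma wm_le (adj : Fin 10 → Fin 10 → Prop) (P S : ℕ) (h : Cons adj P) : wm adj S ≤ wtm P S := by
  rw [wtm_eq]
  unfold wm
  refine Finset.sum_le_sum (fun i _ => ?_)
  unfold ctr
  rw [bit_eq]
  by_cases h1 : S.testBit i = true
  · simp [h1]
  · have := pc_le_cnm adj P S h i
    simp only [h1, if_false, Bool.false_eq_true]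
    omega

lemma put_testBit (P u v k : ℕ) : (put P u v).testBit k = true →
    P.testBit k = true ∨ k = 10 * u + v ∨ k = 10 * v + u := by
  intro h
  have e : (put P u v).testBit k = (P.testBit k || ((2 ^ (10 * u + v)).testBit k ||
      (2 ^ (10 * v + u)).testBit k)) := by
    unfold put
    have e1 : ∀ a b c : ℕ, (Nat.lor a b).testBit c = (a.testBit c || b.testBit c) :=
      fun a b c => Nat.testBit_lor a b c
    rw [e1, e1]
  rw [e, Bool.or_eq_true, Bool.or_eq_true, Nat.testBit_two_pow, Nat.testBit_two_pow] at h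
  rcases h with h | h | h
  · exact Or.inl h
  · exact Or.inr (Or.inl (of_decide_eq_true h).symm)
  · exact Or.inr (Or.inr (of_decide_eq_true h).symm)

lemma Cons.put {adj : Fin 10 → Fin 10 → Prop} {P : ℕ} (h : Cons adj P) (u v : Fin 10)
    (h1 : adj u v) (h2 : adj v u) : Cons adj (put P u v) := by
  intro i j hij
  rcases put_testBit P u v _ hij with h' | h' | h'
  · exact h i j h'
  · have a : i = u := by omega
    have b : j = v := by omega
    rw [a, b]
    exact h1
  · have a : i = v := by omega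
    have b : j = u := by omega
    rw [a, b]
    exact h2

/-- soundness of the checker -/
theorem run_sound (adj cadj : Fin 10 → Fin 10 → Prop) (hs : ∀ i j, adj i j → adj j i)
    (hs' : ∀ i j, cadj i j → cadj j i) (hc : ∀ i j, i ≠ j → adj i j ∨ cadj i j)
    (m : ℕ) (t : T) : ∀ P Q, run m t P Q = true → Cons adj P → Cons cadj Q →
    (∃ S, 2 * pc S + wm adj S ≤ 9) ∨ (∃ S, 2 * pc S + wm cadj S ≤ 9) ∨
      (∃ i, m < cnm adj 1023 i) ∨ (∃ i, m < cnm cadj 1023 i) := by
  induction t with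
  | b u v l r ihl ihr =>
    intro P Q h hP hQ
    simp only [run, Bool.and_eq_true, Bool.not_eq_true', Nat.blt_eq] at h
    obtain ⟨⟨⟨⟨h1, h2⟩, h3⟩, h4⟩, h5⟩ := h
    have hne : (⟨u, h1⟩ : Fin 10) ≠ ⟨v, h2⟩ := by
      intro h
      have : u = v := congrArg Fin.val h
      rw [this, Nat.beq_refl] at h3
      exact absurd h3 (by decide)
    rcases hc ⟨u, h1⟩ ⟨v, h2⟩ hne with h | h
    · exact ihl _ _ h4 (hP.put ⟨u, h1⟩ ⟨v, h2⟩ h (hs _ _ h)) hQ
    · exact ihr _ _ h5 hP (hQ.put ⟨u, h1⟩ ⟨v, h2⟩ h (hs' _ _ h))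
  | g S =>
    intro P Q h hP hQ
    simp only [run, Nat.ble_eq] at h
    exact Or.inl ⟨S, (Nat.add_le_add_left (wm_le adj P S hP) _).trans h⟩
  | c S =>
    intro P Q h hP hQ
    simp only [run, Nat.ble_eq] at h
    exact Or.inr (Or.inl ⟨S, (Nat.add_le_add_left (wm_le cadj Q S hQ) _).trans h⟩)
  | p v =>
    intro P Q h hP hQ
    simp only [run, Bool.and_eq_true, Nat.blt_eq] at h
    refine Or.inr (Or.inr (Or.inl ⟨⟨v, h.1⟩, h.2.trans_le ?_⟩))
    have h1 := pc_le_cnm adj P 1023 hP ⟨v, h.1⟩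
    refine le_trans (le_of_eq ?_) h1
    congr 1
    unfold row
    exact (Nat.and_two_pow_sub_one_of_lt_two_pow (n := 10) (Nat.mod_lt _ (by norm_num))).symm
  | q v =>
    intro P Q h hP hQ
    simp only [run, Bool.and_eq_true, Nat.blt_eq] at h
    refine Or.inr (Or.inr (Or.inr ⟨⟨v, h.1⟩, h.2.trans_le ?_⟩))
    have h1 := pc_le_cnm cadj Q 1023 hQ ⟨v, h.1⟩
    refine le_trans (le_of_eq ?_) h1
    congr 1
    unfold row
    exact (Nat.and_two_pow_sub_one_of_lt_two_pow (n := 10) (Nat.mod_lt _ (by norm_num))).symm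

end Pool.Agent.V7H38.OG
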